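import Pool.Agent.Q118.SK.Loc

/-!
Return sets of polynomial maps of affine spaces along orbits whose reduction meets an étale fibre
(helper file).
-/

set_option autoImplicit false

namespace Pool.Agent.Q118.SK

open MvPolynomial Pool.Agent.H936R2 Pool.Agent.Y199.DM

/-- For every set `S` of polynomials the set of all `n` such that all members of `S` vanish at the
`n`-th iterate of `x` is a finite union of arithmetic progressions. -/
def AffDML {M : ℕ} (F : Fin M → MvPolynomial (Fin M) ℂ) (x : Fin M → ℂ) : Prop :=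
  ∀ S : Set (MvPolynomial (Fin M) ℂ), ∃ T : Finset (ℕ × ℕ),
    {n : ℕ | ∀ g ∈ S, eval ((pt F)^[n] x) g = 0} =
      {n : ℕ | ∃ q ∈ T, ∃ k : ℕ, n = q.1 * k + q.2}

theorem aff_core {p : ℕ} [hp : Fact p.Prime] {M : ℕ} (τ : ℂ →+* PadicAlgCl p)
    (f : Fin M → MvPolynomial (Fin M) ℂ) (x P : Fin M → ℂ)
    (hf : ∀ i κ, ‖τ ((f i).coeff κ)‖ ≤ 1)
    (hx : ∀ i, ‖τ (x i)‖ ≤ 1) (hP : ∀ i, ‖τ (P i)‖ ≤ 1) (hxP : ∀ i, ‖τ (x i) - τ (P i)‖ < 1)
    (n0 : ℕ) (hdet : ∀ n, n0 ≤ n → ‖τ ((jac f ((pt f)^[n] P)).det)‖ = 1) :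
    AffDML f x := by
  set O := unitBall (PadicAlgCl p) with hO
  choose FO hFO using fun i => exists_lift τ (f i) (hf i)
  let b : Fin M → O := fun i => ⟨τ (x i), hx i⟩
  let c : Fin M → O := fun i => ⟨τ (P i), hP i⟩
  have hit : ∀ (y : Fin M → ℂ) (hy : ∀ i, ‖τ (y i)‖ ≤ 1) n i,
      (((pt FO)^[n] (fun i => (⟨τ (y i), hy i⟩ : O)) i : O) : PadicAlgCl p) =
        τ ((pt f)^[n] y i) := by
    intro y hy n i
    have e1 := pt_map O.subtype FO (fun i => (⟨τ (y i), hy i⟩ : O)) n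
    have e2 := pt_map τ f y n
    have e3 : (fun i => map O.subtype (FO i)) = fun i => map τ (f i) := _root_.funext hFO
    have e4 : (fun i => O.subtype ((⟨τ (y i), hy i⟩ : O))) = fun i => τ (y i) := rfl
    rw [e3, e4, e2] at e1
    exact (congrFun e1 i).symm
  have hitf : ∀ n i, (((pt FO)^[n] b i : O) : PadicAlgCl p) = τ ((pt f)^[n] x i) := hit x hx
  have hitg : ∀ n i, (((pt FO)^[n] c i : O) : PadicAlgCl p) = τ ((pt f)^[n] P i) := hit P hP
  have hresx : (fun i => res (PadicAlgCl p) (b i)) = fun i => res (PadicAlgCl p) (c i) := by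
    funext i
    rw [← sub_eq_zero, ← map_sub, res_eq_zero_iff]
    exact hxP i
  have hres : ∀ n, (fun i => res (PadicAlgCl p) ((pt FO)^[n] b i)) =
      fun i => res (PadicAlgCl p) ((pt FO)^[n] c i) := by
    intro n
    have e1 := pt_map (res (PadicAlgCl p)) FO b n
    have e2 := pt_map (res (PadicAlgCl p)) FO c n
    rw [← e1, ← e2, hresx]
  have hunit : ∀ n, n0 ≤ n → IsUnit (jac FO ((pt FO)^[n] b)).det := by
    intro n hn
    apply isUnit_of_res_ne_zero
    rw [RingHom.map_det, ← jac_map, hres n, jac_map, ← RingHom.map_det, Ne, res_eq_zero_iff]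
    have e1 : (((jac FO ((pt FO)^[n] c)).det : O) : PadicAlgCl p) =
        τ ((jac f ((pt f)^[n] P)).det) := by
      have e2 : (((jac FO ((pt FO)^[n] c)).det : O) : PadicAlgCl p) =
        O.subtype (jac FO ((pt FO)^[n] c)).det := rfl
      rw [e2, RingHom.map_det, ← jac_map, RingHom.map_det, ← jac_map]
      have e3 : (fun i => map O.subtype (FO i)) = fun i => map τ (f i) := _root_.funext hFO
      have e4 : (fun i => O.subtype ((pt FO)^[n] c i)) = fun i => τ ((pt f)^[n] P i) :=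
        _root_.funext (hitg n)
      rw [e3, e4]
    rw [e1, hdet n hn]
    exact lt_irrefl _
  intro S
  obtain ⟨n1, k, hk, hret⟩ := return_set p FO b n0 hunit
  apply exists_progressions _ n1 k hk
  intro r hinf t
  have hiff : ∀ n, (∀ q ∈ S, eval ((pt f)^[n] x) q = 0) ↔
      ∀ Q ∈ (fun q => map τ q) '' S,
        eval (fun i => (((pt FO)^[n] b i : O) : PadicAlgCl p)) Q = 0 := by
    intro n
    have hval : ∀ q : MvPolynomial (Fin M) ℂ,
        (eval (fun i => (((pt FO)^[n] b i : O) : PadicAlgCl p)) (map τ q) = 0 ↔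
        eval ((pt f)^[n] x) q = 0) := by
      intro q
      have e4 : (fun i => (((pt FO)^[n] b i : O) : PadicAlgCl p)) =
        fun i => τ ((pt f)^[n] x i) := _root_.funext (hitf n)
      have e1 : eval (fun i => τ ((pt f)^[n] x i)) (map τ q) = τ (eval ((pt f)^[n] x) q) := by
        rw [eval_map]
        have h := eval₂_comp_left τ (RingHom.id _) ((pt f)^[n] x) q
        rw [RingHom.comp_id] at h
        exact h.symm
      rw [e4, e1, map_eq_zero]
    constructor
    · rintro h Q ⟨q, hq, rfl⟩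
      exact (hval q).2 (h q hq)
    · intro h q hq
      exact (hval q).1 (h _ ⟨q, hq, rfl⟩)
  simp only [Set.mem_ofPred_eq, hiff] at hinf ⊢
  exact hret _ r hinf t

/-- The property passes from an iterate to the point. -/
theorem affDML_of_iterate {M : ℕ} (F : Fin M → MvPolynomial (Fin M) ℂ)
    (x : Fin M → ℂ) (m : ℕ) (h : AffDML F ((pt F)^[m] x)) : AffDML F x := by
  classical
  intro S
  obtain ⟨T, hT⟩ := h S
  refine ⟨T.image (fun q => (q.1, q.2 + m)) ∪
    ((Finset.range m).filter fun n => ∀ g ∈ S, eval ((pt F)^[n] x) g = 0).image fun n => (0, n), ?_⟩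
  ext n
  simp only [Set.mem_ofPred_eq, Finset.mem_union, Finset.mem_image, Finset.mem_filter,
    Finset.mem_range]
  constructor
  · intro hn
    by_cases hm : n < m
    · exact ⟨(0, n), Or.inr ⟨n, ⟨hm, hn⟩, rfl⟩, 0, by simp⟩
    · obtain ⟨l, rfl⟩ := Nat.exists_eq_add_of_le (not_lt.1 hm)
      have h1 : l ∈ {n : ℕ | ∀ g ∈ S, eval ((pt F)^[n] ((pt F)^[m] x)) g = 0} := by
        intro g hg
        rw [← Function.iterate_add_apply, Nat.add_comm l m]
        exact hn g hg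
      rw [hT] at h1
      obtain ⟨q, hq, k, hk⟩ := h1
      exact ⟨(q.1, q.2 + m), Or.inl ⟨q, hq, rfl⟩, k, by
        change m + l = q.1 * k + (q.2 + m)
        omega⟩
  · rintro ⟨q, hq | hq, k, hk⟩
    · obtain ⟨q', hq', rfl⟩ := hq
      have h1 : q'.1 * k + q'.2 ∈ {n : ℕ | ∀ g ∈ S, eval ((pt F)^[n] ((pt F)^[m] x)) g = 0} := by
        rw [hT]
        exact ⟨q', hq', k, rfl⟩
      have h2 : n = q'.1 * k + q'.2 + m := by
        rw [hk]
        change q'.1 * k + (q'.2 + m) = q'.1 * k + q'.2 + m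
        omega
      intro g hg
      have h3 := h1 g hg
      rw [← Function.iterate_add_apply, ← h2] at h3
      exact h3
    · obtain ⟨n', ⟨-, hn'⟩, rfl⟩ := hq
      have h2 : n = n' := by
        rw [hk]
        change 0 * k + n' = n'
        omega
      rw [h2]
      exact hn'

/-- The finitely many coefficients of finitely many polynomials. -/
theorem coefs_finite {σ : Type*} (T : Set (MvPolynomial σ ℂ)) (hT : T.Finite) :
    ∃ s : Finset ℂ, ∀ (p : ℕ) [Fact p.Prime] (τ : ℂ →+* PadicAlgCl p), (∀ y ∈ s, ‖τ y‖ ≤ 1) →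
      ∀ q ∈ T, ∀ κ, q.coeff κ ∈ Oi τ := by
  classical
  refine ⟨hT.toFinset.biUnion fun q => q.support.image fun κ => q.coeff κ, ?_⟩
  intro p _ τ hτ q hq κ
  by_cases hκ : κ ∈ q.support
  · exact hτ _ (Finset.mem_biUnion.2 ⟨q, hT.mem_toFinset.2 hq, Finset.mem_image.2 ⟨κ, hκ, rfl⟩⟩)
  · rw [notMem_support_iff.1 hκ]
    exact (Oi τ).zero_mem

/-- The hypersurface `J = 0` is strictly preperiodic for `G` and does not meet its images: there
are hypersurfaces `P_i = 0`, finitely many in number, `P_0 = J`, such that `G` maps `P_i = 0` to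
`P_(i + 1) = 0`, and `P_i = 0` does not meet `J = 0` for `i ≥ 1`. -/
def Escaping {M : ℕ} (G : Fin M → MvPolynomial (Fin M) ℂ) (J : MvPolynomial (Fin M) ℂ) : Prop :=
  ∃ P : ℕ → MvPolynomial (Fin M) ℂ, P 0 = J ∧ (Set.range P).Finite ∧
    (∀ i, P i ∣ bind₁ G (P (i + 1))) ∧ ∀ i, 1 ≤ i → IsCoprime (P i) J

theorem eval_bind {M : ℕ} (G : Fin M → MvPolynomial (Fin M) ℂ) (q : MvPolynomial (Fin M) ℂ)
    (x : Fin M → ℂ) : eval x (bind₁ G q) = eval (pt G x) q := by
  have h := eval₂Hom_bind₁ (RingHom.id ℂ) x G q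
  exact h

/-- The finitely many numbers whose integrality is used. -/
theorem Escaping.exists_data {M : ℕ} {G : Fin M → MvPolynomial (Fin M) ℂ}
    {J : MvPolynomial (Fin M) ℂ} (h : Escaping G J) :
    ∃ s : Finset ℂ, ∀ (p : ℕ) [Fact p.Prime] (τ : ℂ →+* PadicAlgCl p), (∀ y ∈ s, ‖τ y‖ ≤ 1) →
      ∀ x : ℕ → Fin M → ℂ, (∀ n, x (n + 1) = pt G (x n)) → (∀ n i, ‖τ (x n i)‖ ≤ 1) →
        {n : ℕ | ‖τ (eval (x n) J)‖ ≠ 1}.Finite := by
  classical
  obtain ⟨P, hP0, hPfin, hdvd, hcop⟩ := h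
  let quot : MvPolynomial (Fin M) ℂ → MvPolynomial (Fin M) ℂ → MvPolynomial (Fin M) ℂ :=
    fun q q' => if h : q ∣ bind₁ G q' then h.choose else 0
  have hquot : ∀ i, bind₁ G (P (i + 1)) = P i * quot (P i) (P (i + 1)) := by
    intro i
    simp only [quot, dif_pos (hdvd i)]
    exact (hdvd i).choose_spec
  let A : MvPolynomial (Fin M) ℂ → MvPolynomial (Fin M) ℂ :=
    fun q => if h : IsCoprime q J then h.choose else 0
  let B : MvPolynomial (Fin M) ℂ → MvPolynomial (Fin M) ℂ :=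
    fun q => if h : IsCoprime q J then h.choose_spec.choose else 0
  have hAB : ∀ i, 1 ≤ i → A (P i) * P i + B (P i) * J = 1 := by
    intro i hi
    simp only [A, B, dif_pos (hcop i hi)]
    exact (hcop i hi).choose_spec.choose_spec
  let T : Set (MvPolynomial (Fin M) ℂ) := Set.range P ∪ Set.image2 quot (Set.range P) (Set.range P) ∪
    A '' Set.range P ∪ B '' Set.range P
  have hT : T.Finite := ((hPfin.union (hPfin.image2 _ hPfin)).union (hPfin.image _)).union
    (hPfin.image _)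
  obtain ⟨s, hs⟩ := coefs_finite T hT
  refine ⟨s, fun p _ τ hτ x hx hint => ?_⟩
  have hmem := hs p τ hτ
  have hev : ∀ q ∈ T, ∀ n, eval (x n) q ∈ Oi τ := fun q hq n =>
    eval_mem_subring (Oi τ) (x n) (hint n) q (hmem q hq)
  have hPT : ∀ i, P i ∈ T := fun i => Or.inl (Or.inl (Or.inl ⟨i, rfl⟩))
  have hQT : ∀ i, quot (P i) (P (i + 1)) ∈ T := fun i =>
    Or.inl (Or.inl (Or.inr ⟨P i, ⟨i, rfl⟩, P (i + 1), ⟨i + 1, rfl⟩, rfl⟩))
  have hAT : ∀ i, A (P i) ∈ T := fun i => Or.inl (Or.inr ⟨P i, ⟨i, rfl⟩, rfl⟩)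
  have hBT : ∀ i, B (P i) ∈ T := fun i => Or.inr ⟨P i, ⟨i, rfl⟩, rfl⟩
  have hchain : ∀ n, ‖τ (eval (x n) J)‖ < 1 → ∀ i, ‖τ (eval (x (n + i)) (P i))‖ < 1 := by
    intro n hn i
    induction i with
    | zero => rwa [hP0]
    | succ i ih =>
      rw [← add_assoc, hx, ← eval_bind, hquot i, map_mul, map_mul, norm_mul]
      calc ‖τ (eval (x (n + i)) (P i))‖ * ‖τ (eval (x (n + i)) (quot (P i) (P (i + 1))))‖
          ≤ ‖τ (eval (x (n + i)) (P i))‖ * 1 :=
            mul_le_mul_of_nonneg_left (hev _ (hQT i) (n + i)) (norm_nonneg _)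
        _ < 1 := by rwa [mul_one]
  have main : ∀ n m : ℕ, n < m → ‖τ (eval (x n) J)‖ < 1 → ‖τ (eval (x m) J)‖ < 1 → False := by
    intro n m hnm h1 h2
    obtain ⟨i, rfl⟩ := Nat.exists_eq_add_of_lt hnm
    have h3 := hchain n h1 (i + 1)
    have h4 := congrArg (fun q => τ (eval (x (n + i + 1)) q)) (hAB (i + 1) (by omega))
    simp only [map_add, map_mul, map_one] at h4
    have h5 : ‖τ (eval (x (n + i + 1)) (A (P (i + 1)))) *
        τ (eval (x (n + i + 1)) (P (i + 1)))‖ < 1 := by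
      rw [norm_mul]
      calc _ ≤ 1 * ‖τ (eval (x (n + i + 1)) (P (i + 1)))‖ :=
            mul_le_mul_of_nonneg_right (hev _ (hAT (i + 1)) (n + i + 1)) (norm_nonneg _)
        _ < 1 := by rw [one_mul]; exact h3
    have h6 : ‖τ (eval (x (n + i + 1)) (B (P (i + 1)))) * τ (eval (x (n + i + 1)) J)‖ < 1 := by
      rw [norm_mul]
      calc _ ≤ 1 * ‖τ (eval (x (n + i + 1)) J)‖ :=
            mul_le_mul_of_nonneg_right (hev _ (hBT (i + 1)) (n + i + 1)) (norm_nonneg _)
        _ < 1 := by rw [one_mul]; exact h2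
    have h7 := IsUltrametricDist.norm_add_le_max
      (τ (eval (x (n + i + 1)) (A (P (i + 1)))) * τ (eval (x (n + i + 1)) (P (i + 1))))
      (τ (eval (x (n + i + 1)) (B (P (i + 1)))) * τ (eval (x (n + i + 1)) J))
    rw [h4, NormOneClass.norm_one] at h7
    exact absurd h7 (not_le.2 (max_lt h5 h6))
  refine Set.Subsingleton.finite fun n hn m hm => ?_
  have hJ : ∀ n, ‖τ (eval (x n) J)‖ ≤ 1 := fun n => by
    have := hev _ (hPT 0) n
    rwa [hP0] at this
  have hn' := lt_of_le_of_ne (hJ n) hn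
  have hm' := lt_of_le_of_ne (hJ m) hm
  rcases lt_trichotomy n m with h | h | h
  · exact (main n m h hn' hm').elim
  · exact h
  · exact (main m n h hm' hn').elim

end Pool.Agent.Q118.SK
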