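import Pool.Agent.Q118.SK.Core
import Pool.Agent.Y199.DM.NfT

/-!
Skew endomorphisms over a rational function of the projective line (helper file).
-/

set_option autoImplicit false

namespace Pool.Agent.Q118.SK

open MvPolynomial Pool.Agent.H936R2 Pool.Agent.Y199.DM

theorem hv_mem {R : Type*} [CommRing R] (K : Subring R) (d : ℕ) (q : Polynomial R) (u w : R)
    (hq : ∀ k, q.coeff k ∈ K) (hu : u ∈ K) (hw : w ∈ K) : hv d q u w ∈ K := by
  refine K.sum_mem fun k _ => K.mul_mem (K.mul_mem (hq k) (K.pow_mem hu _)) (K.pow_mem hw _)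

theorem bs_mem {R : Type*} [CommRing R] (K : Subring R) (d : ℕ) (b a : Polynomial R)
    (hb : ∀ k, b.coeff k ∈ K) (ha : ∀ k, a.coeff k ∈ K) (v : R × R) (h1 : v.1 ∈ K) (h2 : v.2 ∈ K)
    (n : ℕ) : ((bs d b a)^[n] v).1 ∈ K ∧ ((bs d b a)^[n] v).2 ∈ K := by
  induction n with
  | zero => exact ⟨h1, h2⟩
  | succ n ih =>
    rw [Function.iterate_succ_apply']
    exact ⟨hv_mem K d b _ _ hb ih.1 ih.2, hv_mem K d a _ _ ha ih.1 ih.2⟩

/-- Three algebraic numbers which reach the fixed point zero. -/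
theorem three_alg {d : ℕ} (hd : 2 ≤ d) (b a : Polynomial ℂ) (hb : b.natDegree ≤ d)
    (ha : a.natDegree ≤ d) (hba : ∀ k, IsAlgebraic ℚ (b.coeff k))
    (haa : ∀ k, IsAlgebraic ℚ (a.coeff k)) (hcop : IsCoprime a b)
    (hlead : a.coeff d ≠ 0 ∨ b.coeff d ≠ 0) (hb0 : b.coeff 0 = 0) (hb1 : b.coeff 1 ≠ 0) :
    ∃ (γ : Fin 3 → ℂ) (e : Fin 3 → ℕ), Function.Injective γ ∧ (∀ i, IsAlgebraic ℚ (γ i)) ∧
      ∀ i, ((bs d b a)^[e i] (γ i, 1)).1 = 0 := by
  let k := algebraicClosure ℚ ℂ
  have : IsAlgClosed k := (algebraicClosure.isAlgClosure ℚ ℂ).isAlgClosed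
  have lift : ∀ q : Polynomial ℂ, (∀ i, IsAlgebraic ℚ (q.coeff i)) →
      ∃ Q : Polynomial k, Q.map (algebraMap k ℂ) = q := by
    intro q hq
    have h : q ∈ Polynomial.lifts (algebraMap k ℂ) := by
      rw [Polynomial.lifts_iff_coeff_lifts]
      intro i
      exact ⟨⟨q.coeff i, mem_algebraicClosure_iff.2 (hq i)⟩, rfl⟩
    exact (Polynomial.mem_lifts _).1 h
  obtain ⟨B, rfl⟩ := lift b hba
  obtain ⟨A, rfl⟩ := lift a haa
  have hinj : Function.Injective (algebraMap k ℂ) := (algebraMap k ℂ).injective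
  rw [Polynomial.natDegree_map] at hb ha
  rw [Polynomial.isCoprime_map] at hcop
  rw [Polynomial.coeff_map, Polynomial.coeff_map, Ne, map_eq_zero, Ne, map_eq_zero] at hlead
  rw [Polynomial.coeff_map, map_eq_zero] at hb0
  rw [Polynomial.coeff_map, Ne, map_eq_zero] at hb1
  obtain ⟨γ, e, h1, h2⟩ := exists_three hd hb ha hcop hlead hb0 hb1
  refine ⟨fun i => algebraMap k ℂ (γ i), e, fun i j hij => h1 (hinj hij), fun i => ?_, fun i => ?_⟩
  · exact mem_algebraicClosure_iff.1 (γ i).2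
  · have h3 := bs_iter_map (algebraMap k ℂ) d B A (γ i, 1) (e i)
    rw [map_one] at h3
    rw [h3]
    change algebraMap k ℂ ((bs d B A)^[e i] (γ i, 1)).1 = 0
    rw [h2 i, map_zero]

theorem endo {N d : ℕ} (hd : 1 ≤ d) (b a : Polynomial ℂ) (hb : b.natDegree ≤ d)
    (ha : a.natDegree ≤ d) (hcop : IsCoprime a b) (hlead : a.coeff d ≠ 0 ∨ b.coeff d ≠ 0)
    (g : Fin N → Polynomial ℂ) (hgd : ∀ j, (g j).natDegree = d)
    (S : Fin N → MvPolynomial (Fin (N + 2)) ℂ) (x : Fin (N + 2) → ℂ)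
    (hx : ∀ i, eval x (sys d b a g S i) = 0) : x = 0 := by
  have h0 : (x 0, x 1) = 0 := by
    by_contra h
    apply bs_ne_zero hb ha hcop hlead h
    refine Prod.ext ?_ ?_
    · have := hx 0
      rw [sys_zero, eval_hp] at this
      exact this
    · have := hx 1
      rw [sys_one, eval_hp] at this
      exact this
  have h00 : x 0 = 0 := congrArg Prod.fst h0
  have h01 : x 1 = 0 := congrArg Prod.snd h0
  funext i
  refine Fin.cases h00 (fun i => ?_) i
  refine Fin.cases h01 (fun j => ?_) i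
  have h1 := hx j.succ.succ
  rw [sys_succ, map_add, eval_hp, map_mul, eval_X, h00, zero_mul, add_zero, h01,
    hv_zero_right] at h1
  have h2 : (g j).coeff d ≠ 0 := by
    have h3 : g j ≠ 0 := by
      intro h
      have := hgd j
      rw [h, Polynomial.natDegree_zero] at this
      omega
    have h4 := Polynomial.leadingCoeff_ne_zero.2 h3
    rwa [Polynomial.leadingCoeff, hgd j] at h4
  exact pow_eq_zero_iff (by omega) |>.1 ((mul_eq_zero.1 h1).resolve_left h2)

theorem main {N d : ℕ} (hd : 2 ≤ d) (b a : Polynomial ℂ) (hb : b.natDegree ≤ d)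
    (ha : a.natDegree ≤ d) (hba : ∀ k, IsAlgebraic ℚ (b.coeff k))
    (haa : ∀ k, IsAlgebraic ℚ (a.coeff k)) (hcop : IsCoprime a b)
    (hlead : a.coeff d ≠ 0 ∨ b.coeff d ≠ 0) (hb0 : b.coeff 0 = 0) (ha0 : a.coeff 0 = 1)
    (hb1 : b.coeff 1 ≠ 0) (g : Fin N → Polynomial ℂ) (hgd : ∀ j, (g j).natDegree = d)
    (hpc : ∀ j, StrictlyPreperiodic (g j)) (S : Fin N → MvPolynomial (Fin (N + 2)) ℂ)
    (α : Fin (N + 2) → ℂ) (hα : α 0 ≠ 0 ∨ α 1 ≠ 0) (h0 : IsAlgebraic ℚ (α 0))
    (h1 : IsAlgebraic ℚ (α 1))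
    (horb : (∃ n, (pt (sys d b a g S))^[n] α 0 = 0) ∨ ∀ m n, m < n →
      (pt (sys d b a g S))^[m] α 0 * (pt (sys d b a g S))^[n] α 1 ≠
        (pt (sys d b a g S))^[n] α 0 * (pt (sys d b a g S))^[m] α 1) :
    DMLAt (sys d b a g S) α := by
  classical
  obtain ⟨e, rfl⟩ : ∃ e, d = e + 1 := ⟨d - 1, by omega⟩
  have hg0 : ∀ j, Polynomial.derivative (g j) ≠ 0 := by
    intro j h
    have h2 := Polynomial.derivative_eq_zero.1 h
    rw [hgd j] at h2
    omega
  obtain ⟨sc, hsc⟩ := core (e := e) b a hb0 ha0 hb1 g (fun j => (hgd j).le) hg0 hpc S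
  obtain ⟨γ, ex, hγ, hγalg, hγ0⟩ := three_alg hd b a hb ha hba haa hcop hlead hb0 hb1
  obtain ⟨r, t, hrt⟩ := hcop
  let cf : Polynomial ℂ → Finset ℂ := fun q => (Finset.range (q.natDegree + 1)).image q.coeff
  have hcf : ∀ (q : Polynomial ℂ) (p : ℕ) [Fact p.Prime] (τ : ℂ →+* PadicAlgCl p),
      (∀ y ∈ cf q, ‖τ y‖ ≤ 1) → ∀ k, ‖τ (q.coeff k)‖ ≤ 1 := by
    intro q p _ τ h k
    by_cases hk : k ≤ q.natDegree
    · exact h _ (Finset.mem_image.2 ⟨k, Finset.mem_range.2 (by omega), rfl⟩)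
    · rw [Polynomial.coeff_eq_zero_of_natDegree_lt (by omega), map_zero, norm_zero]
      exact zero_le_one
  obtain ⟨s, s1, s2, s3, s4, s5, s6, s7, s8⟩ : ∃ s : Finset ℂ, sc ⊆ s ∧ cf b ⊆ s ∧ cf a ⊆ s ∧
      cf r ⊆ s ∧ cf t ⊆ s ∧ Finset.univ.image α ⊆ s ∧ Finset.univ.image γ ⊆ s ∧
      ({(a.coeff (e + 1))⁻¹, (b.coeff (e + 1))⁻¹, (α 0)⁻¹, (α 1)⁻¹} : Finset ℂ) ⊆ s :=
    ⟨sc ∪ (cf b ∪ (cf a ∪ (cf r ∪ (cf t ∪ (Finset.univ.image α ∪ (Finset.univ.image γ ∪
      {(a.coeff (e + 1))⁻¹, (b.coeff (e + 1))⁻¹, (α 0)⁻¹, (α 1)⁻¹})))))),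
      Finset.subset_union_left,
      Finset.subset_union_left.trans Finset.subset_union_right,
      (Finset.subset_union_left.trans Finset.subset_union_right).trans Finset.subset_union_right,
      ((Finset.subset_union_left.trans Finset.subset_union_right).trans
        Finset.subset_union_right).trans Finset.subset_union_right,
      (((Finset.subset_union_left.trans Finset.subset_union_right).trans
        Finset.subset_union_right).trans Finset.subset_union_right).trans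
        Finset.subset_union_right,
      ((((Finset.subset_union_left.trans Finset.subset_union_right).trans
        Finset.subset_union_right).trans Finset.subset_union_right).trans
        Finset.subset_union_right).trans Finset.subset_union_right,
      (((((Finset.subset_union_left.trans Finset.subset_union_right).trans
        Finset.subset_union_right).trans Finset.subset_union_right).trans
        Finset.subset_union_right).trans Finset.subset_union_right).trans
        Finset.subset_union_right,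
      (((((Finset.subset_union_right.trans Finset.subset_union_right).trans
        Finset.subset_union_right).trans Finset.subset_union_right).trans
        Finset.subset_union_right).trans Finset.subset_union_right).trans
        Finset.subset_union_right⟩
  let v : ℂ × ℂ := (α 0, α 1)
  -- the consequences of integrality
  have hall : ∀ (p : ℕ) [Fact p.Prime] (τ : ℂ →+* PadicAlgCl p), (∀ y ∈ s, ‖τ y‖ ≤ 1) →
      (∀ m, ‖τ ((bs (e + 1) b a)^[m] v).1‖ < 1 → DMLAt (sys (e + 1) b a g S) α) ∧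
      ∀ (n : ℕ) (i : Fin 3), ((bs (e + 1) b a)^[n] v).2 ≠ 0 →
        ‖τ (((bs (e + 1) b a)^[n] v).1 / ((bs (e + 1) b a)^[n] v).2 - γ i)‖ < 1 →
        ‖τ ((bs (e + 1) b a)^[n + ex i] v).1‖ < 1 := by
    intro p _ τ hτ
    have m1 : ∀ y ∈ sc, ‖τ y‖ ≤ 1 := fun y hy => hτ y (s1 hy)
    have m2 : ∀ y ∈ cf b, ‖τ y‖ ≤ 1 := fun y hy => hτ y (s2 hy)
    have m3 : ∀ y ∈ cf a, ‖τ y‖ ≤ 1 := fun y hy => hτ y (s3 hy)
    have m4 : ∀ y ∈ cf r, ‖τ y‖ ≤ 1 := fun y hy => hτ y (s4 hy)
    have m5 : ∀ y ∈ cf t, ‖τ y‖ ≤ 1 := fun y hy => hτ y (s5 hy)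
    have m6 : ∀ i, ‖τ (α i)‖ ≤ 1 := fun i =>
      hτ _ (s6 (Finset.mem_image_of_mem α (Finset.mem_univ i)))
    have m7 : ∀ i, ‖τ (γ i)‖ ≤ 1 := fun i =>
      hτ _ (s7 (Finset.mem_image_of_mem γ (Finset.mem_univ i)))
    have m8 : ∀ y ∈ ({(a.coeff (e + 1))⁻¹, (b.coeff (e + 1))⁻¹, (α 0)⁻¹, (α 1)⁻¹} : Finset ℂ),
        ‖τ y‖ ≤ 1 := fun y hy => hτ y (s8 hy)
    have hlead' : ‖τ (a.coeff (e + 1))‖ = 1 ∨ ‖τ (b.coeff (e + 1))‖ = 1 := by
      rcases hlead with h | h
      · exact Or.inl (norm_one τ h (hcf a p τ m3 _) (m8 _ (by simp)))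
      · exact Or.inr (norm_one τ h (hcf b p τ m2 _) (m8 _ (by simp)))
    have hα' : ‖τ v.1‖ = 1 ∨ ‖τ v.2‖ = 1 := by
      rcases hα with h | h
      · exact Or.inl (norm_one τ (y := α 0) h (m6 0) (m8 _ (by simp)))
      · exact Or.inr (norm_one τ (y := α 1) h (m6 1) (m8 _ (by simp)))
    obtain ⟨hbase, hnear⟩ := base_orbit τ hb ha (hcf b p τ m2) (hcf a p τ m3) r t hrt
      (hcf r p τ m4) (hcf t p τ m5) hlead' v (m6 0) (m6 1) hα'
    obtain ⟨hF, hcore⟩ := hsc p τ m1
    refine ⟨fun m hm => ?_, fun n i hw hn => hnear n (γ i) (ex i) hw (m7 i) hn (hγ0 i)⟩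
    have hpt : ∀ n, (pt (sys (e + 1) b a g S))^[n] α 0 = ((bs (e + 1) b a)^[n] v).1 ∧
        (pt (sys (e + 1) b a g S))^[n] α 1 = ((bs (e + 1) b a)^[n] v).2 := by
      intro n
      have := pt_base (e + 1) b a g S α n
      exact ⟨congrArg Prod.fst this, congrArg Prod.snd this⟩
    have hint : ∀ n i, ‖τ ((pt (sys (e + 1) b a g S))^[n] α i)‖ ≤ 1 := by
      intro n
      induction n with
      | zero => exact m6
      | succ n ih =>
        intro i
        rw [Function.iterate_succ_apply']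
        exact eval_mem_subring (Oi τ) _ ih _ (hF i)
    refine dmlAt_of_iterate _ α m (fun n h => ?_) (hcore _ (hint m) ?_ ?_)
    · have h3 := hpt n
      rw [h] at h3
      rcases (hbase n).2.2 with h4 | h4
      · rw [← h3.1, Pi.zero_apply, map_zero, norm_zero] at h4
        exact zero_ne_one h4
      · rw [← h3.2, Pi.zero_apply, map_zero, norm_zero] at h4
        exact zero_ne_one h4
    · rw [(hpt m).1]
      exact hm
    · rw [(hpt m).2]
      exact (hbase m).2.2.resolve_left (ne_of_lt hm)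
  have hpt : ∀ n, (pt (sys (e + 1) b a g S))^[n] α 0 = ((bs (e + 1) b a)^[n] v).1 ∧
      (pt (sys (e + 1) b a g S))^[n] α 1 = ((bs (e + 1) b a)^[n] v).2 := by
    intro n
    have := pt_base (e + 1) b a g S α n
    exact ⟨congrArg Prod.fst this, congrArg Prod.snd this⟩
  rcases horb with ⟨n, hn⟩ | horb
  · -- the orbit meets the fibre
    obtain ⟨D, hD⟩ := emb_zero s
    obtain ⟨p, hpD, hp⟩ := Nat.exists_infinite_primes (D + 1)
    have : Fact p.Prime := ⟨hp⟩
    obtain ⟨τ, hτ, -⟩ := hD p (by omega) 0 Polynomial.X Polynomial.irreducible_X (by simp) (by simp)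
    refine (hall p τ hτ).1 n ?_
    rw [← (hpt n).1, hn, map_zero, norm_zero]
    exact one_pos
  · -- the wandering case
    let E : IntermediateField ℚ ℂ :=
      IntermediateField.adjoin ℚ (((cf b ∪ cf a ∪ {α 0, α 1} : Finset ℂ)) : Set ℂ)
    have hcfalg : ∀ q : Polynomial ℂ, (∀ k, IsAlgebraic ℚ (q.coeff k)) → ∀ y ∈ cf q,
        IsAlgebraic ℚ y := by
      intro q hq y hy
      obtain ⟨k, -, rfl⟩ := Finset.mem_image.1 hy
      exact hq k
    have : FiniteDimensional ℚ E := by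
      refine IntermediateField.finiteDimensional_adjoin fun y hy => ?_
      apply IsAlgebraic.isIntegral
      rw [Finset.mem_coe] at hy
      simp only [Finset.mem_union, Finset.mem_insert, Finset.mem_singleton] at hy
      rcases hy with (hy | hy) | rfl | rfl
      · exact hcfalg b hba y hy
      · exact hcfalg a haa y hy
      · exact h0
      · exact h1
    have hsub : (((cf b ∪ cf a ∪ {α 0, α 1} : Finset ℂ)) : Set ℂ) ⊆ E :=
      IntermediateField.subset_adjoin ℚ _
    have hcoefE : ∀ q : Polynomial ℂ, cf q ⊆ (cf b ∪ cf a ∪ {α 0, α 1} : Finset ℂ) →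
        ∀ k, q.coeff k ∈ E := by
      intro q hq k
      by_cases hk : k ≤ q.natDegree
      · exact hsub (Finset.mem_coe.2
          (hq (Finset.mem_image.2 ⟨k, Finset.mem_range.2 (by omega), rfl⟩)))
      · rw [Polynomial.coeff_eq_zero_of_natDegree_lt (by omega)]
        exact E.zero_mem
    have hbE := hcoefE b (fun y hy => by simp only [Finset.mem_union]; tauto)
    have haE := hcoefE a (fun y hy => by simp only [Finset.mem_union]; tauto)
    have h0E : α 0 ∈ E := hsub (by simp)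
    have h1E : α 1 ∈ E := hsub (by simp)
    have hvE := bs_mem E.toSubfield.toSubring (e + 1) b a hbE haE v h0E h1E
    have hfin := near_line E (fun i => some (γ i)) (fun i j hij => hγ (Option.some.inj hij))
      (fun i z hz => by
        rw [← Option.some.inj hz]
        exact hγalg i) (fun _ => s) (fun _ => AlgEquiv.refl) 1 le_rfl
    -- the orbit is infinite
    have hex : ∃ n, ((bs (e + 1) b a)^[n] v).2 ≠ 0 ∧
        ((bs (e + 1) b a)^[n] v).1 / ((bs (e + 1) b a)^[n] v).2 ∉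
          {t : ℂ | t ∈ E ∧ ∀ i, Avoids 1 ((fun i => some (γ i)) i) t ∨
            ∃ z ∈ (fun i => some (γ i)) i, ¬ Near s ((AlgEquiv.refl : ℂ ≃ₐ[E] ℂ) z) t} := by
      by_contra hcon
      push Not at hcon
      have hdis : ∀ m n, m < n → ((bs (e + 1) b a)^[m] v).1 * ((bs (e + 1) b a)^[n] v).2 ≠
          ((bs (e + 1) b a)^[n] v).1 * ((bs (e + 1) b a)^[m] v).2 := by
        intro m n hmn
        have := horb m n hmn
        rwa [(hpt m).1, (hpt n).2, (hpt n).1, (hpt m).2] at this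
      have hf1 : {n : ℕ | ((bs (e + 1) b a)^[n] v).2 ≠ 0}.Finite := by
        refine Set.Finite.of_finite_image (f := fun n =>
          ((bs (e + 1) b a)^[n] v).1 / ((bs (e + 1) b a)^[n] v).2) (hfin.subset ?_) ?_
        · rintro _ ⟨n, hn, rfl⟩
          exact hcon n hn
        · intro m hm n hn hmn
          rw [Set.mem_ofPred_eq] at hm hn
          have h3 := (div_eq_div_iff hm hn).1 hmn
          rcases lt_trichotomy m n with h | h | h
          · exact absurd h3 (hdis m n h)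
          · exact h
          · exact absurd h3.symm (hdis n m h)
      have hf2 : {n : ℕ | ((bs (e + 1) b a)^[n] v).2 = 0}.Finite := by
        refine Set.Subsingleton.finite fun m hm n hn => ?_
        rw [Set.mem_ofPred_eq] at hm hn
        rcases lt_trichotomy m n with h | h | h
        · exact absurd (by rw [hn, hm, mul_zero, mul_zero]) (hdis m n h)
        · exact h
        · exact absurd (by rw [hn, hm, mul_zero, mul_zero]) (hdis n m h)
      refine Set.infinite_univ (α := ℕ) ((hf1.union hf2).subset fun n _ => ?_)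
      by_cases h : ((bs (e + 1) b a)^[n] v).2 = 0
      · exact Or.inr h
      · exact Or.inl h
    obtain ⟨n, hn, hnot⟩ := hex
    have htE : ((bs (e + 1) b a)^[n] v).1 / ((bs (e + 1) b a)^[n] v).2 ∈ E :=
      E.div_mem (hvE n).1 (hvE n).2
    have h3 : ∃ i, Near s (γ i)
        (((bs (e + 1) b a)^[n] v).1 / ((bs (e + 1) b a)^[n] v).2) := by
      by_contra hcon
      push Not at hcon
      exact hnot ⟨htE, fun i => Or.inr ⟨γ i, rfl, hcon i⟩⟩
    obtain ⟨i, p, hp, τ, hτ, hτt⟩ := h3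
    exact (hall p τ hτ).1 _ ((hall p τ hτ).2 n i hn hτt)

end Pool.Agent.Q118.SK
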