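import Pool.Agent.Q118.SK.Transc
import Pool.Agent.Q118.SK.Main

/-!
All wandering complex points of the base come near to the fixed point at suitable places
(helper file).
-/

set_option autoImplicit false

namespace Pool.Agent.Q118.SK

open Polynomial Pool.Agent.H936R2 Pool.Agent.Y199.DM

section field

variable {k : Type*} [Field k] [IsAlgClosed k] {d : ℕ} (hd : 2 ≤ d) {b a : k[X]}
  (hb : b.natDegree ≤ d) (ha : a.natDegree ≤ d) (hcop : IsCoprime a b)
  (hlead : a.coeff d ≠ 0 ∨ b.coeff d ≠ 0) (hb0 : b.coeff 0 = 0) (hb1 : b.coeff 1 ≠ 0)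

include hd hb ha hcop hlead hb0 hb1 in
/-- Infinitely many points reach the fixed point. -/
theorem inf_points : {γ : k | ∃ e, ((bs d b a)^[e] (γ, 1)).1 = 0}.Infinite := by
  have h1 : ∃ v, At d b a 1 v := by
    obtain ⟨v, hv0, hv1⟩ := exists_root (d := d - 1) (by omega) b.divX (by
      rw [natDegree_divX_eq_natDegree_tsub_one]
      omega)
    have hne : v.1 ≠ 0 := by
      intro h
      have hw : v.2 ≠ 0 := fun hw => hv0 (Prod.ext h hw)
      rw [h, hv_zero_left, coeff_divX] at hv1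
      exact mul_ne_zero hb1 (pow_ne_zero _ hw) hv1
    refine ⟨v, hv0, ?_, fun j hj => ?_⟩
    · change hv d b v.1 v.2 = 0
      rw [hv_divX d (by omega) b hb0, hv1, mul_zero]
    · have : j = 0 := by omega
      subst this
      exact hne
  have hall : ∀ i : ℕ, ∃ v, At d b a (i + 1) v := by
    intro i
    induction i with
    | zero => exact h1
    | succ i ih =>
      obtain ⟨v, hv⟩ := ih
      exact hv.step hd hb ha hcop hlead hb0 (by omega)
  choose v hv using hall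
  obtain ⟨j0, hj0⟩ : ∃ j0, ∀ j, j0 ≤ j → (v j).2 ≠ 0 := by
    by_cases h : ∃ i, (v i).2 = 0
    · obtain ⟨i, hi⟩ := h
      refine ⟨i + 1, fun j hj hj2 => ?_⟩
      apply (hv i).ne (by omega : i + 1 ≠ j + 1) (hv j)
      rw [hi, hj2, mul_zero, zero_mul]
    · push Not at h
      exact ⟨0, fun j _ => h j⟩
  have norm : ∀ j, j0 ≤ j → At d b a (j + 1) ((v j).1 / (v j).2, 1) := by
    intro j hj
    have hw := hj0 j hj
    have h4 := (hv j).smul ((v j).2⁻¹) (inv_ne_zero hw)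
    have h5 : (v j).2⁻¹ • (v j) = ((v j).1 / (v j).2, 1) := by
      refine Prod.ext ?_ ?_
      · rw [Prod.smul_fst, smul_eq_mul, div_eq_inv_mul]
      · rw [Prod.smul_snd, smul_eq_mul, inv_mul_cancel₀ hw]
    rwa [h5] at h4
  refine Set.infinite_of_injective_forall_mem (f := fun n : ℕ => (v (j0 + n)).1 / (v (j0 + n)).2)
    ?_ fun n => ⟨_, (norm (j0 + n) (by omega)).2.1⟩
  intro m n hmn
  have h2 := norm (j0 + m) (by omega)
  have h3 := norm (j0 + n) (by omega)
  simp only at hmn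
  rw [hmn] at h2
  have := h2.unique h3
  omega

end field

/-- For every finite set of numbers there is a place at which they are integral and at which the
orbit of `v` comes near to the fixed point. -/
def Reach (d : ℕ) (b a : ℂ[X]) (v : ℂ × ℂ) : Prop :=
  ∀ s : Finset ℂ, ∃ (p : ℕ) (_ : Fact p.Prime) (τ : ℂ →+* PadicAlgCl p),
    (∀ y ∈ s, ‖τ y‖ ≤ 1) ∧ ∃ n, ‖τ ((bs d b a)^[n] v).1‖ < 1

theorem reach_hit {d : ℕ} (b a : ℂ[X]) (v : ℂ × ℂ) (h : ∃ n, ((bs d b a)^[n] v).1 = 0) :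
    Reach d b a v := by
  intro s
  obtain ⟨n, hn⟩ := h
  obtain ⟨D, hD⟩ := emb_zero s
  obtain ⟨p, hpD, hp⟩ := Nat.exists_infinite_primes (D + 1)
  have : Fact p.Prime := ⟨hp⟩
  obtain ⟨τ, hτ, -⟩ := hD p (by omega) 0 Polynomial.X Polynomial.irreducible_X (by simp) (by simp)
  refine ⟨p, this, τ, hτ, n, ?_⟩
  rw [hn, map_zero, norm_zero]
  exact one_pos

/-- The numbers attached to polynomials. -/
theorem coefs_poly (T : Finset ℂ[X]) : ∃ s : Finset ℂ, ∀ (p : ℕ) [Fact p.Prime]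
    (τ : ℂ →+* PadicAlgCl p), (∀ y ∈ s, ‖τ y‖ ≤ 1) → ∀ q ∈ T, ∀ k, ‖τ (q.coeff k)‖ ≤ 1 := by
  classical
  refine ⟨T.biUnion fun q => (Finset.range (q.natDegree + 1)).image q.coeff, ?_⟩
  intro p _ τ h q hq k
  by_cases hk : k ≤ q.natDegree
  · exact h _ (Finset.mem_biUnion.2 ⟨q, hq, Finset.mem_image.2
      ⟨k, Finset.mem_range.2 (by omega), rfl⟩⟩)
  · rw [Polynomial.coeff_eq_zero_of_natDegree_lt (by omega), map_zero, norm_zero]
    exact zero_le_one

theorem reach_smul {d : ℕ} {b a : ℂ[X]} {v : ℂ × ℂ} (h : Reach d b a v) (c : ℂ) :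
    Reach d b a (c • v) := by
  classical
  intro s
  obtain ⟨p, hp, τ, hτ, n, hn⟩ := h (s ∪ {c})
  refine ⟨p, hp, τ, fun y hy => hτ y (Finset.mem_union_left _ hy), n, ?_⟩
  have hc : ‖τ c‖ ≤ 1 := hτ c (by simp)
  have h1 : ∀ m, ∃ e, (bs d b a)^[m] (c • v) = c ^ e • (bs d b a)^[m] v := by
    intro m
    induction m with
    | zero => exact ⟨1, by simp⟩
    | succ m ih =>
      obtain ⟨e, he⟩ := ih
      refine ⟨e * d, ?_⟩
      rw [Function.iterate_succ_apply', he, bs_smul, Function.iterate_succ_apply', ← pow_mul]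
  obtain ⟨e, he⟩ := h1 n
  rw [he, Prod.smul_fst, smul_eq_mul, map_mul, norm_mul, map_pow, norm_pow]
  calc ‖τ c‖ ^ e * ‖τ ((bs d b a)^[n] v).1‖ ≤ 1 * ‖τ ((bs d b a)^[n] v).1‖ :=
        mul_le_mul_of_nonneg_right (pow_le_one₀ (norm_nonneg _) hc) (norm_nonneg _)
    _ < 1 := by rw [one_mul]; exact hn

section

variable {d : ℕ} (hd : 2 ≤ d) {b a : ℂ[X]} (hb : b.natDegree ≤ d) (ha : a.natDegree ≤ d)
  (hcop : IsCoprime a b) (hlead : a.coeff d ≠ 0 ∨ b.coeff d ≠ 0) (hb0 : b.coeff 0 = 0)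
  (hb1 : b.coeff 1 ≠ 0)

include hb ha hcop hlead in
/-- The numbers whose integrality gives the nearness of the later orbit. -/
theorem near_data (v : ℂ × ℂ) (hv0 : v ≠ 0) : ∃ s : Finset ℂ, ∀ (p : ℕ) [Fact p.Prime]
    (τ : ℂ →+* PadicAlgCl p), (∀ y ∈ s, ‖τ y‖ ≤ 1) → ∀ (n : ℕ) (γ : ℂ) (e : ℕ),
      ((bs d b a)^[n] v).2 ≠ 0 → ‖τ γ‖ ≤ 1 →
      ‖τ (((bs d b a)^[n] v).1 / ((bs d b a)^[n] v).2 - γ)‖ < 1 →
      ((bs d b a)^[e] (γ, 1)).1 = 0 → ‖τ ((bs d b a)^[n + e] v).1‖ < 1 := by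
  classical
  obtain ⟨r, t, hrt⟩ := hcop
  obtain ⟨s0, hs0⟩ := coefs_poly {b, a, r, t}
  refine ⟨s0 ∪ {v.1, v.2, v.1⁻¹, v.2⁻¹, (a.coeff d)⁻¹, (b.coeff d)⁻¹}, fun p _ τ hτ => ?_⟩
  have h0 := hs0 p τ fun y hy => hτ y (Finset.mem_union_left _ hy)
  have h1 : ∀ y ∈ ({v.1, v.2, v.1⁻¹, v.2⁻¹, (a.coeff d)⁻¹, (b.coeff d)⁻¹} : Finset ℂ), ‖τ y‖ ≤ 1 :=
    fun y hy => hτ y (Finset.mem_union_right _ hy)
  have hB := h0 b (by simp)
  have hA := h0 a (by simp)
  have hlead' : ‖τ (a.coeff d)‖ = 1 ∨ ‖τ (b.coeff d)‖ = 1 := by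
    rcases hlead with h | h
    · exact Or.inl (norm_one τ h (hA _) (h1 _ (by simp)))
    · exact Or.inr (norm_one τ h (hB _) (h1 _ (by simp)))
  have hv' : ‖τ v.1‖ = 1 ∨ ‖τ v.2‖ = 1 := by
    by_cases h : v.1 = 0
    · have h2 : v.2 ≠ 0 := fun h2 => hv0 (Prod.ext h h2)
      exact Or.inr (norm_one τ h2 (h1 _ (by simp)) (h1 _ (by simp)))
    · exact Or.inl (norm_one τ h (h1 _ (by simp)) (h1 _ (by simp)))
  exact (base_orbit τ hb ha hB hA r t hrt (h0 r (by simp)) (h0 t (by simp)) hlead' v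
    (h1 _ (by simp)) (h1 _ (by simp)) hv').2

include hd hb ha hcop hlead hb0 hb1 in
/-- Points which are transcendental over an algebraically closed field of definition. -/
theorem reach_transc (K : IntermediateField ℚ ℂ) [IsAlgClosed K] (hbK : ∀ k, b.coeff k ∈ K)
    (haK : ∀ k, a.coeff k ∈ K) (t : ℂ) (ht : Transcendental K t) : Reach d b a (t, 1) := by
  classical
  intro s
  obtain ⟨s1, hs1⟩ := near_data hb ha hcop hlead (t, 1)
    (fun h => one_ne_zero (congrArg Prod.snd h))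
  -- the infinite set of preimages
  have lift : ∀ q : ℂ[X], (∀ i, q.coeff i ∈ K) → ∃ Q : K[X], Q.map (algebraMap K ℂ) = q := by
    intro q hq
    have h : q ∈ Polynomial.lifts (algebraMap K ℂ) := by
      rw [Polynomial.lifts_iff_coeff_lifts]
      intro i
      exact ⟨⟨q.coeff i, hq i⟩, rfl⟩
    exact (Polynomial.mem_lifts _).1 h
  obtain ⟨B, hB⟩ := lift b hbK
  obtain ⟨A, hA⟩ := lift a haK
  have hinj : Function.Injective (algebraMap K ℂ) := (algebraMap K ℂ).injective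
  have hinf : {γ : K | ∃ e, ((bs d B A)^[e] (γ, 1)).1 = 0}.Infinite := by
    rw [← hB, Polynomial.natDegree_map] at hb
    rw [← hA, Polynomial.natDegree_map] at ha
    rw [← hA, ← hB, Polynomial.isCoprime_map] at hcop
    rw [← hA, ← hB, Polynomial.coeff_map, Polynomial.coeff_map, Ne, map_eq_zero, Ne,
      map_eq_zero] at hlead
    rw [← hB, Polynomial.coeff_map, map_eq_zero] at hb0
    rw [← hB, Polynomial.coeff_map, Ne, map_eq_zero] at hb1
    exact inf_points hd hb ha hcop hlead hb0 hb1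
  obtain ⟨γ, ⟨e, he⟩, p, hp, τ, hτ, hγ, hlt⟩ := near_transc K t ht (s ∪ s1) _ hinf
  refine ⟨p, hp, τ, fun y hy => hτ y (Finset.mem_union_left _ hy), 0 + e, ?_⟩
  refine hs1 p τ (fun y hy => hτ y (Finset.mem_union_right _ hy)) 0 (γ : ℂ) e ?_ hγ ?_ ?_
  · exact one_ne_zero
  · change ‖τ (t / 1 - (γ : ℂ))‖ < 1
    rw [div_one]
    exact hlt
  · have h3 := bs_iter_map (algebraMap K ℂ) d B A (γ, 1) e
    rw [map_one, hB, hA] at h3
    change ((bs d b a)^[e] (algebraMap K ℂ γ, 1)).1 = 0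
    rw [h3]
    change algebraMap K ℂ ((bs d B A)^[e] (γ, 1)).1 = 0
    rw [he, map_zero]

include hd hb ha hcop hlead hb0 hb1 in
/-- Algebraic wandering points. -/
theorem reach_alg (hba : ∀ k, IsAlgebraic ℚ (b.coeff k)) (haa : ∀ k, IsAlgebraic ℚ (a.coeff k))
    (v : ℂ × ℂ) (hv0 : v ≠ 0) (h0 : IsAlgebraic ℚ v.1) (h1 : IsAlgebraic ℚ v.2)
    (hdis : ∀ m n, m < n → ((bs d b a)^[m] v).1 * ((bs d b a)^[n] v).2 ≠
          ((bs d b a)^[n] v).1 * ((bs d b a)^[m] v).2) : Reach d b a v := by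
  classical
  intro s0
  obtain ⟨γ, ex, hγ, hγalg, hγ0⟩ := three_alg hd b a hb ha hba haa hcop hlead hb0 hb1
  obtain ⟨s1, hs1⟩ := near_data hb ha hcop hlead v hv0
  set s : Finset ℂ := s0 ∪ s1 ∪ Finset.univ.image γ with hs
  let cf : Polynomial ℂ → Finset ℂ := fun q => (Finset.range (q.natDegree + 1)).image q.coeff
  let E : IntermediateField ℚ ℂ :=
    IntermediateField.adjoin ℚ (((cf b ∪ cf a ∪ {v.1, v.2} : Finset ℂ)) : Set ℂ)
  have hcfalg : ∀ q : Polynomial ℂ, (∀ k, IsAlgebraic ℚ (q.coeff k)) → ∀ y ∈ cf q,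
      IsAlgebraic ℚ y := by
    intro q hq y hy
    obtain ⟨k, -, rfl⟩ := Finset.mem_image.1 hy
    exact hq k
  have : FiniteDimensional ℚ E := by
    refine IntermediateField.finiteDimensional_adjoin fun y hy => ?_
    apply IsAlgebraic.isIntegral
    rw [Finset.mem_coe] at hy
    simp only [Finset.mem_union, Finset.mem_insert, Finset.mem_singleton] at hy
    rcases hy with (hy | hy) | rfl | rfl
    · exact hcfalg b hba y hy
    · exact hcfalg a haa y hy
    · exact h0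
    · exact h1
  have hsub : (((cf b ∪ cf a ∪ {v.1, v.2} : Finset ℂ)) : Set ℂ) ⊆ E :=
    IntermediateField.subset_adjoin ℚ _
  have hcoefE : ∀ q : Polynomial ℂ, cf q ⊆ (cf b ∪ cf a ∪ {v.1, v.2} : Finset ℂ) →
      ∀ k, q.coeff k ∈ E := by
    intro q hq k
    by_cases hk : k ≤ q.natDegree
    · exact hsub (Finset.mem_coe.2
        (hq (Finset.mem_image.2 ⟨k, Finset.mem_range.2 (by omega), rfl⟩)))
    · rw [Polynomial.coeff_eq_zero_of_natDegree_lt (by omega)]
      exact E.zero_mem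
  have hbE := hcoefE b (fun y hy => by simp only [Finset.mem_union]; tauto)
  have haE := hcoefE a (fun y hy => by simp only [Finset.mem_union]; tauto)
  have h0E : v.1 ∈ E := hsub (by simp)
  have h1E : v.2 ∈ E := hsub (by simp)
  have hvE := bs_mem E.toSubfield.toSubring d b a hbE haE v h0E h1E
  have hfin := near_line E (fun i => some (γ i)) (fun i j hij => hγ (Option.some.inj hij))
    (fun i z hz => by
      rw [← Option.some.inj hz]
      exact hγalg i) (fun _ => s) (fun _ => AlgEquiv.refl) 1 le_rfl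
  -- the orbit is infinite
  have hex : ∃ n, ((bs d b a)^[n] v).2 ≠ 0 ∧
      ((bs d b a)^[n] v).1 / ((bs d b a)^[n] v).2 ∉
        {t : ℂ | t ∈ E ∧ ∀ i, Avoids 1 ((fun i => some (γ i)) i) t ∨
          ∃ z ∈ (fun i => some (γ i)) i, ¬ Near s ((AlgEquiv.refl : ℂ ≃ₐ[E] ℂ) z) t} := by
    by_contra hcon
    push Not at hcon
    have hf1 : {n : ℕ | ((bs d b a)^[n] v).2 ≠ 0}.Finite := by
      refine Set.Finite.of_finite_image (f := fun n =>
        ((bs d b a)^[n] v).1 / ((bs d b a)^[n] v).2) (hfin.subset ?_) ?_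
      · rintro _ ⟨n, hn, rfl⟩
        exact hcon n hn
      · intro m hm n hn hmn
        rw [Set.mem_ofPred_eq] at hm hn
        have h3 := (div_eq_div_iff hm hn).1 hmn
        rcases lt_trichotomy m n with h | h | h
        · exact absurd h3 (hdis m n h)
        · exact h
        · exact absurd h3.symm (hdis n m h)
    have hf2 : {n : ℕ | ((bs d b a)^[n] v).2 = 0}.Finite := by
      refine Set.Subsingleton.finite fun m hm n hn => ?_
      rw [Set.mem_ofPred_eq] at hm hn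
      rcases lt_trichotomy m n with h | h | h
      · exact absurd (by rw [hn, hm, mul_zero, mul_zero]) (hdis m n h)
      · exact h
      · exact absurd (by rw [hn, hm, mul_zero, mul_zero]) (hdis n m h)
    refine Set.infinite_univ (α := ℕ) ((hf1.union hf2).subset fun n _ => ?_)
    by_cases h : ((bs d b a)^[n] v).2 = 0
    · exact Or.inr h
    · exact Or.inl h
  obtain ⟨n, hn, hnot⟩ := hex
  have htE : ((bs d b a)^[n] v).1 / ((bs d b a)^[n] v).2 ∈ E :=
    E.div_mem (hvE n).1 (hvE n).2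
  have h3 : ∃ i, Near s (γ i)
      (((bs d b a)^[n] v).1 / ((bs d b a)^[n] v).2) := by
    by_contra hcon
    push Not at hcon
    exact hnot ⟨htE, fun i => Or.inr ⟨γ i, rfl, hcon i⟩⟩
  obtain ⟨i, p, hp, τ, hτ, hτt⟩ := h3
  refine ⟨p, hp, τ, fun y hy => hτ y ?_, n + ex i, ?_⟩
  · rw [hs]
    exact Finset.mem_union_left _ (Finset.mem_union_left _ hy)
  · refine hs1 p τ (fun y hy => hτ y ?_) n (γ i) (ex i) hn (hτ _ ?_) hτt (hγ0 i)
    · rw [hs]
      exact Finset.mem_union_left _ (Finset.mem_union_right _ hy)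
    · rw [hs]
      exact Finset.mem_union_right _ (Finset.mem_image_of_mem γ (Finset.mem_univ i))

include hd hb ha hcop hlead hb0 hb1 in
/-- All complex points which are wandering, or mapped to the fixed point. -/
theorem reach_all (hba : ∀ k, IsAlgebraic ℚ (b.coeff k)) (haa : ∀ k, IsAlgebraic ℚ (a.coeff k))
    (v : ℂ × ℂ) (hv0 : v ≠ 0)
    (horb : (∃ n, ((bs d b a)^[n] v).1 = 0) ∨
      ∀ m n, m < n → ((bs d b a)^[m] v).1 * ((bs d b a)^[n] v).2 ≠
          ((bs d b a)^[n] v).1 * ((bs d b a)^[m] v).2) : Reach d b a v := by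
  rcases horb with h | hdis
  · exact reach_hit b a v h
  have key : ∀ (c : ℂ) (w : ℂ × ℂ), c ≠ 0 → v = c • w →
      ∀ m n, m < n → ((bs d b a)^[m] w).1 * ((bs d b a)^[n] w).2 ≠
          ((bs d b a)^[n] w).1 * ((bs d b a)^[m] w).2 := by
    intro c w hc hvw m n hmn h
    apply hdis m n hmn
    obtain ⟨c1, -, h1⟩ := iter_smul (d := d) (b := b) (a := a) c hc w m
    obtain ⟨c2, -, h2⟩ := iter_smul (d := d) (b := b) (a := a) c hc w n
    rw [hvw, h1, h2]
    simp only [Prod.smul_fst, Prod.smul_snd, smul_eq_mul]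
    linear_combination (c1 * c2) * h
  by_cases hw : v.2 = 0
  · have h1 : v.1 ≠ 0 := fun h => hv0 (Prod.ext h hw)
    have h2 : v = v.1 • ((1, 0) : ℂ × ℂ) := by
      refine Prod.ext ?_ ?_
      · simp
      · simp [hw]
    rw [h2]
    exact reach_smul (reach_alg hd hb ha hcop hlead hb0 hb1 hba haa (1, 0)
      (fun h => one_ne_zero (congrArg Prod.fst h)) isAlgebraic_one isAlgebraic_zero
      (key v.1 _ h1 h2)) v.1
  · have h2 : v = v.2 • ((v.1 / v.2, 1) : ℂ × ℂ) := by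
      refine Prod.ext ?_ ?_
      · simp [mul_div_cancel₀ _ hw]
      · simp
    rw [h2]
    apply reach_smul
    by_cases halg : IsAlgebraic ℚ (v.1 / v.2)
    · exact reach_alg hd hb ha hcop hlead hb0 hb1 hba haa (v.1 / v.2, 1)
        (fun h => one_ne_zero (congrArg Prod.snd h)) halg isAlgebraic_one (key v.2 _ hw h2)
    · let k := algebraicClosure ℚ ℂ
      have : IsAlgClosed k := (algebraicClosure.isAlgClosure ℚ ℂ).isAlgClosed
      refine reach_transc hd hb ha hcop hlead hb0 hb1 k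
        (fun i => mem_algebraicClosure_iff.2 (hba i)) (fun i => mem_algebraicClosure_iff.2 (haa i))
        _ ?_
      intro h
      have : Algebra.IsAlgebraic ℚ k := (algebraicClosure.isAlgClosure ℚ ℂ).isAlgebraic
      exact halg (h.restrictScalars ℚ)

end

end Pool.Agent.Q118.SK
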