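import Pool.Agent.Q118.SK.AffMain
import Pool.Agent.Q118.SK.Reach

/-!
Polynomial maps of affine spaces over a polynomial of the line, all complex points (helper file).
-/

set_option autoImplicit false

namespace Pool.Agent.Q118.SK

open MvPolynomial Pool.Agent.H936R2 Pool.Agent.Y199.DM

theorem eval_near_mv {p : ℕ} [hp : Fact p.Prime] (τ : ℂ →+* PadicAlgCl p) {σ : Type}
    (q : MvPolynomial σ ℂ) (hq : ∀ κ, ‖τ (q.coeff κ)‖ ≤ 1) (x y : σ → ℂ)
    (hx : ∀ i, ‖τ (x i)‖ ≤ 1) (hy : ∀ i, ‖τ (y i)‖ ≤ 1) (hxy : ∀ i, ‖τ (x i) - τ (y i)‖ < 1) :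
    ‖τ (eval x q) - τ (eval y q)‖ < 1 := by
  have h : q ∈ Set.range (map (σ := σ) (Oi τ).subtype) := by
    rw [mem_range_map_iff_coeffs_subset]
    intro c hc
    rw [Finset.mem_coe, mem_coeffs_iff] at hc
    obtain ⟨κ, -, rfl⟩ := hc
    exact ⟨⟨q.coeff κ, hq κ⟩, rfl⟩
  obtain ⟨Q, rfl⟩ := h
  let u : σ → Oi τ := fun i => ⟨x i, hx i⟩
  let v : σ → Oi τ := fun i => ⟨y i, hy i⟩
  have h1 : ∀ w : σ → Oi τ, eval (fun i => ((w i : Oi τ) : ℂ)) (map (Oi τ).subtype Q) =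
      ((eval w Q : Oi τ) : ℂ) := by
    intro w
    rw [eval_map]
    have h := eval₂_comp_left (Oi τ).subtype (RingHom.id _) w Q
    rw [RingHom.comp_id] at h
    exact h.symm
  have h2 : ∀ w : σ → Oi τ, rh τ (eval w Q) = eval₂ (rh τ) (fun i => rh τ (w i)) Q := by
    intro w
    have h := eval₂_comp_left (rh τ) (RingHom.id _) w Q
    rw [RingHom.comp_id] at h
    exact h
  have h3 : (fun i => rh τ (u i)) = fun i => rh τ (v i) := by
    funext i
    exact (rh_eq τ).2 (hxy i)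
  have h4 : rh τ (eval u Q) = rh τ (eval v Q) := by rw [h2, h2, h3]
  have h5 := (rh_eq τ).1 h4
  rw [← h1, ← h1] at h5
  exact h5

variable {M : ℕ}

/-- The orbit of a point whose reduction meets the fibre `t = 0`. -/
theorem aff_orbit (b : Polynomial ℂ) (hb0 : b.coeff 0 = 0)
    (G : Fin M → MvPolynomial (Fin (M + 1)) ℂ)
    (m : Multiset (MvPolynomial (Fin M) ℂ))
    (hm : ∀ J ∈ m, Escaping (fun i => fib (G i)) J) (x : Fin (M + 1) → ℂ) :
    ∃ s : Finset ℂ, ∀ (p : ℕ) [Fact p.Prime] (τ : ℂ →+* PadicAlgCl p), (∀ y ∈ s, ‖τ y‖ ≤ 1) →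
      (∀ i κ, ‖τ ((asys b G i).coeff κ)‖ ≤ 1) ∧
      ∀ n, ‖τ ((fun z => b.eval z)^[n] (x 0))‖ < 1 →
        ∃ (P : Fin (M + 1) → ℂ) (y : ℕ → Fin M → ℂ) (K : ℕ),
          (∀ k i, ‖τ ((pt (asys b G))^[k] ((pt (asys b G))^[n] x) i)‖ ≤ 1) ∧
          (∀ k i, ‖τ ((pt (asys b G))^[k] P i)‖ ≤ 1) ∧
          (∀ i, ‖τ ((pt (asys b G))^[n] x i) - τ (P i)‖ < 1) ∧
          (∀ k, (pt (asys b G))^[k] P = Fin.cons 0 (y k)) ∧
          ∀ k, K ≤ k → ∀ J ∈ m, ‖τ (eval (y k) J)‖ = 1 := by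
  classical
  choose! sJ hsJ using fun J (hJm : J ∈ m) => (hm J hJm).exists_data
  obtain ⟨sF, hsF⟩ := coefs_finite (Set.range (asys b G)) (Set.finite_range _)
  refine ⟨sF ∪ m.toFinset.biUnion sJ ∪ Finset.univ.image x, fun p _ τ hτ => ?_⟩
  have m3 : ∀ J ∈ m, ∀ y ∈ sJ J, ‖τ y‖ ≤ 1 := fun J hJm y hy =>
    hτ y (Finset.mem_union_left _ (Finset.mem_union_right _
      (Finset.mem_biUnion.2 ⟨J, Multiset.mem_toFinset.2 hJm, hy⟩)))
  have m4 : ∀ i, ‖τ (x i)‖ ≤ 1 := fun i =>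
    hτ _ (Finset.mem_union_right _ (Finset.mem_image_of_mem x (Finset.mem_univ i)))
  have hF : ∀ i κ, ‖τ ((asys b G i).coeff κ)‖ ≤ 1 := fun i κ =>
    hsF p τ (fun y hy => hτ y (Finset.mem_union_left _ (Finset.mem_union_left _ hy))) _ ⟨i, rfl⟩ κ
  refine ⟨hF, fun n hn => ?_⟩
  have hint : ∀ n i, ‖τ ((pt (asys b G))^[n] x i)‖ ≤ 1 := by
    intro n
    induction n with
    | zero => exact m4
    | succ n ih =>
      intro i
      rw [Function.iterate_succ_apply']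
      exact eval_mem_subring (Oi τ) _ ih _ (hF i)
  set u : Fin (M + 1) → ℂ := (pt (asys b G))^[n] x with hu
  have hu0 : ‖τ (u 0)‖ < 1 := by
    rw [hu, asys_base]
    exact hn
  let P : Fin (M + 1) → ℂ := Fin.cons 0 (Fin.tail u)
  have hPint : ∀ i, ‖τ (P i)‖ ≤ 1 := by
    intro i
    refine Fin.cases ?_ (fun i => ?_) i
    · change ‖τ 0‖ ≤ 1
      rw [map_zero, norm_zero]
      exact zero_le_one
    · exact hint n i.succ
  -- the orbit on the fibre
  let y : ℕ → Fin M → ℂ := fun k => Fin.tail ((pt (asys b G))^[k] P)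
  have hb00 : b.eval 0 = 0 := by
    rw [← Polynomial.coeff_zero_eq_eval_zero, hb0]
  have hz0 : ∀ k, (pt (asys b G))^[k] P 0 = 0 := by
    intro k
    induction k with
    | zero => rfl
    | succ k ih => rw [Function.iterate_succ_apply', asys_zero, ih, hb00]
  have hcons : ∀ k, (pt (asys b G))^[k] P = Fin.cons 0 (y k) := by
    intro k
    rw [← hz0 k]
    exact (Fin.cons_self_tail _).symm
  have hystep : ∀ k, y (k + 1) = pt (fun i => fib (G i)) (y k) := by
    intro k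
    funext i
    change (pt (asys b G))^[k + 1] P i.succ = eval (y k) (fib (G i))
    rw [Function.iterate_succ_apply', eval_fib, ← hcons k]
    rfl
  have hPit : ∀ k i, ‖τ ((pt (asys b G))^[k] P i)‖ ≤ 1 := by
    intro k
    induction k with
    | zero => exact hPint
    | succ k ih =>
      intro i
      rw [Function.iterate_succ_apply']
      exact eval_mem_subring (Oi τ) _ ih _ (hF i)
  have hyint : ∀ k i, ‖τ (y k i)‖ ≤ 1 := fun k i => hPit k i.succ
  have hfin : (⋃ J ∈ m.toFinset, {k : ℕ | ‖τ (eval (y k) J)‖ ≠ 1}).Finite := by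
    refine Set.Finite.biUnion (Finset.finite_toSet _) fun J hJm => ?_
    have hJm' := Multiset.mem_toFinset.1 hJm
    exact hsJ J hJm' p τ (m3 J hJm') y hystep hyint
  obtain ⟨K, hK⟩ := hfin.bddAbove
  refine ⟨P, y, K + 1, fun k i => ?_, hPit, fun i => ?_, hcons, fun k hk J hJ => ?_⟩
  · rw [hu, ← Function.iterate_add_apply]
    exact hint _ i
  · refine Fin.cases ?_ (fun i => ?_) i
    · change ‖τ (u 0) - τ 0‖ < 1
      rw [map_zero, sub_zero]
      exact hu0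
    · change ‖τ (u i.succ) - τ (u i.succ)‖ < 1
      rw [sub_self, norm_zero]
      exact one_pos
  · by_contra hcon
    have h1 : k ∈ ⋃ J ∈ m.toFinset, {k : ℕ | ‖τ (eval (y k) J)‖ ≠ 1} := by
      rw [Set.mem_iUnion₂]
      exact ⟨J, Multiset.mem_toFinset.2 hJ, hcon⟩
    have := hK h1
    omega

/-- The value of a product of polynomials with unit values. -/
theorem norm_prod_one {p : ℕ} [hp : Fact p.Prime] (τ : ℂ →+* PadicAlgCl p)
    (m : Multiset (MvPolynomial (Fin M) ℂ)) (y : Fin M → ℂ)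
    (h : ∀ J ∈ m, ‖τ (eval y J)‖ = 1) : ‖τ (eval y m.prod)‖ = 1 := by
  induction m using Multiset.induction_on with
  | empty => simp
  | cons J m ih =>
    rw [Multiset.prod_cons, map_mul, map_mul, norm_mul, h J (Multiset.mem_cons_self J m), one_mul]
    exact ih fun J' hJ' => h J' (Multiset.mem_cons_of_mem hJ')

/-- The dynamical Mordell-Lang property, étale or postcritically escaping fibre. -/
theorem aff_all (b : Polynomial ℂ) (hb0 : b.coeff 0 = 0) (hb1 : b.coeff 1 ≠ 0)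
    (G : Fin M → MvPolynomial (Fin (M + 1)) ℂ) (c : ℂ) (hc : c ≠ 0)
    (m : Multiset (MvPolynomial (Fin M) ℂ)) (hJ : (fibJac G).det = C c * m.prod)
    (hm : ∀ J ∈ m, Escaping (fun i => fib (G i)) J) (x : Fin (M + 1) → ℂ)
    (hreach : Reach b.natDegree b 1 (x 0, 1)) : AffDML (asys b G) x := by
  classical
  obtain ⟨s, hs⟩ := aff_orbit b hb0 G m hm x
  obtain ⟨p, hp, τ, hτ, n, hn⟩ := hreach (s ∪ {b.coeff 1, (b.coeff 1)⁻¹, c, c⁻¹})
  obtain ⟨hF, h1⟩ := hs p τ fun y hy => hτ y (Finset.mem_union_left _ hy)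
  have m6 : ∀ y ∈ ({b.coeff 1, (b.coeff 1)⁻¹, c, c⁻¹} : Finset ℂ), ‖τ y‖ ≤ 1 :=
    fun y hy => hτ y (Finset.mem_union_right _ hy)
  rw [bs_one] at hn
  obtain ⟨P, y, K, hu, hPit, hnear, hcons, hK⟩ := h1 n hn
  apply affDML_of_iterate (asys b G) x n
  refine aff_core τ (asys b G) _ P hF (hu 0) (hPit 0) hnear K fun k hk => ?_
  rw [hcons k, det_asys, hJ, map_mul, map_mul, eval_C, map_mul, norm_mul, norm_mul,
    norm_one τ hb1 (m6 _ (by simp)) (m6 _ (by simp)),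
    norm_one τ hc (m6 _ (by simp)) (m6 _ (by simp)), one_mul, one_mul]
  exact norm_prod_one τ m (y k) (hK k hk)

/-- Finite return sets. -/
theorem aff_fin (b : Polynomial ℂ) (hb0 : b.coeff 0 = 0)
    (G : Fin M → MvPolynomial (Fin (M + 1)) ℂ) (g : MvPolynomial (Fin (M + 1)) ℂ)
    (c : ℂ) (hc : c ≠ 0) (m : Multiset (MvPolynomial (Fin M) ℂ)) (hg : fib g = C c * m.prod)
    (hm : ∀ J ∈ m, Escaping (fun i => fib (G i)) J) (x : Fin (M + 1) → ℂ)
    (hreach : Reach b.natDegree b 1 (x 0, 1)) :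
    {n : ℕ | eval ((pt (asys b G))^[n] x) g = 0}.Finite := by
  classical
  obtain ⟨s, hs⟩ := aff_orbit b hb0 G m hm x
  obtain ⟨sg, hsg⟩ := coefs_finite {g} (Set.finite_singleton g)
  obtain ⟨p, hp, τ, hτ, n, hn⟩ := hreach (s ∪ sg ∪ {c, c⁻¹})
  obtain ⟨hF, h1⟩ := hs p τ fun y hy =>
    hτ y (Finset.mem_union_left _ (Finset.mem_union_left _ hy))
  have hgi : ∀ κ, ‖τ (g.coeff κ)‖ ≤ 1 := hsg p τ (fun y hy =>
    hτ y (Finset.mem_union_left _ (Finset.mem_union_right _ hy))) g rfl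
  have m6 : ∀ y ∈ ({c, c⁻¹} : Finset ℂ), ‖τ y‖ ≤ 1 :=
    fun y hy => hτ y (Finset.mem_union_right _ hy)
  rw [bs_one] at hn
  obtain ⟨P, y, K, hu, hPit, hnear, hcons, hK⟩ := h1 n hn
  -- the orbits stay near
  have hall : ∀ k i, ‖τ ((pt (asys b G))^[k] ((pt (asys b G))^[n] x) i) -
      τ ((pt (asys b G))^[k] P i)‖ < 1 := by
    intro k
    induction k with
    | zero => exact hnear
    | succ k ih =>
      intro i
      rw [Function.iterate_succ_apply', Function.iterate_succ_apply']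
      exact eval_near_mv τ (asys b G i) (hF i) _ _ (hu k) (hPit k) ih
  refine (Set.finite_Iio (K + n)).subset fun l hl => ?_
  rw [Set.mem_ofPred_eq] at hl
  by_contra hcon
  rw [Set.mem_Iio, not_lt] at hcon
  obtain ⟨k, rfl⟩ : ∃ k, l = k + n := ⟨l - n, by omega⟩
  have hk : K ≤ k := by omega
  have h2 := eval_near_mv τ g hgi _ _ (hu k) (hPit k) (hall k)
  rw [← Function.iterate_add_apply, hl, map_zero, zero_sub, norm_neg, hcons k, ← eval_fib, hg,
    map_mul, eval_C, map_mul, norm_mul, norm_one τ hc (m6 _ (by simp)) (m6 _ (by simp)), one_mul,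
    norm_prod_one τ m (y k) (hK k hk)] at h2
  exact lt_irrefl _ h2

/-- The base orbit of a polynomial. -/
theorem reach_poly (b : Polynomial ℂ) (hd : 2 ≤ b.natDegree)
    (hba : ∀ k, IsAlgebraic ℚ (b.coeff k)) (hb0 : b.coeff 0 = 0) (hb1 : b.coeff 1 ≠ 0) (t : ℂ)
    (horb : (∃ n, (fun z => b.eval z)^[n] t = 0) ∨
      ∀ i j, i < j → (fun z => b.eval z)^[i] t ≠ (fun z => b.eval z)^[j] t) :
    Reach b.natDegree b 1 (t, 1) := by
  have hlead : b.coeff b.natDegree ≠ 0 := by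
    have h : b ≠ 0 := by
      rintro rfl
      simp at hd
    exact Polynomial.leadingCoeff_ne_zero.2 h
  refine reach_all hd le_rfl (by rw [Polynomial.natDegree_one]; exact Nat.zero_le _)
    isCoprime_one_left (Or.inr hlead) hb0 hb1 hba ?_ (t, 1)
    (fun h => one_ne_zero (congrArg Prod.snd h)) ?_
  · intro k
    rw [Polynomial.coeff_one]
    split_ifs
    · exact isAlgebraic_one
    · exact isAlgebraic_zero
  · rcases horb with ⟨n, hn⟩ | h
    · exact Or.inl ⟨n, by rw [bs_one]; exact hn⟩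
    · refine Or.inr fun i j hij => ?_
      rw [bs_one, bs_one, mul_one, mul_one]
      exact h i j hij

end Pool.Agent.Q118.SK
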