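import Pool.Agent.Q118.SK.Aff
import Pool.Agent.Q118.SK.Main

/-!
Polynomial maps of affine spaces over a polynomial of the line (helper file).
-/

set_option autoImplicit false

namespace Pool.Agent.Q118.SK

open MvPolynomial Pool.Agent.H936R2 Pool.Agent.Y199.DM

variable {M : ℕ}

/-- The polynomial map `(t, x) ↦ (b(t), G(t, x))` of the affine space. -/
noncomputable def asys (b : Polynomial ℂ) (G : Fin M → MvPolynomial (Fin (M + 1)) ℂ) :
    Fin (M + 1) → MvPolynomial (Fin (M + 1)) ℂ :=
  Fin.cons (Polynomial.aeval (X 0) b) G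

/-- The restriction of a polynomial to the fibre `t = 0`. -/
noncomputable def fib (q : MvPolynomial (Fin (M + 1)) ℂ) : MvPolynomial (Fin M) ℂ :=
  bind₁ (Fin.cons 0 X) q

theorem eval_fib (q : MvPolynomial (Fin (M + 1)) ℂ) (x : Fin M → ℂ) :
    eval x (fib q) = eval (Fin.cons 0 x) q := by
  have h := eval₂Hom_bind₁ (RingHom.id ℂ) x (Fin.cons 0 X) q
  have h2 : (fun i => eval x ((Fin.cons 0 X : Fin (M + 1) → MvPolynomial (Fin M) ℂ) i)) =
      (Fin.cons 0 x : Fin (M + 1) → ℂ) := by
    funext i
    refine Fin.cases ?_ (fun i => ?_) i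
    · simp
    · simp
  have h3 : eval x (fib q) = eval (fun i =>
      eval x ((Fin.cons 0 X : Fin (M + 1) → MvPolynomial (Fin M) ℂ) i)) q := h
  rw [h3, h2]

theorem pderiv_fib (j : Fin M) (q : MvPolynomial (Fin (M + 1)) ℂ) :
    pderiv j (fib q) = fib (pderiv j.succ q) := by
  induction q using MvPolynomial.induction_on with
  | C a => simp [fib]
  | add p q hp hq =>
    have h1 : fib (p + q) = fib p + fib q := map_add _ _ _
    have h2 : fib (pderiv j.succ p + pderiv j.succ q) =
      fib (pderiv j.succ p) + fib (pderiv j.succ q) := map_add _ _ _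
    rw [h1, map_add, map_add, hp, hq, h2]
  | mul_X p i hp =>
    have h1 : fib (p * X i) = fib p * (Fin.cons 0 X : Fin (M + 1) → MvPolynomial (Fin M) ℂ) i := by
      simp only [fib, map_mul, bind₁_X_right]
    have h2 : ∀ u v w : MvPolynomial (Fin (M + 1)) ℂ, fib (u * v + w) = fib u * fib v + fib w := by
      intro u v w
      simp only [fib, map_mul, map_add]
    rw [h1, pderiv_mul, pderiv_mul, h2, hp]
    have h3 : fib (p * pderiv j.succ (X i)) = fib p * fib (pderiv j.succ (X i)) := map_mul _ _ _
    rw [h3]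
    congr 1
    · congr 1
      simp only [fib, bind₁_X_right]
    · congr 1
      refine Fin.cases ?_ (fun i => ?_) i
      · rw [pderiv_X_of_ne (Fin.succ_ne_zero j).symm]
        simp [fib]
      · rw [Fin.cons_succ]
        by_cases hij : i = j
        · subst hij
          rw [pderiv_X_self, pderiv_X_self]
          simp [fib]
        · rw [pderiv_X_of_ne hij, pderiv_X_of_ne (fun h => hij (Fin.succ_injective _ h))]
          simp [fib]

/-- The matrix of partial derivatives of the map of the fibre `t = 0`. -/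
noncomputable def fibJac (G : Fin M → MvPolynomial (Fin (M + 1)) ℂ) :
    Matrix (Fin M) (Fin M) (MvPolynomial (Fin M) ℂ) :=
  Matrix.of fun i j => pderiv j (fib (G i))

theorem det_asys (b : Polynomial ℂ) (G : Fin M → MvPolynomial (Fin (M + 1)) ℂ) (x : Fin M → ℂ) :
    (jac (asys b G) (Fin.cons 0 x)).det = b.coeff 1 * eval x (fibJac G).det := by
  have hX : ∀ j : Fin (M + 1), pderiv j (Polynomial.aeval (X 0 : MvPolynomial (Fin (M + 1)) ℂ) b) =
      Polynomial.aeval (X 0 : MvPolynomial (Fin (M + 1)) ℂ) (Polynomial.derivative b) *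
        pderiv j (X 0) := by
    intro j
    have h := Polynomial.aeval_def (R := ℂ) (X 0 : MvPolynomial (Fin (M + 1)) ℂ) b
    induction b using Polynomial.induction_on' with
    | add p q hp hq =>
      rw [map_add, map_add, hp rfl, hq rfl, Polynomial.derivative_add, map_add, add_mul]
    | monomial n a =>
      rw [Polynomial.derivative_monomial, Polynomial.aeval_monomial, Polynomial.aeval_monomial,
        algebraMap_eq, pderiv_C_mul, pderiv_pow, map_mul, map_natCast]
      ring
  rw [Matrix.det_succ_row_zero, Finset.sum_eq_single 0]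
  · have h1 : jac (asys b G) (Fin.cons 0 x) 0 0 = b.coeff 1 := by
      change eval (Fin.cons 0 x) (pderiv 0 (Polynomial.aeval (X 0) b)) = b.coeff 1
      rw [hX, pderiv_X_self, mul_one]
      have h2 : eval (Fin.cons 0 x : Fin (M + 1) → ℂ) (Polynomial.aeval
          (X 0 : MvPolynomial (Fin (M + 1)) ℂ) (Polynomial.derivative b)) =
          (Polynomial.derivative b).eval 0 := by
        rw [Polynomial.aeval_def, Polynomial.hom_eval₂]
        simp only [algebraMap_eq, eval_X, Fin.cons_zero]
        rw [show (eval (Fin.cons 0 x : Fin (M + 1) → ℂ)).comp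
          (C : ℂ →+* MvPolynomial (Fin (M + 1)) ℂ) = RingHom.id ℂ from
            RingHom.ext fun z => eval_C z]
        rfl
      rw [h2, ← Polynomial.coeff_zero_eq_eval_zero, Polynomial.coeff_derivative]
      simp
    have h3 : ((jac (asys b G) (Fin.cons 0 x)).submatrix Fin.succ (Fin.succAbove 0)) =
        (fibJac G).map (eval x) := by
      ext i j
      change eval (Fin.cons 0 x) (pderiv ((0 : Fin (M + 1)).succAbove j) (G i)) =
        eval x (pderiv j (fib (G i)))
      rw [pderiv_fib, eval_fib, Fin.zero_succAbove]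
    rw [h1, h3]
    simp only [Fin.val_zero, pow_zero, one_mul]
    rw [RingHom.map_det]
    rfl
  · intro j _ hj
    have h1 : jac (asys b G) (Fin.cons 0 x) 0 j = 0 := by
      change eval (Fin.cons 0 x) (pderiv j (Polynomial.aeval (X 0) b)) = 0
      rw [hX, pderiv_X_of_ne (Ne.symm hj), mul_zero, map_zero]
    rw [h1, mul_zero, zero_mul]
  · intro h
    exact absurd (Finset.mem_univ _) h

theorem asys_zero (b : Polynomial ℂ) (G : Fin M → MvPolynomial (Fin (M + 1)) ℂ)
    (x : Fin (M + 1) → ℂ) : pt (asys b G) x 0 = b.eval (x 0) := by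
  change eval x (Polynomial.aeval (X 0) b) = _
  rw [Polynomial.aeval_def, Polynomial.hom_eval₂]
  simp only [algebraMap_eq, eval_X]
  rw [show (eval x).comp (C : ℂ →+* MvPolynomial (Fin (M + 1)) ℂ) = RingHom.id ℂ from
    RingHom.ext fun z => eval_C z]
  rfl

theorem asys_base (b : Polynomial ℂ) (G : Fin M → MvPolynomial (Fin (M + 1)) ℂ)
    (x : Fin (M + 1) → ℂ) (n : ℕ) :
    (pt (asys b G))^[n] x 0 = (fun z => b.eval z)^[n] (x 0) := by
  induction n with
  | zero => rfl
  | succ n ih => rw [Function.iterate_succ_apply', asys_zero, ih, Function.iterate_succ_apply']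

theorem bs_one (b : Polynomial ℂ) (t : ℂ) (n : ℕ) :
    (bs b.natDegree b 1)^[n] (t, 1) = ((fun z => b.eval z)^[n] t, 1) := by
  induction n with
  | zero => rfl
  | succ n ih =>
    rw [Function.iterate_succ_apply', ih, Function.iterate_succ_apply']
    refine Prod.ext ?_ ?_
    · exact hv_one _ b le_rfl _
    · change hv b.natDegree 1 _ 1 = 1
      rw [hv_one _ _ (by rw [Polynomial.natDegree_one]; exact Nat.zero_le _), Polynomial.eval_one]

theorem aff_main (b : Polynomial ℂ) (hd : 2 ≤ b.natDegree)
    (hba : ∀ k, IsAlgebraic ℚ (b.coeff k)) (hb0 : b.coeff 0 = 0) (hb1 : b.coeff 1 ≠ 0)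
    (G : Fin M → MvPolynomial (Fin (M + 1)) ℂ) (c : ℂ) (hc : c ≠ 0)
    (m : Multiset (MvPolynomial (Fin M) ℂ)) (hJ : (fibJac G).det = C c * m.prod)
    (hm : ∀ J ∈ m, Escaping (fun i => fib (G i)) J) (x : Fin (M + 1) → ℂ)
    (hx : IsAlgebraic ℚ (x 0))
    (horb : (∃ n, (fun z => b.eval z)^[n] (x 0) = 0) ∨
      ∀ i j, i < j → (fun z => b.eval z)^[i] (x 0) ≠ (fun z => b.eval z)^[j] (x 0)) :
    AffDML (asys b G) x := by
  classical
  have h1a : ∀ k, IsAlgebraic ℚ ((1 : Polynomial ℂ).coeff k) := by
    intro k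
    rw [Polynomial.coeff_one]
    split_ifs
    · exact isAlgebraic_one
    · exact isAlgebraic_zero
  have hlead : b.coeff b.natDegree ≠ 0 := by
    have h : b ≠ 0 := by
      rintro rfl
      simp at hd
    exact Polynomial.leadingCoeff_ne_zero.2 h
  obtain ⟨γ, ex, hγ, hγalg, hγ0⟩ := three_alg hd b 1 le_rfl
    (by rw [Polynomial.natDegree_one]; exact Nat.zero_le _) hba h1a isCoprime_one_left
    (Or.inr hlead) hb0 hb1
  -- the data
  choose! sJ hsJ using fun J (hJm : J ∈ m) => (hm J hJm).exists_data
  obtain ⟨sF, hsF⟩ := coefs_finite (Set.range (asys b G)) (Set.finite_range _)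
  let cf : Finset ℂ := (Finset.range (b.natDegree + 1)).image b.coeff
  have hcf : ∀ (p : ℕ) [Fact p.Prime] (τ : ℂ →+* PadicAlgCl p),
      (∀ y ∈ cf, ‖τ y‖ ≤ 1) → ∀ k, ‖τ (b.coeff k)‖ ≤ 1 := by
    intro p _ τ h k
    by_cases hk : k ≤ b.natDegree
    · exact h _ (Finset.mem_image.2 ⟨k, Finset.mem_range.2 (by omega), rfl⟩)
    · rw [Polynomial.coeff_eq_zero_of_natDegree_lt (by omega), map_zero, norm_zero]
      exact zero_le_one
  obtain ⟨s, s1, s2, s3, s4, s5, s6⟩ : ∃ s : Finset ℂ, sF ⊆ s ∧ cf ⊆ s ∧
      m.toFinset.biUnion sJ ⊆ s ∧ Finset.univ.image x ⊆ s ∧ Finset.univ.image γ ⊆ s ∧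
      ({(b.coeff b.natDegree)⁻¹, (b.coeff 1)⁻¹, c, c⁻¹} : Finset ℂ) ⊆ s :=
    ⟨sF ∪ (cf ∪ (m.toFinset.biUnion sJ ∪ (Finset.univ.image x ∪ (Finset.univ.image γ ∪
      {(b.coeff b.natDegree)⁻¹, (b.coeff 1)⁻¹, c, c⁻¹})))),
      Finset.subset_union_left,
      Finset.subset_union_left.trans Finset.subset_union_right,
      (Finset.subset_union_left.trans Finset.subset_union_right).trans Finset.subset_union_right,
      ((Finset.subset_union_left.trans Finset.subset_union_right).trans
        Finset.subset_union_right).trans Finset.subset_union_right,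
      (((Finset.subset_union_left.trans Finset.subset_union_right).trans
        Finset.subset_union_right).trans Finset.subset_union_right).trans
        Finset.subset_union_right,
      (((Finset.subset_union_right.trans Finset.subset_union_right).trans
        Finset.subset_union_right).trans Finset.subset_union_right).trans
        Finset.subset_union_right⟩
  -- the consequences of integrality
  have hall : ∀ (p : ℕ) [Fact p.Prime] (τ : ℂ →+* PadicAlgCl p), (∀ y ∈ s, ‖τ y‖ ≤ 1) →
      (∀ n, ‖τ ((fun z => b.eval z)^[n] (x 0))‖ < 1 → AffDML (asys b G) x) ∧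
      ∀ (n : ℕ) (i : Fin 3), ‖τ ((fun z => b.eval z)^[n] (x 0) - γ i)‖ < 1 →
        ‖τ ((fun z => b.eval z)^[n + ex i] (x 0))‖ < 1 := by
    intro p _ τ hτ
    have m2 : ∀ y ∈ cf, ‖τ y‖ ≤ 1 := fun y hy => hτ y (s2 hy)
    have m3 : ∀ J ∈ m, ∀ y ∈ sJ J, ‖τ y‖ ≤ 1 := fun J hJm y hy =>
      hτ y (s3 (Finset.mem_biUnion.2 ⟨J, Multiset.mem_toFinset.2 hJm, hy⟩))
    have m4 : ∀ i, ‖τ (x i)‖ ≤ 1 := fun i =>
      hτ _ (s4 (Finset.mem_image_of_mem x (Finset.mem_univ i)))
    have m5 : ∀ i, ‖τ (γ i)‖ ≤ 1 := fun i =>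
      hτ _ (s5 (Finset.mem_image_of_mem γ (Finset.mem_univ i)))
    have m6 : ∀ y ∈ ({(b.coeff b.natDegree)⁻¹, (b.coeff 1)⁻¹, c, c⁻¹} : Finset ℂ), ‖τ y‖ ≤ 1 :=
      fun y hy => hτ y (s6 hy)
    have hF : ∀ i κ, ‖τ ((asys b G i).coeff κ)‖ ≤ 1 := fun i κ =>
      hsF p τ (fun y hy => hτ y (s1 hy)) _ ⟨i, rfl⟩ κ
    have one_coef : ∀ k, ‖τ ((1 : Polynomial ℂ).coeff k)‖ ≤ 1 := by
      intro k
      rw [Polynomial.coeff_one]
      split_ifs
      · rw [map_one, NormOneClass.norm_one]
      · rw [map_zero, norm_zero]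
        exact zero_le_one
    have zero_coef : ∀ k, ‖τ ((0 : Polynomial ℂ).coeff k)‖ ≤ 1 := by
      intro k
      rw [Polynomial.coeff_zero, map_zero, norm_zero]
      exact zero_le_one
    obtain ⟨-, hnear⟩ := base_orbit τ (d := b.natDegree) (b := b) (a := 1) le_rfl
      (by rw [Polynomial.natDegree_one]; exact Nat.zero_le _) (hcf p τ m2) one_coef 1 0
      (by ring) one_coef zero_coef
      (Or.inr (norm_one τ hlead (hcf p τ m2 _) (m6 _ (by simp)))) (x 0, 1) (m4 0)
      (by rw [map_one, NormOneClass.norm_one]) (Or.inr (by rw [map_one, NormOneClass.norm_one]))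
    refine ⟨fun n hn => ?_, fun n i hni => ?_⟩
    · have hint : ∀ n i, ‖τ ((pt (asys b G))^[n] x i)‖ ≤ 1 := by
        intro n
        induction n with
        | zero => exact m4
        | succ n ih =>
          intro i
          rw [Function.iterate_succ_apply']
          exact eval_mem_subring (Oi τ) _ ih _ (hF i)
      apply affDML_of_iterate (asys b G) x n
      set u : Fin (M + 1) → ℂ := (pt (asys b G))^[n] x with hu
      have hu0 : ‖τ (u 0)‖ < 1 := by
        rw [hu, asys_base]
        exact hn
      let P : Fin (M + 1) → ℂ := Fin.cons 0 (Fin.tail u)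
      have hPint : ∀ i, ‖τ (P i)‖ ≤ 1 := by
        intro i
        refine Fin.cases ?_ (fun i => ?_) i
        · change ‖τ 0‖ ≤ 1
          rw [map_zero, norm_zero]
          exact zero_le_one
        · exact hint n i.succ
      -- the orbit on the fibre
      let y : ℕ → Fin M → ℂ := fun k => Fin.tail ((pt (asys b G))^[k] P)
      have hb00 : b.eval 0 = 0 := by
        rw [← Polynomial.coeff_zero_eq_eval_zero, hb0]
      have hz0 : ∀ k, (pt (asys b G))^[k] P 0 = 0 := by
        intro k
        induction k with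
        | zero => rfl
        | succ k ih => rw [Function.iterate_succ_apply', asys_zero, ih, hb00]
      have hcons : ∀ k, (pt (asys b G))^[k] P = Fin.cons 0 (y k) := by
        intro k
        rw [← hz0 k]
        exact (Fin.cons_self_tail _).symm
      have hystep : ∀ k, y (k + 1) = pt (fun i => fib (G i)) (y k) := by
        intro k
        funext i
        change (pt (asys b G))^[k + 1] P i.succ = eval (y k) (fib (G i))
        rw [Function.iterate_succ_apply', eval_fib, ← hcons k]
        rfl
      have hPit : ∀ k i, ‖τ ((pt (asys b G))^[k] P i)‖ ≤ 1 := by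
        intro k
        induction k with
        | zero => exact hPint
        | succ k ih =>
          intro i
          rw [Function.iterate_succ_apply']
          exact eval_mem_subring (Oi τ) _ ih _ (hF i)
      have hyint : ∀ k i, ‖τ (y k i)‖ ≤ 1 := fun k i => hPit k i.succ
      have hfin : (⋃ J ∈ m.toFinset, {k : ℕ | ‖τ (eval (y k) J)‖ ≠ 1}).Finite := by
        refine Set.Finite.biUnion (Finset.finite_toSet _) fun J hJm => ?_
        have hJm' := Multiset.mem_toFinset.1 hJm
        exact hsJ J hJm' p τ (m3 J hJm') y hystep hyint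
      obtain ⟨K, hK⟩ := hfin.bddAbove
      refine aff_core τ (asys b G) u P hF (hint n) hPint (fun i => ?_) (K + 1) fun k hk => ?_
      · refine Fin.cases ?_ (fun i => ?_) i
        · change ‖τ (u 0) - τ 0‖ < 1
          rw [map_zero, sub_zero]
          exact hu0
        · change ‖τ (u i.succ) - τ (u i.succ)‖ < 1
          rw [sub_self, norm_zero]
          exact one_pos
      · rw [hcons k, det_asys, hJ, map_mul, map_mul, eval_C, map_mul, norm_mul, norm_mul,
          norm_one τ hb1 (hcf p τ m2 1) (m6 _ (by simp)),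
          norm_one τ hc (m6 _ (by simp)) (m6 _ (by simp)), one_mul, one_mul, map_multiset_prod,
          map_multiset_prod]
        have key : ∀ m' : Multiset (MvPolynomial (Fin M) ℂ), (∀ J ∈ m', J ∈ m) →
            ‖((m'.map (eval (y k))).map τ).prod‖ = 1 := by
          intro m'
          induction m' using Multiset.induction_on with
          | empty => intro _; simp
          | cons J m' ih =>
            intro h
            rw [Multiset.map_cons, Multiset.map_cons, Multiset.prod_cons, norm_mul,
              ih fun J hJ' => h J (Multiset.mem_cons_of_mem hJ'), mul_one]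
            by_contra hcon
            have h1 : k ∈ ⋃ J ∈ m.toFinset, {k : ℕ | ‖τ (eval (y k) J)‖ ≠ 1} := by
              rw [Set.mem_iUnion₂]
              exact ⟨J, Multiset.mem_toFinset.2 (h J (Multiset.mem_cons_self J m')), hcon⟩
            have := hK h1
            omega
        exact key m fun J hJ' => hJ'
    · have h1 := hnear n (γ i) (ex i) (by rw [bs_one]; exact one_ne_zero) (m5 i)
        (by rw [bs_one, div_one]; exact hni) (hγ0 i)
      rwa [bs_one] at h1
  rcases horb with ⟨n, hn⟩ | horb
  · obtain ⟨D, hD⟩ := emb_zero s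
    obtain ⟨p, hpD, hp⟩ := Nat.exists_infinite_primes (D + 1)
    have : Fact p.Prime := ⟨hp⟩
    obtain ⟨τ, hτ, -⟩ := hD p (by omega) 0 Polynomial.X Polynomial.irreducible_X (by simp) (by simp)
    refine (hall p τ hτ).1 n ?_
    rw [hn, map_zero, norm_zero]
    exact one_pos
  · let E : IntermediateField ℚ ℂ :=
      IntermediateField.adjoin ℚ (((cf ∪ {x 0} : Finset ℂ)) : Set ℂ)
    have : FiniteDimensional ℚ E := by
      refine IntermediateField.finiteDimensional_adjoin fun y hy => ?_
      apply IsAlgebraic.isIntegral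
      rw [Finset.mem_coe] at hy
      simp only [Finset.mem_union, Finset.mem_singleton] at hy
      rcases hy with hy | rfl
      · obtain ⟨k, -, rfl⟩ := Finset.mem_image.1 hy
        exact hba k
      · exact hx
    have hsub : (((cf ∪ {x 0} : Finset ℂ)) : Set ℂ) ⊆ E :=
      IntermediateField.subset_adjoin ℚ _
    have hbE : ∀ k, b.coeff k ∈ E := by
      intro k
      by_cases hk : k ≤ b.natDegree
      · exact hsub (Finset.mem_coe.2 (Finset.mem_union_left _
          (Finset.mem_image.2 ⟨k, Finset.mem_range.2 (by omega), rfl⟩)))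
      · rw [Polynomial.coeff_eq_zero_of_natDegree_lt (by omega)]
        exact E.zero_mem
    have h0E : x 0 ∈ E := hsub (by simp)
    have hE : ∀ n, (fun z => b.eval z)^[n] (x 0) ∈ E := by
      intro n
      have h1 := bs_mem E.toSubfield.toSubring b.natDegree b 1 hbE (fun k => by
        rw [Polynomial.coeff_one]
        split_ifs
        · exact E.one_mem
        · exact E.zero_mem) (x 0, 1) h0E E.one_mem n
      rw [bs_one] at h1
      exact h1.1
    have hfin := near_line E (fun i => some (γ i)) (fun i j hij => hγ (Option.some.inj hij))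
      (fun i z hz => by
        rw [← Option.some.inj hz]
        exact hγalg i) (fun _ => s) (fun _ => AlgEquiv.refl) 1 le_rfl
    have hinj : Function.Injective fun n => (fun z => b.eval z)^[n] (x 0) := by
      intro i j hij
      rcases lt_trichotomy i j with h | h | h
      · exact absurd hij (horb i j h)
      · exact h
      · exact absurd hij.symm (horb j i h)
    obtain ⟨n, hn⟩ : ∃ n : ℕ, (fun z => b.eval z)^[n] (x 0) ∉
        {t : ℂ | t ∈ E ∧ ∀ i, Avoids 1 ((fun i => some (γ i)) i) t ∨
          ∃ z ∈ (fun i => some (γ i)) i, ¬ Near s ((AlgEquiv.refl : ℂ ≃ₐ[E] ℂ) z) t} := by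
      by_contra hcon
      push Not at hcon
      exact Set.infinite_range_of_injective hinj (hfin.subset (by
        rintro _ ⟨n, rfl⟩
        exact hcon n))
    have h3 : ∃ i, Near s (γ i) ((fun z => b.eval z)^[n] (x 0)) := by
      by_contra hcon
      push Not at hcon
      exact hn ⟨hE n, fun i => Or.inr ⟨γ i, rfl, hcon i⟩⟩
    obtain ⟨i, p, hp, τ, hτ, hτt⟩ := h3
    exact (hall p τ hτ).1 _ ((hall p τ hτ).2 n i hτt)

end Pool.Agent.Q118.SK
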