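import Pool.Agent.Q118.SK.AffMain

/-!
Coordinate hyperplanes over strictly preperiodic points (helper file).
-/

set_option autoImplicit false

namespace Pool.Agent.Q118.SK

open MvPolynomial

/-- If the `k`-th coordinate of `G` is a polynomial `g(x_k)` and `c` is strictly preperiodic for
`g` then the hyperplane `x_k = c` is escaping. -/
theorem escaping_coord {M : ℕ} (G : Fin M → MvPolynomial (Fin M) ℂ) (k : Fin M) (g : Polynomial ℂ)
    (hG : G k = Polynomial.aeval (X k) g) (c : ℂ)
    (hfin : (Set.range fun i : ℕ => (fun z => g.eval z)^[i] c).Finite)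
    (hne : ∀ i : ℕ, 1 ≤ i → (fun z => g.eval z)^[i] c ≠ c) :
    Escaping G (X k - C c) := by
  refine ⟨fun i => X k - C ((fun z => g.eval z)^[i] c), rfl, ?_, fun i => ?_, fun i hi => ?_⟩
  · refine (hfin.image fun z => (X k - C z : MvPolynomial (Fin M) ℂ)).subset ?_
    rintro _ ⟨i, rfl⟩
    exact ⟨_, ⟨i, rfl⟩, rfl⟩
  · have h1 : Polynomial.X - Polynomial.C ((fun z => g.eval z)^[i] c) ∣
        g - Polynomial.C (g.eval ((fun z => g.eval z)^[i] c)) := Polynomial.X_sub_C_dvd_sub_C_eval
    have h2 := map_dvd (Polynomial.aeval (X k : MvPolynomial (Fin M) ℂ)) h1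
    rw [map_sub, map_sub, Polynomial.aeval_X, Polynomial.aeval_C, Polynomial.aeval_C] at h2
    rw [map_sub, bind₁_X_right, hG, Function.iterate_succ_apply']
    have h3 : bind₁ G (C (g.eval ((fun z => g.eval z)^[i] c))) =
        C (g.eval ((fun z => g.eval z)^[i] c)) := by simp
    rw [h3]
    exact h2
  · have h1 := sub_ne_zero.2 (hne i hi).symm
    set u := (fun z => g.eval z)^[i] c
    refine ⟨C (c - u)⁻¹, -C (c - u)⁻¹, ?_⟩
    have h2 : (C (c - u)⁻¹ * (X k - C u) + -C (c - u)⁻¹ * (X k - C c) :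
        MvPolynomial (Fin M) ℂ) = C (c - u)⁻¹ * C (c - u) := by
      rw [map_sub C c u]
      ring
    rw [h2, ← C_mul, inv_mul_cancel₀ h1, C_1]

end Pool.Agent.Q118.SK
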