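import Pool.Agent.Q118.SK.Loc

/-!
Polynomials all of whose critical points are strictly preperiodic (helper file).
-/

set_option autoImplicit false

namespace Pool.Agent.Q118.SK

open Polynomial Pool.Agent.H936R2 Pool.Agent.Y199.DM

/-- Every critical point of `g` is strictly preperiodic: its orbit is finite and does not return
to it. -/
def StrictlyPreperiodic (g : ℂ[X]) : Prop :=
  ∀ c : ℂ, (derivative g).eval c = 0 →
    (Set.range fun i : ℕ => (fun z => g.eval z)^[i] c).Finite ∧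
    ∀ i : ℕ, 1 ≤ i → (fun z => g.eval z)^[i] c ≠ c

theorem iter_near {p : ℕ} [Fact p.Prime] (τ : ℂ →+* PadicAlgCl p) (g : ℂ[X])
    (hg : ∀ k, ‖τ (g.coeff k)‖ ≤ 1) (t u : ℂ) (ht : ‖τ t‖ ≤ 1) (hu : ‖τ u‖ ≤ 1)
    (htu : ‖τ t - τ u‖ < 1) (n : ℕ) :
    ‖τ ((fun z => g.eval z)^[n] t)‖ ≤ 1 ∧ ‖τ ((fun z => g.eval z)^[n] u)‖ ≤ 1 ∧
      ‖τ ((fun z => g.eval z)^[n] t) - τ ((fun z => g.eval z)^[n] u)‖ < 1 := by
  induction n with
  | zero => exact ⟨ht, hu, htu⟩
  | succ n ih =>
    rw [Function.iterate_succ_apply', Function.iterate_succ_apply']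
    have h1 := eval_near τ g hg _ _ ih.1 ih.2.1 ih.2.2
    have h2 := eval_near τ g hg _ _ ih.2.1 ih.2.1 (by rw [sub_self, norm_zero]; exact one_pos)
    exact ⟨h1.1, h2.1, h1.2⟩

theorem iter_int {p : ℕ} [Fact p.Prime] (τ : ℂ →+* PadicAlgCl p) (g : ℂ[X])
    (hg : ∀ k, ‖τ (g.coeff k)‖ ≤ 1) (t : ℂ) (ht : ‖τ t‖ ≤ 1) (n : ℕ) :
    ‖τ ((fun z => g.eval z)^[n] t)‖ ≤ 1 :=
  (iter_near τ g hg t t ht ht (by rw [sub_self, norm_zero]; exact one_pos) n).1

/-- The finitely many numbers whose integrality is used. -/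
theorem exists_data (g : ℂ[X]) (hg0 : derivative g ≠ 0) (hpc : StrictlyPreperiodic g) :
    ∃ s : Finset ℂ, ∀ (p : ℕ) [Fact p.Prime] (τ : ℂ →+* PadicAlgCl p), (∀ y ∈ s, ‖τ y‖ ≤ 1) →
      (∀ k, ‖τ (g.coeff k)‖ ≤ 1) ∧ ∀ z, ‖τ z‖ ≤ 1 →
        {n : ℕ | ‖τ ((derivative g).eval ((fun z => g.eval z)^[n] z))‖ ≠ 1}.Finite := by
  classical
  have hroot : ∀ c ∈ (derivative g).roots, (derivative g).eval c = 0 := fun c hc =>
    (mem_roots hg0).1 hc
  have hfin : (⋃ c ∈ (derivative g).roots.toFinset,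
      (fun y => (c - y)⁻¹) '' (Set.range fun i : ℕ => (fun z => g.eval z)^[i] c)).Finite := by
    refine Set.Finite.biUnion (Finset.finite_toSet _) fun c hc => Set.Finite.image _ ?_
    exact (hpc c (hroot c (Multiset.mem_toFinset.1 hc))).1
  let s : Finset ℂ := (Finset.range (g.natDegree + 1)).image g.coeff ∪
    {(derivative g).leadingCoeff⁻¹} ∪ (derivative g).roots.toFinset ∪ hfin.toFinset
  refine ⟨s, fun p _ τ hτ => ?_⟩
  have hcoef : ∀ k, ‖τ (g.coeff k)‖ ≤ 1 := by
    intro k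
    by_cases hk : k ≤ g.natDegree
    · apply hτ
      simp only [s, Finset.mem_union]
      exact Or.inl (Or.inl (Or.inl (Finset.mem_image.2 ⟨k, Finset.mem_range.2 (by omega), rfl⟩)))
    · rw [coeff_eq_zero_of_natDegree_lt (by omega), map_zero, norm_zero]
      exact zero_le_one
  have hcoef' : ∀ k, ‖τ ((derivative g).coeff k)‖ ≤ 1 := by
    intro k
    rw [coeff_derivative]
    have h1 : ((k : ℂ) + 1) ∈ Oi τ := (Oi τ).add_mem (natCast_mem (Oi τ) k) (Oi τ).one_mem
    exact (Oi τ).mul_mem (show g.coeff (k + 1) ∈ Oi τ from hcoef _) h1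
  have hlead : ‖τ (derivative g).leadingCoeff‖ = 1 := by
    refine norm_one τ (leadingCoeff_ne_zero.2 hg0) (hcoef' _) (hτ _ ?_)
    simp [s]
  have hr : ∀ c ∈ (derivative g).roots, ‖τ c‖ ≤ 1 := by
    intro c hc
    apply hτ
    simp only [s, Finset.mem_union]
    exact Or.inl (Or.inr (Multiset.mem_toFinset.2 hc))
  have hsep : ∀ c ∈ (derivative g).roots, ∀ i : ℕ, 1 ≤ i →
      ‖τ (c - (fun z => g.eval z)^[i] c)‖ = 1 := by
    intro c hc i hi
    have hne := (hpc c (hroot c hc)).2 i hi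
    refine norm_one τ (sub_ne_zero.2 hne.symm) ?_ (hτ _ ?_)
    · exact (Oi τ).sub_mem (show c ∈ Oi τ from hr c hc) (iter_int τ g hcoef c (hr c hc) i)
    · simp only [s, Finset.mem_union]
      refine Or.inr ?_
      rw [Set.Finite.mem_toFinset, Set.mem_iUnion₂]
      exact ⟨c, Multiset.mem_toFinset.2 hc, _, ⟨i, rfl⟩, rfl⟩
  refine ⟨hcoef, fun z hz => ?_⟩
  have hint : ∀ n, ‖τ ((fun z => g.eval z)^[n] z)‖ ≤ 1 := iter_int τ g hcoef z hz
  have hsub : {n : ℕ | ‖τ ((derivative g).eval ((fun z => g.eval z)^[n] z))‖ ≠ 1} ⊆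
      ⋃ c ∈ (derivative g).roots.toFinset, {n : ℕ | ‖τ ((fun z => g.eval z)^[n] z) - τ c‖ < 1} := by
    intro n hn
    by_contra hcon
    simp only [Set.mem_iUnion, Set.mem_ofPred_eq, not_exists, not_lt, Multiset.mem_toFinset] at hcon
    apply hn
    refine le_antisymm ?_ ?_
    · exact (eval_near τ _ hcoef' _ _ (hint n) (hint n)
        (by rw [sub_self, norm_zero]; exact one_pos)).1
    · rw [(IsAlgClosed.splits (derivative g)).eval_eq_prod_roots, map_mul, norm_mul, hlead, one_mul]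
      have key : ∀ m : Multiset ℂ, (∀ c ∈ m, c ∈ (derivative g).roots) →
          1 ≤ ‖τ (m.map fun c => (fun z => g.eval z)^[n] z - c).prod‖ := by
        intro m
        induction m using Multiset.induction_on with
        | empty => intro _; simp
        | cons c m ih =>
          intro h
          rw [Multiset.map_cons, Multiset.prod_cons, map_mul, norm_mul]
          refine one_le_mul_of_one_le_of_one_le ?_ (ih fun c hc => h c (Multiset.mem_cons_of_mem hc))
          rw [map_sub]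
          exact hcon c (h c (Multiset.mem_cons_self c m))
      exact key _ fun c hc => hc
  refine Set.Finite.subset (Set.Finite.biUnion (Finset.finite_toSet _) fun c hc => ?_) hsub
  refine Set.Subsingleton.finite ?_
  have hc' := Multiset.mem_toFinset.1 hc
  have main : ∀ n m : ℕ, n < m → ‖τ ((fun z => g.eval z)^[n] z) - τ c‖ < 1 →
      ‖τ ((fun z => g.eval z)^[m] z) - τ c‖ < 1 → False := by
    intro n m hnm h1 h2
    obtain ⟨i, rfl⟩ := Nat.exists_eq_add_of_lt hnm
    have h3 := (iter_near τ g hcoef _ c (hint n) (hr c hc') h1 (i + 1)).2.2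
    rw [← Function.iterate_add_apply, show i + 1 + n = n + i + 1 by omega] at h3
    have h4 := hsep c hc' (i + 1) (by omega)
    have h5 : τ (c - (fun z => g.eval z)^[i + 1] c) =
        -(τ ((fun z => g.eval z)^[n + i + 1] z) - τ c) +
          (τ ((fun z => g.eval z)^[n + i + 1] z) - τ ((fun z => g.eval z)^[i + 1] c)) := by
      rw [map_sub]
      ring
    rw [h5] at h4
    have h6 := IsUltrametricDist.norm_add_le_max
      (-(τ ((fun z => g.eval z)^[n + i + 1] z) - τ c))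
      (τ ((fun z => g.eval z)^[n + i + 1] z) - τ ((fun z => g.eval z)^[i + 1] c))
    rw [norm_neg, h4] at h6
    exact absurd h6 (not_le.2 (max_lt h2 h3))
  intro n hn m hm
  rcases lt_trichotomy n m with h | h | h
  · exact (main n m h hn hm).elim
  · exact h
  · exact (main m n h hm hn).elim

end Pool.Agent.Q118.SK
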