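import Pool.Agent.Q118.SK.ProjAll
import Pool.Agent.Q118.SK.Coord
import Pool.Agent.Q118.SK.Crit

/-!
Transcendental points of the base, over the field of definition of the base map; split fibres
(helper file).
-/

set_option autoImplicit false

namespace Pool.Agent.Q118.SK

open MvPolynomial Pool.Agent.H936R2 Pool.Agent.Y199.DM

/-- Points of the line which are transcendental over the field generated by the coefficients. -/
theorem reach_trans_field {d : ℕ} {b a : Polynomial ℂ} (hd : 2 ≤ d) (hb : b.natDegree ≤ d)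
    (ha : a.natDegree ≤ d) (hcop : IsCoprime a b) (hlead : a.coeff d ≠ 0 ∨ b.coeff d ≠ 0)
    (hb0 : b.coeff 0 = 0) (hb1 : b.coeff 1 ≠ 0) (F : IntermediateField ℚ ℂ)
    (hbF : ∀ k, b.coeff k ∈ F) (haF : ∀ k, a.coeff k ∈ F) (t : ℂ) (ht : Transcendental F t) :
    Reach d b a (t, 1) := by
  let K : IntermediateField ℚ ℂ := (algebraicClosure F ℂ).restrictScalars ℚ
  have hFK : ∀ z, z ∈ F → z ∈ K := by
    intro z hz
    rw [IntermediateField.mem_restrictScalars]
    exact (algebraicClosure F ℂ).algebraMap_mem (⟨z, hz⟩ : F)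
  have : IsAlgClosed K := (algebraicClosure.isAlgClosure F ℂ).isAlgClosed
  have htK : Transcendental K t := ht.algebraicClosure
  exact reach_transc hd hb ha hcop hlead hb0 hb1 K (fun k => hFK _ (hbF k))
    (fun k => hFK _ (haF k)) t htK

/-- Homogeneous version. -/
theorem reach_trans_pair {d : ℕ} {b a : Polynomial ℂ} (hd : 2 ≤ d) (hb : b.natDegree ≤ d)
    (ha : a.natDegree ≤ d) (hcop : IsCoprime a b) (hlead : a.coeff d ≠ 0 ∨ b.coeff d ≠ 0)
    (hb0 : b.coeff 0 = 0) (hb1 : b.coeff 1 ≠ 0) (F : IntermediateField ℚ ℂ)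
    (hbF : ∀ k, b.coeff k ∈ F) (haF : ∀ k, a.coeff k ∈ F) (v : ℂ × ℂ)
    (ht : Transcendental F (v.1 / v.2)) :
    Reach d b a v := by
  have hv : v.2 ≠ 0 := by
    intro h
    rw [h, div_zero] at ht
    exact ht isAlgebraic_zero
  have h2 : v = v.2 • ((v.1 / v.2, 1) : ℂ × ℂ) := by
    refine Prod.ext ?_ ?_
    · simp [mul_div_cancel₀ _ hv]
    · simp
  rw [h2]
  exact reach_smul (reach_trans_field hd hb ha hcop hlead hb0 hb1 F hbF haF _ ht) v.2

variable {N : ℕ}

/-- The three kinds of points of the base. -/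
theorem reach_of {d : ℕ} {b a : Polynomial ℂ} (hd : 2 ≤ d) (hb : b.natDegree ≤ d)
    (ha : a.natDegree ≤ d) (hcop : IsCoprime a b) (hlead : a.coeff d ≠ 0 ∨ b.coeff d ≠ 0)
    (hb0 : b.coeff 0 = 0) (hb1 : b.coeff 1 ≠ 0)
    (T : Fin N → MvPolynomial (Fin (N + 2)) ℂ) (α : Fin (N + 2) → ℂ) (hα : α 0 ≠ 0 ∨ α 1 ≠ 0)
    (h : (∃ n, (pt (psys d b a T))^[n] α 0 = 0) ∨
      ((∀ k, IsAlgebraic ℚ (b.coeff k)) ∧ (∀ k, IsAlgebraic ℚ (a.coeff k)) ∧
        ∀ m n, m < n → (pt (psys d b a T))^[m] α 0 * (pt (psys d b a T))^[n] α 1 ≠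
              (pt (psys d b a T))^[n] α 0 * (pt (psys d b a T))^[m] α 1) ∨
      Transcendental (IntermediateField.adjoin ℚ (Set.range b.coeff ∪ Set.range a.coeff))
        (α 0 / α 1)) : Reach d b a (α 0, α 1) := by
  have hpt : ∀ n, (pt (psys d b a T))^[n] α 0 = ((bs d b a)^[n] (α 0, α 1)).1 ∧
      (pt (psys d b a T))^[n] α 1 = ((bs d b a)^[n] (α 0, α 1)).2 := by
    intro n
    have := pt_pbase d b a T α n
    exact ⟨congrArg Prod.fst this, congrArg Prod.snd this⟩
  have hα0 : (α 0, α 1) ≠ (0 : ℂ × ℂ) := by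
    intro h
    rcases hα with h1 | h1
    · exact h1 (congrArg Prod.fst h)
    · exact h1 (congrArg Prod.snd h)
  rcases h with ⟨n, hn⟩ | ⟨hba, haa, h⟩ | h
  · refine reach_hit b a _ ⟨n, ?_⟩
    rw [← (hpt n).1]
    exact hn
  · refine reach_all hd hb ha hcop hlead hb0 hb1 hba haa _ hα0 (Or.inr fun m n hmn => ?_)
    rw [← (hpt n).1, ← (hpt n).2, ← (hpt m).1, ← (hpt m).2]
    exact h m n hmn
  · exact reach_trans_pair hd hb ha hcop hlead hb0 hb1
      (IntermediateField.adjoin ℚ (Set.range b.coeff ∪ Set.range a.coeff))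
      (fun k => IntermediateField.subset_adjoin ℚ _ (Or.inl (Set.mem_range_self k)))
      (fun k => IntermediateField.subset_adjoin ℚ _ (Or.inr (Set.mem_range_self k))) _ h

/-- The same for polynomials of the affine line. -/
theorem reach_poly_of (b : Polynomial ℂ) (hd : 2 ≤ b.natDegree) (hb0 : b.coeff 0 = 0)
    (hb1 : b.coeff 1 ≠ 0) (t : ℂ)
    (h : (∃ n, (fun z => b.eval z)^[n] t = 0) ∨
      ((∀ k, IsAlgebraic ℚ (b.coeff k)) ∧
        ∀ i j, i < j → (fun z => b.eval z)^[i] t ≠ (fun z => b.eval z)^[j] t) ∨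
      Transcendental (IntermediateField.adjoin ℚ (Set.range b.coeff)) t) :
    Reach b.natDegree b 1 (t, 1) := by
  rcases h with h | ⟨hba, h⟩ | h
  · refine reach_hit b 1 _ ?_
    obtain ⟨n, hn⟩ := h
    exact ⟨n, by rw [bs_one]; exact hn⟩
  · exact reach_poly b hd hba hb0 hb1 _ (Or.inr h)
  · have hlead : b.coeff b.natDegree ≠ 0 := by
      have h : b ≠ 0 := by
        rintro rfl
        simp at hd
      exact Polynomial.leadingCoeff_ne_zero.2 h
    refine reach_trans_field hd le_rfl (by rw [Polynomial.natDegree_one]; exact Nat.zero_le _)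
      isCoprime_one_left (Or.inr hlead) hb0 hb1 (IntermediateField.adjoin ℚ (Set.range b.coeff))
      (fun k => IntermediateField.subset_adjoin ℚ _ (Set.mem_range_self k)) (fun k => ?_) _ h
    rw [Polynomial.coeff_one]
    split_ifs
    · exact one_mem _
    · exact zero_mem _

/-- Endomorphisms. -/
theorem psys_endo {d : ℕ} {b a : Polynomial ℂ} (hb : b.natDegree ≤ d)
    (ha : a.natDegree ≤ d) (hcop : IsCoprime a b) (hlead : a.coeff d ≠ 0 ∨ b.coeff d ≠ 0)
    (T : Fin N → MvPolynomial (Fin (N + 2)) ℂ)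
    (hT : ∀ y : Fin N → ℂ, (∀ j, eval (Fin.cons 0 (Fin.cons 0 y) : Fin (N + 2) → ℂ) (T j) = 0) →
      y = 0) (x : Fin (N + 2) → ℂ) (hx : ∀ i, eval x (psys d b a T i) = 0) : x = 0 := by
  have h0 : ((x 0, x 1) : ℂ × ℂ) = 0 := by
    by_contra hne
    refine bs_ne_zero hb ha hcop hlead hne ?_
    refine Prod.ext ?_ ?_
    · change hv d b (x 0) (x 1) = 0
      rw [← eval_hp]
      exact hx 0
    · change hv d a (x 0) (x 1) = 0
      rw [← eval_hp]
      exact hx 1
  have h1 : x = Fin.cons 0 (Fin.cons 0 fun j => x j.succ.succ) := by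
    funext i
    refine Fin.cases (congrArg Prod.fst h0) (fun i => ?_) i
    exact Fin.cases (congrArg Prod.snd h0) (fun i => rfl) i
  have h2 := hT (fun j => x j.succ.succ) fun j => by
    rw [← h1]
    exact hx j.succ.succ
  rw [h1, h2]
  funext i
  refine Fin.cases rfl (fun i => ?_) i
  exact Fin.cases rfl (fun i => rfl) i

/-! ### Split fibres -/

theorem fch_split (d : ℕ) (g : Polynomial ℂ) (hg : g.natDegree ≤ d) (j : Fin N)
    (S : MvPolynomial (Fin (N + 2)) ℂ) :
    fch (hp d g j.succ.succ 1 + X 0 * S) = Polynomial.aeval (X j) g := by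
  have h0 : (Fin.cons 0 (Fin.cons 1 X) : Fin (N + 2) → MvPolynomial (Fin N) ℂ) 0 = 0 := rfl
  have h1 : (Fin.cons 0 (Fin.cons 1 X) : Fin (N + 2) → MvPolynomial (Fin N) ℂ) 1 = 1 := rfl
  have h2 : (Fin.cons 0 (Fin.cons 1 X) : Fin (N + 2) → MvPolynomial (Fin N) ℂ) j.succ.succ =
    X j := rfl
  rw [fch, map_add, map_mul, bind₁_X_right, h0, zero_mul, add_zero, hp, map_sum,
    Polynomial.aeval_eq_sum_range' (Nat.lt_succ_of_le hg)]
  refine Finset.sum_congr rfl fun k _ => ?_
  rw [map_mul, map_mul, map_pow, map_pow, bind₁_X_right, bind₁_X_right, h1, h2, one_pow, mul_one,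
    bind₁_C_right, smul_eq_C_mul]

theorem pderiv_aeval (i j : Fin N) (g : Polynomial ℂ) :
    pderiv j (Polynomial.aeval (X i : MvPolynomial (Fin N) ℂ) g) =
      if i = j then Polynomial.aeval (X i) (Polynomial.derivative g) else 0 := by
  have h := (pderiv (R := ℂ) j).map_aeval g (X i : MvPolynomial (Fin N) ℂ)
  split_ifs with hij
  · subst hij
    rw [h, pderiv_X_self, smul_eq_mul, mul_one]
  · rw [h, pderiv_X_of_ne hij, smul_zero]

theorem det_split (T : Fin N → MvPolynomial (Fin (N + 2)) ℂ) (g : Fin N → Polynomial ℂ)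
    (hT : ∀ j, fch (T j) = Polynomial.aeval (X j) (g j)) :
    (fchJac T).det = C (∏ j, (Polynomial.derivative (g j)).leadingCoeff) *
      (∑ j, (Polynomial.derivative (g j)).roots.map
        fun r => (X j - C r : MvPolynomial (Fin N) ℂ)).prod := by
  have h1 : fchJac T = Matrix.diagonal fun j =>
      Polynomial.aeval (X j) (Polynomial.derivative (g j)) := by
    ext1 i j
    rw [fchJac, Matrix.of_apply, hT, pderiv_aeval, Matrix.diagonal_apply]
  have h2 : ∀ j : Fin N, (Polynomial.aeval (X j : MvPolynomial (Fin N) ℂ)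
      (Polynomial.derivative (g j))) =
      C (Polynomial.derivative (g j)).leadingCoeff * ((Polynomial.derivative (g j)).roots.map
        fun r => (X j - C r : MvPolynomial (Fin N) ℂ)).prod := by
    intro j
    conv_lhs => rw [(IsAlgClosed.splits (Polynomial.derivative (g j))).eq_prod_roots]
    rw [map_mul, Polynomial.aeval_C, map_multiset_prod, Multiset.map_map]
    congr 2
    refine Multiset.map_congr rfl fun r _ => ?_
    rw [Function.comp_apply, map_sub, Polynomial.aeval_X, Polynomial.aeval_C]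
    rfl
  rw [h1, Matrix.det_diagonal, Finset.prod_congr rfl fun j _ => h2 j, Finset.prod_mul_distrib,
    map_prod]
  congr 1
  induction (Finset.univ : Finset (Fin N)) using Finset.induction_on with
  | empty => simp
  | insert a s ha ih => rw [Finset.prod_insert ha, Finset.sum_insert ha, Multiset.prod_add, ih]

theorem split_data {d : ℕ} (hd : 2 ≤ d) (T : Fin N → MvPolynomial (Fin (N + 2)) ℂ)
    (g : Fin N → Polynomial ℂ) (hgd : ∀ j, (g j).natDegree = d)
    (hT : ∀ j, fch (T j) = Polynomial.aeval (X j) (g j)) (hpc : ∀ j, StrictlyPreperiodic (g j)) :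
    (∏ j, (Polynomial.derivative (g j)).leadingCoeff) ≠ 0 ∧
      ∀ J ∈ ∑ j, (Polynomial.derivative (g j)).roots.map
        fun r => (X j - C r : MvPolynomial (Fin N) ℂ), Escaping (fun i => fch (T i)) J := by
  have hne : ∀ j, Polynomial.derivative (g j) ≠ 0 := by
    intro j h
    have := Polynomial.derivative_eq_zero.1 h
    have := hgd j
    omega
  refine ⟨Finset.prod_ne_zero_iff.2 fun j _ => Polynomial.leadingCoeff_ne_zero.2 (hne j),
    fun J hJ => ?_⟩
  rw [Multiset.mem_sum] at hJ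
  obtain ⟨j, -, hj⟩ := hJ
  obtain ⟨r, hr, rfl⟩ := Multiset.mem_map.1 hj
  have h1 := hpc j r ((Polynomial.mem_roots (hne j)).1 hr)
  exact escaping_coord _ j (g j) (hT j) r h1.1 h1.2

/-- The forms `X_1 ^ d g_j(X_(j + 2) / X_1) + X_0 S_j`. -/
noncomputable def splitForms (d : ℕ) (g : Fin N → Polynomial ℂ)
    (S : Fin N → MvPolynomial (Fin (N + 2)) ℂ) : Fin N → MvPolynomial (Fin (N + 2)) ℂ :=
  fun j => hp d (g j) j.succ.succ 1 + X 0 * S j

/-- Split fibres of postcritically finite polynomials have the properties of `proj_all`. -/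
theorem splitForms_spec {d : ℕ} (hd : 2 ≤ d) (g : Fin N → Polynomial ℂ)
    (hgd : ∀ j, (g j).natDegree = d) (hpc : ∀ j, StrictlyPreperiodic (g j))
    (S : Fin N → MvPolynomial (Fin (N + 2)) ℂ) (hS : ∀ j, (S j).IsHomogeneous (d - 1)) :
    (∀ j, (splitForms d g S j).IsHomogeneous d) ∧
      (∀ y : Fin N → ℂ,
        (∀ j, eval (Fin.cons 0 (Fin.cons 0 y) : Fin (N + 2) → ℂ) (splitForms d g S j) = 0) →
          y = 0) ∧
      ∃ (c : ℂ) (m : Multiset (MvPolynomial (Fin N) ℂ)), c ≠ 0 ∧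
        (fchJac (splitForms d g S)).det = C c * m.prod ∧
        ∀ J ∈ m, Escaping (fun i => fch (splitForms d g S i)) J := by
  refine ⟨fun j => ?_, fun y hy => ?_, ?_⟩
  · refine (hp_homogeneous d (g j) j.succ.succ 1).add ?_
    have h1 : 1 + (d - 1) = d := by omega
    have := (isHomogeneous_X ℂ (0 : Fin (N + 2))).mul (hS j)
    rwa [h1] at this
  · funext j
    have h1 := hy j
    have h0 : (Fin.cons 0 (Fin.cons 0 y) : Fin (N + 2) → ℂ) 0 = 0 := rfl
    have h2 : (Fin.cons 0 (Fin.cons 0 y) : Fin (N + 2) → ℂ) 1 = 0 := rfl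
    have h3 : (Fin.cons 0 (Fin.cons 0 y) : Fin (N + 2) → ℂ) j.succ.succ = y j := rfl
    rw [splitForms, map_add, map_mul, eval_X, h0, zero_mul, add_zero, eval_hp, h2, h3,
      hv_zero_right] at h1
    have h4 : (g j).coeff d ≠ 0 := by
      rw [← hgd j]
      refine Polynomial.leadingCoeff_ne_zero.2 fun h => ?_
      have := hgd j
      rw [h, Polynomial.natDegree_zero] at this
      omega
    exact pow_eq_zero_iff (by omega : d ≠ 0) |>.1 ((mul_eq_zero.1 h1).resolve_left h4)
  · have hT : ∀ j, fch (splitForms d g S j) = Polynomial.aeval (X j) (g j) := fun j =>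
      fch_split d (g j) (hgd j).le j (S j)
    obtain ⟨h1, h2⟩ := split_data hd (splitForms d g S) g hgd hT hpc
    exact ⟨_, _, h1, det_split _ g hT, h2⟩

end Pool.Agent.Q118.SK
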