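import Mathlib

/-!
Iterated preimages of a fixed point with nonzero multiplier of a rational function (helper file).
-/

set_option autoImplicit false

namespace Pool.Agent.Q118.SK

open Polynomial

/-- The value `∑ q_k u ^ k w ^ (d - k)` of the homogenization of degree `d` of `q`. -/
def hv {R : Type*} [CommRing R] (d : ℕ) (q : R[X]) (u w : R) : R :=
  ∑ k ∈ Finset.range (d + 1), q.coeff k * u ^ k * w ^ (d - k)

/-- The map `(u, w) ↦ (b(u/w) w ^ d, a(u/w) w ^ d)`. -/
def bs {R : Type*} [CommRing R] (d : ℕ) (b a : R[X]) (v : R × R) : R × R :=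
  (hv d b v.1 v.2, hv d a v.1 v.2)

section ring

variable {R : Type*} [CommRing R]

theorem hv_smul (d : ℕ) (q : R[X]) (c u w : R) : hv d q (c * u) (c * w) = c ^ d * hv d q u w := by
  rw [hv, hv, Finset.mul_sum]
  refine Finset.sum_congr rfl fun k hk => ?_
  have h : k ≤ d := by have := Finset.mem_range.1 hk; omega
  rw [mul_pow, mul_pow]
  calc q.coeff k * (c ^ k * u ^ k) * (c ^ (d - k) * w ^ (d - k))
      = (c ^ k * c ^ (d - k)) * (q.coeff k * u ^ k * w ^ (d - k)) := by ring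
    _ = c ^ d * (q.coeff k * u ^ k * w ^ (d - k)) := by
      rw [← pow_add, Nat.add_sub_cancel' h]

theorem bs_smul (d : ℕ) (b a : R[X]) (c : R) (v : R × R) : bs d b a (c • v) = c ^ d • bs d b a v := by
  refine Prod.ext ?_ ?_
  · exact hv_smul d b c v.1 v.2
  · exact hv_smul d a c v.1 v.2

theorem hv_one (d : ℕ) (q : R[X]) (hq : q.natDegree ≤ d) (z : R) : hv d q z 1 = q.eval z := by
  rw [hv, eval_eq_sum_range' (n := d + 1) (by omega)]
  refine Finset.sum_congr rfl fun k _ => ?_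
  rw [one_pow, mul_one]

theorem hv_zero_left (d : ℕ) (q : R[X]) (w : R) : hv d q 0 w = q.coeff 0 * w ^ d := by
  rw [hv, Finset.sum_eq_single 0]
  · simp
  · intro k _ hk
    rw [zero_pow hk, mul_zero, zero_mul]
  · intro h
    exact absurd (Finset.mem_range.2 (Nat.succ_pos d)) h

theorem hv_zero_right (d : ℕ) (q : R[X]) (u : R) : hv d q u 0 = q.coeff d * u ^ d := by
  rw [hv, Finset.sum_eq_single d]
  · simp
  · intro k hk hkd
    have h : d - k ≠ 0 := by have := Finset.mem_range.1 hk; omega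
    rw [zero_pow h, mul_zero]
  · intro h
    exact absurd (Finset.mem_range.2 (Nat.lt_succ_self d)) h

theorem hv_sub (d : ℕ) (q q' : R[X]) (c c' u w : R) :
    hv d (C c * q - C c' * q') u w = c * hv d q u w - c' * hv d q' u w := by
  rw [hv, hv, hv, Finset.mul_sum, Finset.mul_sum, ← Finset.sum_sub_distrib]
  refine Finset.sum_congr rfl fun k _ => ?_
  rw [coeff_sub, coeff_C_mul, coeff_C_mul]
  ring

theorem hv_divX (d : ℕ) (hd : 1 ≤ d) (b : R[X]) (hb : b.coeff 0 = 0) (u w : R) :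
    hv d b u w = u * hv (d - 1) b.divX u w := by
  obtain ⟨e, rfl⟩ : ∃ e, d = e + 1 := ⟨d - 1, by omega⟩
  rw [hv, Finset.sum_range_succ', hb, zero_mul, zero_mul, add_zero, Nat.add_sub_cancel, hv,
    Finset.mul_sum]
  refine Finset.sum_congr rfl fun k _ => ?_
  rw [coeff_divX, Nat.add_sub_add_right]
  ring

theorem hv_map {S : Type*} [CommRing S] (f : R →+* S) (d : ℕ) (q : R[X]) (u w : R) :
    hv d (q.map f) (f u) (f w) = f (hv d q u w) := by
  rw [hv, hv, map_sum]
  refine Finset.sum_congr rfl fun k _ => ?_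
  rw [map_mul, map_mul, map_pow, map_pow, coeff_map]

theorem bs_iter_map {S : Type*} [CommRing S] (f : R →+* S) (d : ℕ) (b a : R[X]) (v : R × R)
    (n : ℕ) : (bs d (b.map f) (a.map f))^[n] (f v.1, f v.2) =
      (f ((bs d b a)^[n] v).1, f ((bs d b a)^[n] v).2) := by
  induction n with
  | zero => rfl
  | succ n ih =>
    rw [Function.iterate_succ_apply', ih, Function.iterate_succ_apply']
    refine Prod.ext ?_ ?_
    · exact hv_map f d b _ _
    · exact hv_map f d a _ _

end ring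

section field

variable {k : Type*} [Field k]

/-- Proportional vectors. -/
theorem exists_smul {v v' : k × k} (hv0 : v ≠ 0) (hv' : v' ≠ 0) (h : v.1 * v'.2 = v.2 * v'.1) :
    ∃ c : k, c ≠ 0 ∧ v' = c • v := by
  by_cases h1 : v.1 = 0
  · have h2 : v.2 ≠ 0 := fun h2 => hv0 (Prod.ext h1 h2)
    rw [h1, zero_mul] at h
    have h3 : v'.1 = 0 := (mul_eq_zero.1 h.symm).resolve_left h2
    have h4 : v'.2 ≠ 0 := fun h4 => hv' (Prod.ext h3 h4)
    refine ⟨v'.2 / v.2, div_ne_zero h4 h2, Prod.ext ?_ ?_⟩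
    · rw [Prod.smul_fst, h1, smul_zero, h3]
    · rw [Prod.smul_snd, smul_eq_mul, div_mul_cancel₀ _ h2]
  · by_cases h3 : v'.1 = 0
    · rw [h3, mul_zero] at h
      exact absurd (Prod.ext h3 ((mul_eq_zero.1 h).resolve_left h1)) hv'
    · refine ⟨v'.1 / v.1, div_ne_zero h3 h1, Prod.ext ?_ ?_⟩
      · rw [Prod.smul_fst, smul_eq_mul, div_mul_cancel₀ _ h1]
      · rw [Prod.smul_snd, smul_eq_mul, div_mul_eq_mul_div, eq_div_iff h1]
        linear_combination h

theorem bs_ne_zero {d : ℕ} {b a : k[X]} (hb : b.natDegree ≤ d) (ha : a.natDegree ≤ d)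
    (hcop : IsCoprime a b) (hlead : a.coeff d ≠ 0 ∨ b.coeff d ≠ 0) {v : k × k} (hv0 : v ≠ 0) :
    bs d b a v ≠ 0 := by
  intro h
  have h1 : hv d b v.1 v.2 = 0 := congrArg Prod.fst h
  have h2 : hv d a v.1 v.2 = 0 := congrArg Prod.snd h
  by_cases hw : v.2 = 0
  · have hu : v.1 ≠ 0 := fun hu => hv0 (Prod.ext hu hw)
    rw [hw, hv_zero_right] at h1 h2
    have hp := pow_ne_zero d hu
    rcases hlead with h3 | h3
    · exact mul_ne_zero h3 hp h2
    · exact mul_ne_zero h3 hp h1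
  · have e1 : v.1 = v.2 * (v.1 / v.2) := by rw [mul_div_cancel₀ _ hw]
    have e2 : v.2 = v.2 * 1 := (mul_one _).symm
    have h3 : ∀ q : k[X], q.natDegree ≤ d → hv d q v.1 v.2 = v.2 ^ d * q.eval (v.1 / v.2) := by
      intro q hq
      have := hv_smul d q v.2 (v.1 / v.2) 1
      rwa [mul_div_cancel₀ _ hw, mul_one, hv_one d q hq] at this
    rw [h3 b hb] at h1
    rw [h3 a ha] at h2
    have hp := pow_ne_zero d hw
    have h4 := (mul_eq_zero.1 h1).resolve_left hp
    have h5 := (mul_eq_zero.1 h2).resolve_left hp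
    obtain ⟨r, s, hrs⟩ := hcop
    have h6 := congrArg (eval (v.1 / v.2)) hrs
    rw [eval_add, eval_mul, eval_mul, h4, h5, mul_zero, mul_zero, add_zero, eval_one] at h6
    exact one_ne_zero h6.symm

theorem exists_root [IsAlgClosed k] {d : ℕ} (hd : 1 ≤ d) (q : k[X]) (hq : q.natDegree ≤ d) :
    ∃ v : k × k, v ≠ 0 ∧ hv d q v.1 v.2 = 0 := by
  by_cases h0 : q.degree = 0
  · refine ⟨(1, 0), fun h => one_ne_zero (congrArg Prod.fst h), ?_⟩
    have h1 : q.coeff d = 0 := by
      apply coeff_eq_zero_of_degree_lt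
      rw [h0]
      exact_mod_cast hd
    change hv d q 1 0 = 0
    rw [hv_zero_right, h1, zero_mul]
  · obtain ⟨z, hz⟩ := IsAlgClosed.exists_root q h0
    refine ⟨(z, 1), fun h => one_ne_zero (congrArg Prod.snd h), ?_⟩
    change hv d q z 1 = 0
    rw [hv_one d q hq]
    exact hz

variable [IsAlgClosed k] {d : ℕ} (hd : 2 ≤ d) {b a : k[X]} (hb : b.natDegree ≤ d)
  (ha : a.natDegree ≤ d) (hcop : IsCoprime a b) (hlead : a.coeff d ≠ 0 ∨ b.coeff d ≠ 0)
  (hb0 : b.coeff 0 = 0) (hb1 : b.coeff 1 ≠ 0)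

include hd hb ha in
theorem exists_preimage (v : k × k) : ∃ v' : k × k, v' ≠ 0 ∧
    v.1 * (bs d b a v').2 = v.2 * (bs d b a v').1 := by
  obtain ⟨v', h1, h2⟩ := exists_root (d := d) (by omega) (C v.2 * b - C v.1 * a) (by
    refine (natDegree_sub_le _ _).trans (max_le ?_ ?_)
    · exact (natDegree_C_mul_le _ _).trans hb
    · exact (natDegree_C_mul_le _ _).trans ha)
  refine ⟨v', h1, ?_⟩
  rw [hv_sub] at h2
  exact (sub_eq_zero.1 h2).symm

/-- `v` reaches the fixed point after exactly `i` steps. -/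
def At (d : ℕ) (b a : k[X]) (i : ℕ) (v : k × k) : Prop :=
  v ≠ 0 ∧ ((bs d b a)^[i] v).1 = 0 ∧ ∀ j < i, ((bs d b a)^[j] v).1 ≠ 0

omit [IsAlgClosed k] in
theorem iter_smul (c : k) (hc : c ≠ 0) (v : k × k) (n : ℕ) :
    ∃ c' : k, c' ≠ 0 ∧ (bs d b a)^[n] (c • v) = c' • (bs d b a)^[n] v := by
  induction n with
  | zero => exact ⟨c, hc, rfl⟩
  | succ n ih =>
    obtain ⟨c', h1, h2⟩ := ih
    refine ⟨c' ^ d, pow_ne_zero d h1, ?_⟩
    rw [Function.iterate_succ_apply', h2, bs_smul, Function.iterate_succ_apply']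

omit [IsAlgClosed k] in
theorem At.smul {i : ℕ} {v : k × k} (h : At d b a i v) (c : k) (hc : c ≠ 0) :
    At d b a i (c • v) := by
  refine ⟨smul_ne_zero hc h.1, ?_, fun j hj => ?_⟩
  · obtain ⟨c', -, h2⟩ := iter_smul (d := d) (b := b) (a := a) c hc v i
    rw [h2, Prod.smul_fst, h.2.1, smul_zero]
  · obtain ⟨c', h1, h2⟩ := iter_smul (d := d) (b := b) (a := a) c hc v j
    rw [h2, Prod.smul_fst]
    exact smul_ne_zero h1 (h.2.2 j hj)

omit [IsAlgClosed k] in
theorem At.unique {i j : ℕ} {v : k × k} (h : At d b a i v) (h' : At d b a j v) : i = j := by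
  rcases lt_trichotomy i j with h1 | h1 | h1
  · exact absurd h.2.1 (h'.2.2 i h1)
  · exact h1
  · exact absurd h'.2.1 (h.2.2 j h1)

omit [IsAlgClosed k] in
theorem At.ne {i j : ℕ} (hij : i ≠ j) {v v' : k × k} (h : At d b a i v) (h' : At d b a j v') :
    v.1 * v'.2 ≠ v.2 * v'.1 := by
  intro hcr
  obtain ⟨c, hc, rfl⟩ := exists_smul h.1 h'.1 hcr
  exact hij ((h.smul c hc).unique h')

include hd hb ha hcop hlead hb0 in
theorem At.step {i : ℕ} (hi : 1 ≤ i) {v : k × k} (h : At d b a i v) :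
    ∃ v', At d b a (i + 1) v' := by
  obtain ⟨v', h1, h2⟩ := exists_preimage hd hb ha v
  have h3 := bs_ne_zero hb ha hcop hlead h1
  obtain ⟨c, hc, h4⟩ := exists_smul h.1 h3 h2
  have h5 := h.smul c hc
  rw [← h4] at h5
  refine ⟨v', h1, ?_, fun j hj => ?_⟩
  · rw [Function.iterate_succ_apply]
    exact h5.2.1
  · rcases j with _ | j
    · intro h6
      have h7 : v'.1 = 0 := h6
      have h8 := h5.2.2 0 (by omega)
      apply h8
      change hv d b v'.1 v'.2 = 0
      rw [h7, hv_zero_left, hb0, zero_mul]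
    · rw [Function.iterate_succ_apply]
      exact h5.2.2 j (by omega)

include hd hb ha hcop hlead hb0 hb1 in
/-- Three points which reach the fixed point. -/
theorem exists_three : ∃ (γ : Fin 3 → k) (e : Fin 3 → ℕ), Function.Injective γ ∧
    ∀ i, ((bs d b a)^[e i] (γ i, 1)).1 = 0 := by
  have h0 : At d b a 0 ((0, 1) : k × k) :=
    ⟨fun h => one_ne_zero (congrArg Prod.snd h), rfl, fun j hj => absurd hj (Nat.not_lt_zero j)⟩
  -- the first preimage
  obtain ⟨v1, h1⟩ : ∃ v, At d b a 1 v := by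
    obtain ⟨v, hv0, hv1⟩ := exists_root (d := d - 1) (by omega) b.divX (by
      rw [natDegree_divX_eq_natDegree_tsub_one]
      omega)
    have hne : v.1 ≠ 0 := by
      intro h
      have hw : v.2 ≠ 0 := fun hw => hv0 (Prod.ext h hw)
      rw [h, hv_zero_left, coeff_divX] at hv1
      exact mul_ne_zero hb1 (pow_ne_zero _ hw) hv1
    refine ⟨v, hv0, ?_, fun j hj => ?_⟩
    · change hv d b v.1 v.2 = 0
      rw [hv_divX d (by omega) b hb0, hv1, mul_zero]
    · have : j = 0 := by omega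
      subst this
      exact hne
  obtain ⟨v2, h2⟩ := h1.step hd hb ha hcop hlead hb0 le_rfl
  obtain ⟨v3, h3⟩ := h2.step hd hb ha hcop hlead hb0 (by norm_num)
  -- normalization
  have norm : ∀ {i : ℕ} {v : k × k}, At d b a i v → v.2 ≠ 0 → At d b a i (v.1 / v.2, 1) := by
    intro i v h hw
    have h4 := h.smul (v.2⁻¹) (inv_ne_zero hw)
    have h5 : v.2⁻¹ • v = (v.1 / v.2, 1) := by
      refine Prod.ext ?_ ?_
      · rw [Prod.smul_fst, smul_eq_mul, div_eq_inv_mul]
      · rw [Prod.smul_snd, smul_eq_mul, inv_mul_cancel₀ hw]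
    rwa [h5] at h4
  have two : ∀ {i j : ℕ} {v v' : k × k}, i ≠ j → At d b a i v → At d b a j v' →
      v.2 ≠ 0 ∨ v'.2 ≠ 0 := by
    intro i j v v' hij h h'
    by_contra hcon
    push Not at hcon
    apply h.ne hij h'
    rw [hcon.1, hcon.2, mul_zero, zero_mul]
  -- two of the three points
  obtain ⟨i, j, x, y, hi, hj, hij, hx, hy⟩ : ∃ (i j : ℕ) (x y : k), i ≠ 0 ∧ j ≠ 0 ∧ i ≠ j ∧
      At d b a i (x, 1) ∧ At d b a j (y, 1) := by
    by_cases hw1 : v1.2 = 0
    · have hw2 := (two (by norm_num) h1 h2).resolve_left (not_not.2 hw1)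
      have hw3 := (two (by norm_num) h1 h3).resolve_left (not_not.2 hw1)
      exact ⟨2, 3, _, _, by norm_num, by norm_num, by norm_num, norm h2 hw2, norm h3 hw3⟩
    · rcases two (by norm_num) h2 h3 with hw | hw
      · exact ⟨1, 2, _, _, by norm_num, by norm_num, by norm_num, norm h1 hw1, norm h2 hw⟩
      · exact ⟨1, 3, _, _, by norm_num, by norm_num, by norm_num, norm h1 hw1, norm h3 hw⟩
  have key : ∀ {i j : ℕ} {x y : k}, i ≠ j → At d b a i (x, 1) → At d b a j (y, 1) → x ≠ y := by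
    intro i j x y hij h h' hxy
    apply h.ne hij h'
    change x * 1 = 1 * y
    rw [mul_one, one_mul, hxy]
  have e1 : (0 : k) ≠ x := key (Ne.symm hi) h0 hx
  have e2 : (0 : k) ≠ y := key (Ne.symm hj) h0 hy
  have e3 : x ≠ y := key hij hx hy
  refine ⟨![0, x, y], ![0, i, j], ?_, ?_⟩
  · intro p q hpq
    fin_cases p <;> fin_cases q <;> simp_all
  · intro p
    fin_cases p
    · exact h0.2.1
    · exact hx.2.1
    · exact hy.2.1

end field

end Pool.Agent.Q118.SK
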