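import Pool.Agent.Q118.SK.Chain
import Pool.Agent.H936R2.Poly

/-!
Skew systems of forms over a rational function of the projective line and their matrices of partial
derivatives on the fibre over zero (helper file).
-/

set_option autoImplicit false
set_option linter.unusedSimpArgs false

namespace Pool.Agent.Q118.SK

open MvPolynomial Pool.Agent.H936R2

variable {N : ℕ}

/-- The homogenization `∑ q_k X_i ^ k X_j ^ (d - k)` of `q`. -/
noncomputable def hp (d : ℕ) (q : Polynomial ℂ) (i j : Fin (N + 2)) :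
    MvPolynomial (Fin (N + 2)) ℂ :=
  ∑ k ∈ Finset.range (d + 1), C (q.coeff k) * X i ^ k * X j ^ (d - k)

/-- The system `X_1 ^ d b(X_0 / X_1)`, `X_1 ^ d a(X_0 / X_1)`,
`X_1 ^ d g_j(X_(j + 2) / X_1) + X_0 S_j`. -/
noncomputable def sys (d : ℕ) (b a : Polynomial ℂ) (g : Fin N → Polynomial ℂ)
    (S : Fin N → MvPolynomial (Fin (N + 2)) ℂ) : Fin (N + 2) → MvPolynomial (Fin (N + 2)) ℂ :=
  Fin.cons (hp d b 0 1) (Fin.cons (hp d a 0 1) fun j => hp d (g j) j.succ.succ 1 + X 0 * S j)

theorem eval_hp (d : ℕ) (q : Polynomial ℂ) (i j : Fin (N + 2)) (x : Fin (N + 2) → ℂ) :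
    eval x (hp d q i j) = hv d q (x i) (x j) := by
  rw [hp, hv, map_sum]
  refine Finset.sum_congr rfl fun k _ => ?_
  simp only [map_mul, map_pow, eval_C, eval_X]

theorem hp_homogeneous (d : ℕ) (q : Polynomial ℂ) (i j : Fin (N + 2)) :
    (hp d q i j).IsHomogeneous d := by
  refine IsHomogeneous.sum _ _ _ fun k hk => ?_
  have h : k ≤ d := by have := Finset.mem_range.1 hk; omega
  have h1 : 0 + k + (d - k) = d := by omega
  have := ((isHomogeneous_C (Fin (N + 2)) (q.coeff k)).mul (isHomogeneous_X_pow (R := ℂ) i k)).mul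
    (isHomogeneous_X_pow (R := ℂ) j (d - k))
  rwa [h1] at this

theorem sys_zero (d : ℕ) (b a : Polynomial ℂ) (g : Fin N → Polynomial ℂ)
    (S : Fin N → MvPolynomial (Fin (N + 2)) ℂ) : sys d b a g S 0 = hp d b 0 1 := rfl

theorem sys_one (d : ℕ) (b a : Polynomial ℂ) (g : Fin N → Polynomial ℂ)
    (S : Fin N → MvPolynomial (Fin (N + 2)) ℂ) : sys d b a g S 1 = hp d a 0 1 := rfl

theorem sys_succ (d : ℕ) (b a : Polynomial ℂ) (g : Fin N → Polynomial ℂ)
    (S : Fin N → MvPolynomial (Fin (N + 2)) ℂ) (j : Fin N) :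
    sys d b a g S j.succ.succ = hp d (g j) j.succ.succ 1 + X 0 * S j := rfl

theorem sys_homogeneous {d : ℕ} (hd : 1 ≤ d) (b a : Polynomial ℂ) (g : Fin N → Polynomial ℂ)
    (S : Fin N → MvPolynomial (Fin (N + 2)) ℂ) (hS : ∀ j, (S j).IsHomogeneous (d - 1)) :
    ∀ i, (sys d b a g S i).IsHomogeneous d := by
  intro i
  refine Fin.cases (hp_homogeneous d b 0 1) (fun i => ?_) i
  refine Fin.cases (hp_homogeneous d a 0 1) (fun j => ?_) i
  rw [sys_succ]
  refine (hp_homogeneous _ _ _ _).add ?_
  have := (isHomogeneous_X ℂ (0 : Fin (N + 2))).mul (hS j)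
  rwa [show 1 + (d - 1) = d by omega] at this

/-- The first two coordinates of the iterates. -/
theorem pt_base (d : ℕ) (b a : Polynomial ℂ) (g : Fin N → Polynomial ℂ)
    (S : Fin N → MvPolynomial (Fin (N + 2)) ℂ) (x : Fin (N + 2) → ℂ) (n : ℕ) :
    ((pt (sys d b a g S))^[n] x 0, (pt (sys d b a g S))^[n] x 1) = (bs d b a)^[n] (x 0, x 1) := by
  induction n with
  | zero => rfl
  | succ n ih =>
    rw [Function.iterate_succ_apply', Function.iterate_succ_apply', ← ih]
    refine Prod.ext ?_ ?_
    · change eval _ (sys d b a g S 0) = _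
      rw [sys_zero, eval_hp]
      rfl
    · change eval _ (sys d b a g S 1) = _
      rw [sys_one, eval_hp]
      rfl

/-- One step on the fibre over zero. -/
theorem pt_fibre {d : ℕ} (b a : Polynomial ℂ) (hb0 : b.coeff 0 = 0) (ha0 : a.coeff 0 = 1)
    (g : Fin N → Polynomial ℂ) (S : Fin N → MvPolynomial (Fin (N + 2)) ℂ)
    (x : Fin (N + 2) → ℂ) (hx : x 0 = 0) :
    pt (sys d b a g S) x 0 = 0 ∧ pt (sys d b a g S) x 1 = x 1 ^ d ∧
      ∀ j : Fin N, pt (sys d b a g S) x j.succ.succ = hv d (g j) (x j.succ.succ) (x 1) := by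
  refine ⟨?_, ?_, fun j => ?_⟩
  · change eval x (sys d b a g S 0) = 0
    rw [sys_zero, eval_hp, hx, hv_zero_left, hb0, zero_mul]
  · change eval x (sys d b a g S 1) = _
    rw [sys_one, eval_hp, hx, hv_zero_left, ha0, one_mul]
  · change eval x (sys d b a g S j.succ.succ) = _
    rw [sys_succ, map_add, eval_hp, map_mul, eval_X, hx, zero_mul, add_zero]

theorem pderiv_hp_ne (d : ℕ) (q : Polynomial ℂ) (i j l : Fin (N + 2)) (hi : i ≠ l) (hj : j ≠ l) :
    pderiv l (hp d q i j) = 0 := by
  rw [hp, map_sum]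
  refine Finset.sum_eq_zero fun k _ => ?_
  rw [pderiv_mul, pderiv_mul, pderiv_C, pderiv_pow, pderiv_pow, pderiv_X_of_ne hi,
    pderiv_X_of_ne hj]
  ring

/-- The partial derivative with respect to the first variable. -/
theorem eval_pderiv_hp_left (d : ℕ) (q : Polynomial ℂ) (i j : Fin (N + 2)) (hij : j ≠ i)
    (x : Fin (N + 2) → ℂ) :
    eval x (pderiv i (hp (d + 1) q i j)) = hv d (Polynomial.derivative q) (x i) (x j) := by
  rw [hp, map_sum, map_sum, Finset.sum_range_succ', hv]
  have h0 : eval x (pderiv i (C (q.coeff 0) * X i ^ 0 * X j ^ (d + 1 - 0))) = 0 := by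
    rw [pderiv_mul, pderiv_mul, pderiv_C, pderiv_pow, pderiv_pow, pderiv_X_of_ne hij]
    simp
  rw [h0, add_zero]
  refine Finset.sum_congr rfl fun k _ => ?_
  rw [pderiv_mul, pderiv_mul, pderiv_C, pderiv_pow, pderiv_pow, pderiv_X_of_ne hij,
    pderiv_X_self, Polynomial.coeff_derivative, show d + 1 - (k + 1) = d - k by omega,
    show k + 1 - 1 = k by omega]
  simp only [map_mul, map_pow, eval_C, eval_X, map_natCast,
    mul_zero, add_zero, zero_mul, zero_add, mul_one]
  push_cast
  ring

/-- The partial derivative with respect to the second variable on the fibre. -/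
theorem eval_pderiv_hp_right (d : ℕ) (q : Polynomial ℂ) (i j : Fin (N + 2)) (hij : i ≠ j)
    (x : Fin (N + 2) → ℂ) (hx : x i = 0) :
    eval x (pderiv j (hp (d + 1) q i j)) = (d + 1) * q.coeff 0 * x j ^ d := by
  rw [hp, map_sum, map_sum, Finset.sum_eq_single 0]
  · rw [pderiv_mul, pderiv_mul, pderiv_C, pderiv_pow, pderiv_pow, pderiv_X_of_ne hij,
      pderiv_X_self]
    simp only [map_add, map_mul, map_pow, eval_C, eval_X, map_natCast, map_one, map_zero,
      mul_zero, add_zero, zero_mul, zero_add, mul_one, Nat.sub_zero, pow_zero,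
      Nat.add_sub_cancel]
    push_cast
    ring
  · intro k _ hk
    rw [pderiv_mul, pderiv_mul, pderiv_C, pderiv_pow, pderiv_pow, pderiv_X_of_ne hij,
      pderiv_X_self]
    simp only [map_add, map_mul, map_pow, eval_C, eval_X, map_natCast, map_one, map_zero,
      mul_zero, add_zero, zero_mul, zero_add, mul_one, hx, zero_pow hk]
  · intro h
    exact absurd (Finset.mem_range.2 (Nat.succ_pos _)) h

/-- The determinant of the matrix of partial derivatives on the fibre over zero. -/
theorem det_fibre (d : ℕ) (b a : Polynomial ℂ) (hb0 : b.coeff 0 = 0) (ha0 : a.coeff 0 = 1)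
    (g : Fin N → Polynomial ℂ) (S : Fin N → MvPolynomial (Fin (N + 2)) ℂ)
    (x : Fin (N + 2) → ℂ) (hx : x 0 = 0) :
    (jac (sys (d + 1) b a g S) x).det = (b.coeff 1 * x 1 ^ d) * (((d : ℂ) + 1) * x 1 ^ d) *
      ∏ j : Fin N, hv d (Polynomial.derivative (g j)) (x j.succ.succ) (x 1) := by
  have hlow : (jac (sys (d + 1) b a g S) x).IsLowerTriangular := by
    intro i j hij
    have hij' : i < j := hij
    change eval x (pderiv j (sys (d + 1) b a g S i)) = 0
    induction i using Fin.cases with
    | zero =>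
      rw [sys_zero]
      by_cases hj : j = 1
      · subst hj
        rw [eval_pderiv_hp_right d b 0 1 (by simp) x hx, hb0]
        ring
      · rw [pderiv_hp_ne _ _ _ _ _ (ne_of_lt hij') (fun h => hj h.symm), map_zero]
    | succ i =>
      induction i using Fin.cases with
      | zero =>
        change eval x (pderiv j (sys (d + 1) b a g S 1)) = 0
        have h1 : (1 : Fin (N + 2)) < j := hij'
        have h0 : (0 : Fin (N + 2)) ≠ j := fun h => by
          rw [← h] at h1
          exact absurd h1 (Nat.not_lt_zero _)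
        rw [sys_one, pderiv_hp_ne _ _ _ _ _ h0 (ne_of_lt h1), map_zero]
      | succ i =>
        have h1 : (1 : Fin (N + 2)) ≠ j := by
          intro h
          rw [← h] at hij'
          have := Fin.lt_def.1 hij'
          simp at this
        have h0 : (0 : Fin (N + 2)) ≠ j := by
          intro h
          rw [← h] at hij'
          exact absurd hij' (Nat.not_lt_zero _)
        rw [sys_succ, map_add, pderiv_hp_ne _ _ _ _ _ (ne_of_lt hij') h1, pderiv_mul,
          pderiv_X_of_ne h0]
        simp only [map_add, map_mul, eval_X, hx, zero_mul, map_zero, add_zero]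
  rw [Matrix.det_of_isLowerTriangular _ hlow, Fin.prod_univ_succ, Fin.prod_univ_succ, ← mul_assoc]
  congr 1
  · congr 1
    · change eval x (pderiv 0 (sys (d + 1) b a g S 0)) = _
      rw [sys_zero, eval_pderiv_hp_left d b 0 1 (by simp) x, hx, hv_zero_left,
        Polynomial.coeff_derivative]
      simp
    · change eval x (pderiv 1 (sys (d + 1) b a g S 1)) = _
      rw [sys_one, eval_pderiv_hp_right d a 0 1 (by simp) x hx, ha0]
      ring
  · refine Finset.prod_congr rfl fun j _ => ?_
    change eval x (pderiv j.succ.succ (sys (d + 1) b a g S j.succ.succ)) = _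
    have h0 : (0 : Fin (N + 2)) ≠ j.succ.succ := fun h => by
      have := congrArg Fin.val h
      simp at this
    have h1 : (1 : Fin (N + 2)) ≠ j.succ.succ := fun h => by
      have := congrArg Fin.val h
      simp at this
    rw [sys_succ, map_add, pderiv_mul, pderiv_X_of_ne h0, map_add,
      eval_pderiv_hp_left d (g j) j.succ.succ 1 h1 x]
    simp only [map_add, map_mul, eval_X, hx, zero_mul, map_zero, add_zero]

end Pool.Agent.Q118.SK
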