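import Pool.Agent.Q118.SK.Crit
import Pool.Agent.Q118.SK.Sys

/-!
The orbits whose reduction reaches the fibre over zero (helper file).
-/

set_option autoImplicit false

namespace Pool.Agent.Q118.SK

open MvPolynomial Pool.Agent.H936R2 Pool.Agent.Y199.DM

/-- The property passes from an iterate to the point. -/
theorem dmlAt_of_iterate {N : ℕ} (F : Fin (N + 1) → MvPolynomial (Fin (N + 1)) ℂ)
    (x : Fin (N + 1) → ℂ) (m : ℕ) (hne : ∀ n, (pt F)^[n] x ≠ 0) (h : DMLAt F ((pt F)^[m] x)) :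
    DMLAt F x := by
  classical
  refine ⟨hne, fun S => ?_⟩
  obtain ⟨T, hT⟩ := h.2 S
  refine ⟨T.image (fun q => (q.1, q.2 + m)) ∪
    ((Finset.range m).filter fun n => ∀ g ∈ S, eval ((pt F)^[n] x) g = 0).image fun n => (0, n), ?_⟩
  ext n
  simp only [Set.mem_ofPred_eq, Finset.mem_union, Finset.mem_image, Finset.mem_filter,
    Finset.mem_range]
  constructor
  · intro hn
    by_cases hm : n < m
    · exact ⟨(0, n), Or.inr ⟨n, ⟨hm, hn⟩, rfl⟩, 0, by simp⟩
    · obtain ⟨l, rfl⟩ := Nat.exists_eq_add_of_le (not_lt.1 hm)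
      have h1 : l ∈ {n : ℕ | ∀ g ∈ S, eval ((pt F)^[n] ((pt F)^[m] x)) g = 0} := by
        intro g hg
        rw [← Function.iterate_add_apply, Nat.add_comm l m]
        exact hn g hg
      rw [hT] at h1
      obtain ⟨q, hq, k, hk⟩ := h1
      exact ⟨(q.1, q.2 + m), Or.inl ⟨q, hq, rfl⟩, k, by
        change m + l = q.1 * k + (q.2 + m)
        omega⟩
  · rintro ⟨q, hq | hq, k, hk⟩
    · obtain ⟨q', hq', rfl⟩ := hq
      have h1 : q'.1 * k + q'.2 ∈ {n : ℕ | ∀ g ∈ S, eval ((pt F)^[n] ((pt F)^[m] x)) g = 0} := by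
        rw [hT]
        exact ⟨q', hq', k, rfl⟩
      have h2 : n = q'.1 * k + q'.2 + m := by
        rw [hk]
        change q'.1 * k + (q'.2 + m) = q'.1 * k + q'.2 + m
        omega
      intro g hg
      have h3 := h1 g hg
      rw [← Function.iterate_add_apply, ← h2] at h3
      exact h3
    · obtain ⟨n', ⟨-, hn'⟩, rfl⟩ := hq
      have h2 : n = n' := by
        rw [hk]
        change 0 * k + n' = n'
        omega
      rw [h2]
      exact hn'

theorem hv_div {d : ℕ} (q : Polynomial ℂ) (hq : q.natDegree ≤ d) (u w : ℂ) (hw : w ≠ 0) :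
    hv d q u w = w ^ d * q.eval (u / w) := by
  have := hv_smul d q w (u / w) 1
  rwa [mul_div_cancel₀ _ hw, mul_one, hv_one d q hq] at this

/-- Orbits whose reduction meets the fibre over zero. -/
theorem core {N e : ℕ} (b a : Polynomial ℂ) (hb0 : b.coeff 0 = 0) (ha0 : a.coeff 0 = 1)
    (hb1 : b.coeff 1 ≠ 0) (g : Fin N → Polynomial ℂ)
    (hgd : ∀ j, (g j).natDegree ≤ e + 1) (hg0 : ∀ j, Polynomial.derivative (g j) ≠ 0)
    (hpc : ∀ j, StrictlyPreperiodic (g j)) (S : Fin N → MvPolynomial (Fin (N + 2)) ℂ) :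
    ∃ s : Finset ℂ, ∀ (p : ℕ) [Fact p.Prime] (τ : ℂ →+* PadicAlgCl p), (∀ y ∈ s, ‖τ y‖ ≤ 1) →
      (∀ i κ, ‖τ ((sys (e + 1) b a g S i).coeff κ)‖ ≤ 1) ∧
      ∀ x : Fin (N + 2) → ℂ, (∀ i, ‖τ (x i)‖ ≤ 1) → ‖τ (x 0)‖ < 1 → ‖τ (x 1)‖ = 1 →
        DMLAt (sys (e + 1) b a g S) x := by
  classical
  choose sg hsg using fun j => exists_data (g j) (hg0 j) (hpc j)
  let F := sys (e + 1) b a g S
  let s : Finset ℂ := (Finset.univ.biUnion fun i : Fin (N + 2) => (F i).support.image
    fun κ => (F i).coeff κ) ∪ {b.coeff 1, (b.coeff 1)⁻¹, ((e : ℂ) + 1)⁻¹} ∪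
      Finset.univ.biUnion sg
  refine ⟨s, fun p _ τ hτ => ?_⟩
  have hF : ∀ i κ, ‖τ ((F i).coeff κ)‖ ≤ 1 := by
    intro i κ
    by_cases hκ : κ ∈ (F i).support
    · apply hτ
      simp only [s, Finset.mem_union]
      exact Or.inl (Or.inl (Finset.mem_biUnion.2 ⟨i, Finset.mem_univ _,
        Finset.mem_image.2 ⟨κ, hκ, rfl⟩⟩))
    · rw [notMem_support_iff.1 hκ, map_zero, norm_zero]
      exact zero_le_one
  refine ⟨hF, fun x hx hx0 hx1 => ?_⟩
  have hsub : ∀ j, ∀ y ∈ sg j, ‖τ y‖ ≤ 1 := by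
    intro j y hy
    apply hτ
    simp only [s, Finset.mem_union]
    exact Or.inr (Finset.mem_biUnion.2 ⟨j, Finset.mem_univ _, hy⟩)
  have hb1n : ‖τ (b.coeff 1)‖ = 1 :=
    norm_one τ hb1 (hτ _ (by simp [s])) (hτ _ (by simp [s]))
  have hen : ‖τ ((e : ℂ) + 1)‖ = 1 := by
    refine norm_one τ (by exact_mod_cast Nat.succ_ne_zero e) ?_ (hτ _ (by simp [s]))
    exact (Oi τ).add_mem (natCast_mem (Oi τ) e) (Oi τ).one_mem
  -- the point on the fibre
  let P : Fin (N + 2) → ℂ := Function.update x 0 0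
  have hP0 : P 0 = 0 := Function.update_self _ _ _
  have hPi : ∀ i, i ≠ 0 → P i = x i := fun i hi => Function.update_of_ne hi _ _
  have hPint : ∀ i, ‖τ (P i)‖ ≤ 1 := by
    intro i
    by_cases hi : i = 0
    · rw [hi, hP0, map_zero, norm_zero]
      exact zero_le_one
    · rw [hPi i hi]
      exact hx i
  have h10 : (1 : Fin (N + 2)) ≠ 0 := by simp
  let y : ℕ → Fin (N + 2) → ℂ := fun n => (pt F)^[n] P
  have hys : ∀ n, y (n + 1) = pt F (y n) := fun n => Function.iterate_succ_apply' _ _ _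
  have hyint : ∀ n i, ‖τ (y n i)‖ ≤ 1 := by
    intro n
    induction n with
    | zero => exact hPint
    | succ n ih =>
      intro i
      rw [hys]
      exact eval_mem_subring (Oi τ) (y n) ih (F i) (hF i)
  have hy0 : ∀ n, y n 0 = 0 := by
    intro n
    induction n with
    | zero => exact hP0
    | succ n ih =>
      rw [hys]
      exact (pt_fibre b a hb0 ha0 g S (y n) ih).1
  have hy1s : ∀ n, y (n + 1) 1 = y n 1 ^ (e + 1) := by
    intro n
    rw [hys]
    exact (pt_fibre b a hb0 ha0 g S (y n) (hy0 n)).2.1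
  have hy1 : ∀ n, ‖τ (y n 1)‖ = 1 := by
    intro n
    induction n with
    | zero =>
      change ‖τ (P 1)‖ = 1
      rw [hPi 1 h10]
      exact hx1
    | succ n ih => rw [hy1s, map_pow, norm_pow, ih, one_pow]
  have hy1ne : ∀ n, y n 1 ≠ 0 := by
    intro n h
    have := hy1 n
    rw [h, map_zero, norm_zero] at this
    exact zero_ne_one this
  have hyj : ∀ n (j : Fin N), y n j.succ.succ / y n 1 =
      (fun z => (g j).eval z)^[n] (P j.succ.succ / P 1) := by
    intro n j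
    induction n with
    | zero => rfl
    | succ n ih =>
      rw [Function.iterate_succ_apply', ← ih, hy1s, hys,
        (pt_fibre b a hb0 ha0 g S (y n) (hy0 n)).2.2 j, hv_div (g j) (hgd j) _ _ (hy1ne n),
        mul_div_cancel_left₀ _ (pow_ne_zero _ (hy1ne n))]
  have hz : ∀ j : Fin N, ‖τ (P j.succ.succ / P 1)‖ ≤ 1 := by
    intro j
    have h1 : ‖τ (P 1)‖ = 1 := hy1 0
    rw [map_div₀, norm_div, h1, div_one]
    exact hPint _
  have hfin : (⋃ j, {n : ℕ | ‖τ ((Polynomial.derivative (g j)).eval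
      ((fun z => (g j).eval z)^[n] (P j.succ.succ / P 1)))‖ ≠ 1}).Finite :=
    Set.finite_iUnion fun j => (hsg j p τ (hsub j)).2 _ (hz j)
  obtain ⟨M, hM⟩ := hfin.bddAbove
  refine orbit_core τ F F x P hF hF (fun i κ => by rw [sub_self, norm_zero]; exact one_pos) hx hPint
    (fun i => ?_) (M + 1) (fun n hn => ?_) fun n => ⟨1, hy1 n⟩
  · by_cases hi : i = 0
    · rw [hi, hP0, map_zero, sub_zero]
      exact hx0
    · rw [hPi i hi, sub_self, norm_zero]
      exact one_pos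
  · change ‖τ ((jac (sys (e + 1) b a g S) (y n)).det)‖ = 1
    rw [det_fibre e b a hb0 ha0 g S (y n) (hy0 n)]
    rw [map_mul, map_mul, map_mul, map_mul, map_pow, norm_mul, norm_mul, norm_mul, norm_mul,
      norm_pow, hy1 n, one_pow, hb1n, hen, mul_one, one_mul, one_mul, map_prod, norm_prod]
    refine Finset.prod_eq_one fun j _ => ?_
    have hdeg : (Polynomial.derivative (g j)).natDegree ≤ e := by
      have := Polynomial.natDegree_derivative_le (g j)
      have := hgd j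
      omega
    rw [hv_div _ hdeg _ _ (hy1ne n), map_mul, norm_mul, map_pow, norm_pow, hy1 n, one_pow, one_mul,
      hyj n j]
    by_contra hcon
    have h1 : n ∈ ⋃ j, {n : ℕ | ‖τ ((Polynomial.derivative (g j)).eval
      ((fun z => (g j).eval z)^[n] (P j.succ.succ / P 1)))‖ ≠ 1} := Set.mem_iUnion.2 ⟨j, hcon⟩
    have := hM h1
    omega

end Pool.Agent.Q118.SK
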