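import Pool.Agent.Q118.SK.Crit

/-!
Unicritical polynomials with a strictly preperiodic critical point (helper file).
-/

set_option autoImplicit false

namespace Pool.Agent.Q118.SK

open Polynomial

theorem unicritical {d : ℕ} {c : ℂ} (hd : 2 ≤ d) (hc : c ≠ 0) (hcd : (c ^ (d - 1) + 1) ^ d = 1) :
    StrictlyPreperiodic (X ^ d + C c) := by
  obtain ⟨e, rfl⟩ : ∃ e, d = e + 2 := ⟨d - 2, by omega⟩
  have hev : ∀ z : ℂ, (X ^ (e + 2) + C c).eval z = z ^ (e + 2) + c := by
    intro z
    simp
  set ω : ℂ := c ^ (e + 2 - 1) + 1 with hω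
  have hω1 : ω ≠ 1 := by
    intro h
    have h1 : c ^ (e + 2 - 1) = 0 := by rw [hω] at h; linear_combination h
    exact hc (pow_eq_zero_iff (by omega) |>.1 h1)
  have hω0 : ω ≠ 0 := by
    intro h
    rw [h, zero_pow (by omega)] at hcd
    exact zero_ne_one hcd
  have hωc : c ^ (e + 2) + c = ω * c := by
    rw [hω, show e + 2 - 1 = e + 1 by omega]
    ring
  have it : ∀ i : ℕ, (fun z => (X ^ (e + 2) + C c).eval z)^[i + 2] 0 = ω * c := by
    intro i
    induction i with
    | zero =>
      change (X ^ (e + 2) + C c).eval ((X ^ (e + 2) + C c).eval 0) = ω * c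
      rw [hev, hev, zero_pow (by omega), zero_add, hωc]
    | succ i ih =>
      rw [show i + 1 + 2 = (i + 2) + 1 by ring, Function.iterate_succ_apply', ih]
      rw [hev, mul_pow, hcd, one_mul, hωc]
  intro z hz
  have hz0 : z = 0 := by
    rw [derivative_add, derivative_X_pow, derivative_C, add_zero, eval_mul, eval_C, eval_pow,
      eval_X] at hz
    rcases mul_eq_zero.1 hz with h | h
    · exact absurd h (by exact_mod_cast (by omega : e + 2 ≠ 0))
    · exact pow_eq_zero_iff (by omega) |>.1 h
  subst hz0
  constructor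
  · refine (Set.toFinite ({0, c, ω * c} : Set ℂ)).subset ?_
    rintro _ ⟨i, rfl⟩
    rcases i with _ | _ | i
    · exact Or.inl rfl
    · right; left
      change (X ^ (e + 2) + C c).eval 0 = c
      rw [hev, zero_pow (by omega), zero_add]
    · right; right
      exact it i
  · intro i hi
    rcases i with _ | _ | i
    · exact absurd hi (by norm_num)
    · change (X ^ (e + 2) + C c).eval 0 ≠ 0
      rw [hev, zero_pow (by omega), zero_add]
      exact hc
    · rw [it i]
      exact mul_ne_zero hω0 hc

end Pool.Agent.Q118.SK
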