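import Pool.Agent.Q118.SK.Chain
import Pool.Agent.Y199.DM.Orb

/-!
Reduction of complex numbers by embeddings into `p`-adic fields (helper file).
-/

set_option autoImplicit false

namespace Pool.Agent.Q118.SK

open Polynomial Pool.Agent.H936R2

variable {p : ℕ} [hp : Fact p.Prime] (τ : ℂ →+* PadicAlgCl p)

/-- The complex numbers which are integral for `τ`. -/
noncomputable def Oi : Subring ℂ := (unitBall (PadicAlgCl p)).comap τ

theorem mem_Oi {x : ℂ} : x ∈ Oi τ ↔ ‖τ x‖ ≤ 1 := Iff.rfl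

/-- The reduction. -/
noncomputable def rh : Oi τ →+* ResF (PadicAlgCl p) :=
  (res (PadicAlgCl p)).comp (τ.restrict (Oi τ) (unitBall (PadicAlgCl p)) fun _ h => h)

theorem rh_eq_zero {x : Oi τ} : rh τ x = 0 ↔ ‖τ (x : ℂ)‖ < 1 := by
  rw [rh, RingHom.comp_apply, res_eq_zero_iff]
  rfl

theorem rh_eq {x y : Oi τ} : rh τ x = rh τ y ↔ ‖τ (x : ℂ) - τ (y : ℂ)‖ < 1 := by
  rw [← sub_eq_zero, ← map_sub, rh_eq_zero, ← map_sub]
  rfl

theorem rh_ne_zero {x : Oi τ} : rh τ x ≠ 0 ↔ ‖τ (x : ℂ)‖ = 1 := by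
  rw [Ne, rh_eq_zero, not_lt]
  exact ⟨fun h => le_antisymm x.2 h, fun h => h.ge⟩

theorem norm_one {y : ℂ} (hy : y ≠ 0) (h1 : ‖τ y‖ ≤ 1) (h2 : ‖τ y⁻¹‖ ≤ 1) : ‖τ y‖ = 1 := by
  rw [map_inv₀, norm_inv] at h2
  refine le_antisymm h1 ?_
  by_contra hlt
  push Not at hlt
  have hpos : 0 < ‖τ y‖ := norm_pos_iff.2 ((map_ne_zero τ).2 hy)
  have := one_lt_inv_iff₀.2 ⟨hpos, hlt⟩
  linarith

/-- Lifting a polynomial with integral coefficients. -/
theorem lift_poly (q : ℂ[X]) (hq : ∀ k, ‖τ (q.coeff k)‖ ≤ 1) :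
    ∃ Q : (Oi τ)[X], Q.map (Oi τ).subtype = q := by
  have h : q ∈ Polynomial.lifts (Oi τ).subtype := by
    rw [Polynomial.lifts_iff_coeff_lifts]
    intro k
    exact ⟨⟨q.coeff k, hq k⟩, rfl⟩
  exact (Polynomial.mem_lifts _).1 h

theorem coe_inj : Function.Injective (Oi τ).subtype := Subtype.val_injective

theorem coeff_lift {Q : (Oi τ)[X]} {q : ℂ[X]} (h : Q.map (Oi τ).subtype = q) (k : ℕ) :
    ((Q.coeff k : Oi τ) : ℂ) = q.coeff k := by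
  rw [← h, coeff_map]
  rfl

/-- The base orbit: the reduction is never zero, and it reaches zero if it is near to a point which
reaches zero. -/
theorem base_orbit {d : ℕ} {b a : ℂ[X]} (hb : b.natDegree ≤ d) (ha : a.natDegree ≤ d)
    (hcb : ∀ k, ‖τ (b.coeff k)‖ ≤ 1) (hca : ∀ k, ‖τ (a.coeff k)‖ ≤ 1)
    (r t : ℂ[X]) (hrt : r * a + t * b = 1)
    (hcr : ∀ k, ‖τ (r.coeff k)‖ ≤ 1) (hct : ∀ k, ‖τ (t.coeff k)‖ ≤ 1)
    (hlead : ‖τ (a.coeff d)‖ = 1 ∨ ‖τ (b.coeff d)‖ = 1)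
    (v : ℂ × ℂ) (h1 : ‖τ v.1‖ ≤ 1) (h2 : ‖τ v.2‖ ≤ 1) (hv : ‖τ v.1‖ = 1 ∨ ‖τ v.2‖ = 1) :
    (∀ n, ‖τ ((bs d b a)^[n] v).1‖ ≤ 1 ∧ ‖τ ((bs d b a)^[n] v).2‖ ≤ 1 ∧
      (‖τ ((bs d b a)^[n] v).1‖ = 1 ∨ ‖τ ((bs d b a)^[n] v).2‖ = 1)) ∧
    ∀ (n : ℕ) (γ : ℂ) (e : ℕ), ((bs d b a)^[n] v).2 ≠ 0 → ‖τ γ‖ ≤ 1 →
      ‖τ (((bs d b a)^[n] v).1 / ((bs d b a)^[n] v).2 - γ)‖ < 1 →
      ((bs d b a)^[e] (γ, 1)).1 = 0 → ‖τ ((bs d b a)^[n + e] v).1‖ < 1 := by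
  obtain ⟨B, hB⟩ := lift_poly τ b hcb
  obtain ⟨A, hA⟩ := lift_poly τ a hca
  obtain ⟨R, hR⟩ := lift_poly τ r hcr
  obtain ⟨T, hT⟩ := lift_poly τ t hct
  have hnd : ∀ {Q : (Oi τ)[X]} {q : ℂ[X]}, Q.map (Oi τ).subtype = q → Q.natDegree = q.natDegree := by
    intro Q q h
    rw [← h, natDegree_map_eq_of_injective (coe_inj τ)]
  have hBd : (B.map (rh τ)).natDegree ≤ d := natDegree_map_le.trans ((hnd hB).le.trans hb)
  have hAd : (A.map (rh τ)).natDegree ≤ d := natDegree_map_le.trans ((hnd hA).le.trans ha)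
  have hcop : IsCoprime (A.map (rh τ)) (B.map (rh τ)) := by
    refine ⟨R.map (rh τ), T.map (rh τ), ?_⟩
    have h3 : R * A + T * B = 1 := by
      apply map_injective _ (coe_inj τ)
      rw [Polynomial.map_add, Polynomial.map_mul, Polynomial.map_mul, hR, hA, hT, hB, hrt,
        Polynomial.map_one]
    rw [← Polynomial.map_mul, ← Polynomial.map_mul, ← Polynomial.map_add, h3, Polynomial.map_one]
  have hl : (A.map (rh τ)).coeff d ≠ 0 ∨ (B.map (rh τ)).coeff d ≠ 0 := by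
    rw [coeff_map, coeff_map, rh_ne_zero, rh_ne_zero, coeff_lift τ hA, coeff_lift τ hB]
    exact hlead
  let V : Oi τ × Oi τ := (⟨v.1, h1⟩, ⟨v.2, h2⟩)
  have hcoe : ∀ (W : Oi τ × Oi τ) n, (bs d b a)^[n] ((W.1 : ℂ), (W.2 : ℂ)) =
      ((((bs d B A)^[n] W).1 : ℂ), (((bs d B A)^[n] W).2 : ℂ)) := by
    intro W n
    have := bs_iter_map (Oi τ).subtype d B A W n
    rw [hB, hA] at this
    exact this
  have hred : ∀ (W : Oi τ × Oi τ) n, (bs d (B.map (rh τ)) (A.map (rh τ)))^[n]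
      (rh τ W.1, rh τ W.2) = (rh τ ((bs d B A)^[n] W).1, rh τ ((bs d B A)^[n] W).2) :=
    fun W n => bs_iter_map (rh τ) d B A W n
  have hV0 : (rh τ V.1, rh τ V.2) ≠ 0 := by
    intro h
    rcases hv with h3 | h3
    · exact (rh_ne_zero τ (x := V.1)).2 h3 (congrArg Prod.fst h)
    · exact (rh_ne_zero τ (x := V.2)).2 h3 (congrArg Prod.snd h)
  have hne : ∀ n, (rh τ ((bs d B A)^[n] V).1, rh τ ((bs d B A)^[n] V).2) ≠ 0 := by
    intro n
    rw [← hred]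
    induction n with
    | zero => exact hV0
    | succ n ih =>
      rw [Function.iterate_succ_apply']
      exact bs_ne_zero hBd hAd hcop hl ih
  have hvV : ∀ n, (bs d b a)^[n] v = ((((bs d B A)^[n] V).1 : ℂ), (((bs d B A)^[n] V).2 : ℂ)) :=
    fun n => hcoe V n
  have hor : ∀ n, ‖τ ((bs d b a)^[n] v).1‖ = 1 ∨ ‖τ ((bs d b a)^[n] v).2‖ = 1 := by
    intro n
    rw [hvV]
    change ‖τ (((bs d B A)^[n] V).1 : ℂ)‖ = 1 ∨ ‖τ (((bs d B A)^[n] V).2 : ℂ)‖ = 1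
    rw [← rh_ne_zero, ← rh_ne_zero]
    by_contra hcon
    push Not at hcon
    exact hne n (Prod.ext hcon.1 hcon.2)
  refine ⟨fun n => ⟨?_, ?_, hor n⟩, fun n γ e hw hγ hnear he => ?_⟩
  · rw [hvV]
    exact ((bs d B A)^[n] V).1.2
  · rw [hvV]
    exact ((bs d B A)^[n] V).2.2
  · set u := ((bs d b a)^[n] v).1 with hu
    set w := ((bs d b a)^[n] v).2 with hw'
    have hz : ‖τ (u / w)‖ ≤ 1 := by
      have h3 : τ (u / w) = τ (u / w - γ) + τ γ := by rw [← map_add, sub_add_cancel]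
      rw [h3]
      exact (IsUltrametricDist.norm_add_le_max _ _).trans (max_le hnear.le hγ)
    have huw : u = w * (u / w) := by rw [mul_div_cancel₀ _ hw]
    have hle : ‖τ u‖ ≤ ‖τ w‖ := by
      rw [huw, map_mul, norm_mul]
      exact mul_le_of_le_one_right (norm_nonneg _) hz
    have hw1 : ‖τ w‖ ≤ 1 := by
      rw [hw', hvV]
      exact ((bs d B A)^[n] V).2.2
    have hw2 : ‖τ w‖ = 1 := by
      rcases hor n with h3 | h3
      · exact le_antisymm hw1 (h3.symm.le.trans hle)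
      · exact h3
    have hu1 : ‖τ u‖ ≤ 1 := hle.trans hw1
    let U : Oi τ := ⟨u, hu1⟩
    let W : Oi τ := ⟨w, hw1⟩
    let Z : Oi τ := ⟨u / w, hz⟩
    let Γ : Oi τ := ⟨γ, hγ⟩
    have h4 : rh τ Z = rh τ Γ := by
      rw [rh_eq, ← map_sub]
      exact hnear
    have h5 : U = W * Z := Subtype.ext huw
    have h6 : (rh τ U, rh τ W) = rh τ W • (rh τ Γ, (1 : ResF (PadicAlgCl p))) := by
      refine Prod.ext ?_ ?_
      · rw [Prod.smul_fst, smul_eq_mul, h5, map_mul, h4]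
      · rw [Prod.smul_snd, smul_eq_mul, mul_one]
    have hW0 : rh τ W ≠ 0 := (rh_ne_zero τ).2 hw2
    obtain ⟨c, -, h7⟩ := iter_smul (d := d) (b := B.map (rh τ)) (a := A.map (rh τ)) (rh τ W) hW0
      (rh τ Γ, (1 : ResF (PadicAlgCl p))) e
    have h8 : (bs d (B.map (rh τ)) (A.map (rh τ)))^[e] (rh τ Γ, (1 : ResF (PadicAlgCl p))) =
        (rh τ ((bs d B A)^[e] (Γ, 1)).1, rh τ ((bs d B A)^[e] (Γ, 1)).2) := by
      have := hred (Γ, 1) e
      rwa [map_one] at this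
    have h9 : ((bs d B A)^[e] (Γ, 1)).1 = 0 := by
      have h10 := congrArg Prod.fst (hcoe (Γ, 1) e)
      have h11 : ((bs d b a)^[e] (((Γ : Oi τ) : ℂ), ((1 : Oi τ) : ℂ))).1 = 0 := he
      rw [h11] at h10
      exact Subtype.ext h10.symm
    have h12 : (bs d b a)^[n + e] v = (bs d b a)^[e] ((U : ℂ), (W : ℂ)) := by
      rw [Nat.add_comm, Function.iterate_add_apply]
    rw [h12, hcoe (U, W) e]
    change ‖τ (((bs d B A)^[e] (U, W)).1 : ℂ)‖ < 1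
    rw [← rh_eq_zero]
    have h13 := congrArg Prod.fst (hred (U, W) e)
    rw [h6, h7, h8, h9, map_zero] at h13
    exact h13.symm.trans (by rw [Prod.smul_fst, smul_zero])

end Pool.Agent.Q118.SK
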