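import Pool.Agent.Q118.SK.Base

/-!
Skew endomorphisms of the projective plane: all points (helper file).
-/

set_option autoImplicit false

namespace Pool.Agent.Q118.SK

open MvPolynomial Pool.Agent.H936R2 Pool.Agent.Y199.DM

/-- Finite unions of arithmetic progressions. -/
def IsFU (A : Set ℕ) : Prop :=
  ∃ T : Finset (ℕ × ℕ), A = {n | ∃ q ∈ T, ∃ m : ℕ, n = q.1 * m + q.2}

theorem isFU_of_evPer {A : Set ℕ} {N p : ℕ} (hp : 0 < p)
    (h : ∀ n, N ≤ n → (n ∈ A ↔ n + p ∈ A)) : IsFU A := by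
  classical
  have h2 : ∀ n, N ≤ n → ∀ k, (n ∈ A ↔ n + p * k ∈ A) := by
    intro n hn k
    induction k with
    | zero => simp
    | succ k ih =>
      rw [ih, h (n + p * k) (by omega)]
      have h3 : n + p * k + p = n + p * (k + 1) := by ring
      rw [h3]
  refine ⟨((Finset.range (N + p)).filter fun n => n ∈ A).image
    (fun n => if n < N then (0, n) else (p, n)), ?_⟩
  ext n
  simp only [Set.mem_ofPred_eq, Finset.mem_image, Finset.mem_filter, Finset.mem_range]
  constructor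
  · intro hn
    by_cases h1 : n < N
    · exact ⟨(0, n), ⟨n, ⟨by omega, hn⟩, by rw [if_pos h1]⟩, 0, by simp⟩
    · have h3 := Nat.mod_add_div (n - N) p
      have h4 : (n - N) % p < p := Nat.mod_lt _ hp
      have h5 : n = N + (n - N) % p + p * ((n - N) / p) := by omega
      refine ⟨(p, N + (n - N) % p), ⟨N + (n - N) % p, ⟨by omega, ?_⟩, ?_⟩, (n - N) / p, ?_⟩
      · rw [h2 _ (by omega) ((n - N) / p), ← h5]
        exact hn
      · rw [if_neg (by omega)]
      · change n = p * ((n - N) / p) + (N + (n - N) % p)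
        omega
  · rintro ⟨q, ⟨n', ⟨hn', hA⟩, rfl⟩, k, hk⟩
    by_cases h1 : n' < N
    · rw [if_pos h1] at hk
      have : n = n' := by
        rw [hk]
        change 0 * k + n' = n'
        omega
      rw [this]
      exact hA
    · rw [if_neg h1] at hk
      have : n = n' + p * k := by
        rw [hk]
        change p * k + n' = n' + p * k
        omega
      rw [this]
      exact (h2 n' (by omega) k).1 hA

/-- Classes modulo `k`. -/
theorem isFU_of_classes {A : Set ℕ} {m k : ℕ} (hk : 0 < k)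
    (h : ∀ n, m ≤ n → (∀ j, n + k * j ∈ A) ∨ {j | n + k * j ∈ A}.Finite) : IsFU A := by
  classical
  have h1 : ∀ i : ℕ, ∃ J, (∀ j, m + i + k * j ∈ A) ∨ ∀ j, J ≤ j → m + i + k * j ∉ A := by
    intro i
    rcases h (m + i) (by omega) with h | h
    · exact ⟨0, Or.inl h⟩
    · obtain ⟨J, hJ⟩ := h.bddAbove
      refine ⟨J + 1, Or.inr fun j hj hcon => ?_⟩
      have := hJ hcon
      omega
  choose J hJ using h1
  refine isFU_of_evPer (N := m + k * (Finset.range k).sup J) hk fun n hn => ?_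
  have h3 := Nat.mod_add_div (n - m) k
  have h4 : (n - m) % k < k := Nat.mod_lt _ hk
  have h6 : J ((n - m) % k) ≤ (n - m) / k := by
    refine (Finset.le_sup (f := J) (Finset.mem_range.2 h4)).trans ?_
    rw [Nat.le_div_iff_mul_le hk, Nat.mul_comm]
    omega
  have h5 : n = m + (n - m) % k + k * ((n - m) / k) := by omega
  have h7 : n + k = m + (n - m) % k + k * ((n - m) / k + 1) := by
    rw [Nat.mul_add, Nat.mul_one]
    omega
  rcases hJ ((n - m) % k) with h8 | h8
  · have h9 := h8 ((n - m) / k)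
    have h10 := h8 ((n - m) / k + 1)
    rw [← h5] at h9
    rw [← h7] at h10
    exact ⟨fun _ => h10, fun _ => h9⟩
  · have h9 := h8 ((n - m) / k) h6
    have h10 := h8 ((n - m) / k + 1) (by omega)
    rw [← h5] at h9
    rw [← h7] at h10
    exact ⟨fun h => absurd h h9, fun h => absurd h h10⟩

theorem hom_smul {σ : Type} {g : MvPolynomial σ ℂ} {e : ℕ} (hg : g.IsHomogeneous e) (c : ℂ)
    (x : σ → ℂ) : eval (c • x) g = c ^ e * eval x g :=
  hom_eval hg c x

/-- Orbits with two proportional members. -/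
theorem isFU_of_prop {N d : ℕ} (F : Fin (N + 1) → MvPolynomial (Fin (N + 1)) ℂ)
    (hF : ∀ i, (F i).IsHomogeneous d) (x : Fin (N + 1) → ℂ) (m k : ℕ) (hk : 0 < k)
    (h : ∃ c : ℂ, c ≠ 0 ∧ (pt F)^[m + k] x = c • (pt F)^[m] x)
    (S : Set (MvPolynomial (Fin (N + 1)) ℂ)) (hS : ∀ g ∈ S, ∃ e, g.IsHomogeneous e) :
    IsFU {n | ∀ g ∈ S, eval ((pt F)^[n] x) g = 0} := by
  have key : ∀ n, m ≤ n → ∃ c : ℂ, c ≠ 0 ∧ (pt F)^[n + k] x = c • (pt F)^[n] x := by
    intro n hn
    induction n, hn using Nat.le_induction with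
    | base => exact h
    | succ n hn ih =>
      obtain ⟨c, hc, h1⟩ := ih
      refine ⟨c ^ d, pow_ne_zero d hc, ?_⟩
      have h2 : n + 1 + k = (n + k) + 1 := by omega
      rw [h2, Function.iterate_succ_apply', h1, pt_smul F hF, Function.iterate_succ_apply']
  refine isFU_of_evPer (N := m) hk fun n hn => ?_
  obtain ⟨c, hc, h1⟩ := key n hn
  simp only [Set.mem_ofPred_eq]
  refine forall₂_congr fun g hg => ?_
  obtain ⟨e, he⟩ := hS g hg
  rw [h1, hom_smul he, mul_eq_zero, or_iff_right (pow_ne_zero e hc)]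

/-- A form with infinitely many zeros on a line through `(0, 0, 1)`. -/
theorem line_zeros {g : MvPolynomial (Fin 3) ℂ} {e : ℕ} (hg : g.IsHomogeneous e) (u : ℂ × ℂ)
    (D : Set ℕ) (hD : D.Infinite) (x : ℕ → Fin 3 → ℂ)
    (hx : ∀ j, ∃ s : ℂ, s ≠ 0 ∧ x j 0 = s * u.1 ∧ x j 1 = s * u.2)
    (hdist : ∀ i j, i ≠ j → ∀ c : ℂ, c ≠ 0 → x i ≠ c • x j)
    (hz : ∀ j ∈ D, eval (x j) g = 0) (y : Fin 3 → ℂ)
    (hy : ∃ s : ℂ, s ≠ 0 ∧ y 0 = s * u.1 ∧ y 1 = s * u.2) : eval y g = 0 := by
  classical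
  let G : Polynomial ℂ := aeval ![Polynomial.C u.1, Polynomial.C u.2, Polynomial.X] g
  have hG : ∀ r : ℂ, G.eval r = eval ![u.1, u.2, r] g := by
    intro r
    have h1 : G.eval r = (Polynomial.evalRingHom r) (aeval
      ![Polynomial.C u.1, Polynomial.C u.2, Polynomial.X] g) := rfl
    rw [h1, aeval_def, eval₂_comp_left]
    have h2 : (Polynomial.evalRingHom r).comp (algebraMap ℂ (Polynomial ℂ)) = RingHom.id ℂ := by
      ext z
      simp
    rw [h2]
    have h3 : (⇑(Polynomial.evalRingHom r) ∘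
        ![Polynomial.C u.1, Polynomial.C u.2, Polynomial.X]) = ![u.1, u.2, r] := by
      funext i
      fin_cases i <;> simp
    rw [h3]
    rfl
  have hval : ∀ (z : Fin 3 → ℂ) (s : ℂ), s ≠ 0 → z 0 = s * u.1 → z 1 = s * u.2 →
      eval z g = s ^ e * G.eval (z 2 / s) := by
    intro z s hs h0 h1
    have h2 : z = s • ![u.1, u.2, z 2 / s] := by
      funext i
      fin_cases i
      · simpa using h0
      · simpa using h1
      · simp [mul_div_cancel₀ _ hs]
    conv_lhs => rw [h2]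
    rw [hom_smul hg, hG]
  choose s hs0 hs1 hs2 using hx
  have hG0 : G = 0 := by
    refine Polynomial.eq_zero_of_infinite_isRoot G ?_
    refine ((hD.image (f := fun j => x j 2 / s j) ?_)).mono ?_
    · intro i _ j _ hij
      by_contra hne
      refine hdist i j hne (s i / s j) (div_ne_zero (hs0 i) (hs0 j)) ?_
      have h3 : x i 2 = s i / s j * x j 2 := by
        have h4 : x i 2 / s i = x j 2 / s j := hij
        rw [div_eq_div_iff (hs0 i) (hs0 j)] at h4
        rw [div_mul_eq_mul_div, eq_div_iff (hs0 j), h4]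
        ring
      funext l
      fin_cases l
      · change x i 0 = s i / s j * x j 0
        rw [hs1 i, hs1 j, ← mul_assoc, div_mul_cancel₀ _ (hs0 j)]
      · change x i 1 = s i / s j * x j 1
        rw [hs2 i, hs2 j, ← mul_assoc, div_mul_cancel₀ _ (hs0 j)]
      · exact h3
    · rintro _ ⟨j, hj, rfl⟩
      have h1 := hz j hj
      rw [hval (x j) (s j) (hs0 j) (hs1 j) (hs2 j)] at h1
      exact (mul_eq_zero.1 h1).resolve_left (pow_ne_zero e (hs0 j))
  obtain ⟨c, hc, h0, h1⟩ := hy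
  rw [hval y c hc h0 h1, hG0, Polynomial.eval_zero, mul_zero]

theorem fch_one (T : MvPolynomial (Fin 3) ℂ) :
    (fch (N := 1) T) = Polynomial.aeval (X 0) (aeval ![0, 1, Polynomial.X] T : Polynomial ℂ) := by
  have h1 : (Polynomial.aeval (X 0 : MvPolynomial (Fin 1) ℂ))
      (aeval ![0, 1, Polynomial.X] T : Polynomial ℂ) =
      ((Polynomial.aeval (X 0 : MvPolynomial (Fin 1) ℂ)).comp
        (aeval ![0, 1, (Polynomial.X : Polynomial ℂ)])) T := rfl
  rw [h1]
  have h2 : (Polynomial.aeval (X 0 : MvPolynomial (Fin 1) ℂ)).comp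
      (aeval ![0, 1, (Polynomial.X : Polynomial ℂ)]) =
      (aeval (Fin.cons 0 (Fin.cons 1 X)) : MvPolynomial (Fin 3) ℂ →ₐ[ℂ] MvPolynomial (Fin 1) ℂ) := by
    refine MvPolynomial.algHom_ext fun i => ?_
    rw [AlgHom.comp_apply, aeval_X, aeval_X]
    fin_cases i
    · change Polynomial.aeval (X 0) (0 : Polynomial ℂ) = 0
      rw [map_zero]
    · change Polynomial.aeval (X 0) (1 : Polynomial ℂ) = 1
      rw [map_one]
    · change Polynomial.aeval (X 0) (Polynomial.X : Polynomial ℂ) = X 0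
      rw [Polynomial.aeval_X]
  rw [h2]
  rfl

/-- The value on `(0, 0, y)`. -/
theorem eval_axis {d : ℕ} (T : MvPolynomial (Fin 3) ℂ) (hT : T.IsHomogeneous d)
    (hq : (aeval ![0, 1, Polynomial.X] T : Polynomial ℂ).natDegree = d) (hd : d ≠ 0) (y : ℂ)
    (h : eval ![0, 0, y] T = 0) : y = 0 := by
  classical
  by_contra hy
  set q : Polynomial ℂ := aeval ![0, 1, Polynomial.X] T with hqdef
  -- `T (0, w, y) = ∑ q_k y ^ k w ^ (d - k)`
  have hqe : ∀ r : ℂ, q.eval r = eval ![0, 1, r] T := by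
    intro r
    have h1 : q.eval r = (Polynomial.evalRingHom r) (aeval ![0, 1, Polynomial.X] T) := rfl
    rw [h1, aeval_def, eval₂_comp_left]
    have h2 : (Polynomial.evalRingHom r).comp (algebraMap ℂ (Polynomial ℂ)) = RingHom.id ℂ := by
      ext z
      simp
    rw [h2]
    have h3 : (⇑(Polynomial.evalRingHom r) ∘ ![0, 1, Polynomial.X]) = ![0, 1, r] := by
      funext i
      fin_cases i <;> simp
    rw [h3]
    rfl
  -- the polynomial `w ↦ T (0, w, 1)`
  set G : Polynomial ℂ := aeval ![0, Polynomial.X, 1] T with hGdef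
  have hGe : ∀ r : ℂ, G.eval r = eval ![0, r, 1] T := by
    intro r
    have h1 : G.eval r = (Polynomial.evalRingHom r) (aeval ![0, Polynomial.X, 1] T) := rfl
    rw [h1, aeval_def, eval₂_comp_left]
    have h2 : (Polynomial.evalRingHom r).comp (algebraMap ℂ (Polynomial ℂ)) = RingHom.id ℂ := by
      ext z
      simp
    rw [h2]
    have h3 : (⇑(Polynomial.evalRingHom r) ∘ ![0, Polynomial.X, 1]) = ![0, r, 1] := by
      funext i
      fin_cases i <;> simp
    rw [h3]
    rfl
  have hrev : ∀ r : ℂ, r ≠ 0 → G.eval r = r ^ d * q.eval r⁻¹ := by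
    intro r hr
    have h1 : (![0, r, 1] : Fin 3 → ℂ) = r • ![0, 1, r⁻¹] := by
      funext i
      fin_cases i
      · simp
      · simp
      · simp [mul_inv_cancel₀ hr]
    rw [hGe, h1, hom_smul hT, hqe]
  have hG0 : G.eval 0 = 0 := by
    rw [hGe]
    have h1 : (![0, 0, y] : Fin 3 → ℂ) = y • ![0, 0, 1] := by
      funext i
      fin_cases i <;> simp
    rw [h1, hom_smul hT] at h
    exact (mul_eq_zero.1 h).resolve_left (pow_ne_zero d hy)
  have hGq : G = q.reverse := by
    refine Polynomial.eq_of_infinite_eval_eq G q.reverse ?_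
    refine (Set.infinite_univ.sdiff (Set.finite_singleton (0 : ℂ))).mono fun r hr => ?_
    have hr0 : r ≠ 0 := fun h => hr.2 h
    let _ : Invertible r⁻¹ := invertibleOfNonzero (inv_ne_zero hr0)
    have h1 := Polynomial.eval₂_reverse_mul_pow (RingHom.id ℂ) r⁻¹ q
    rw [invOf_eq_inv, inv_inv, hq] at h1
    change Polynomial.eval r G = Polynomial.eval r q.reverse
    rw [hrev r hr0]
    change r ^ d * Polynomial.eval₂ (RingHom.id ℂ) r⁻¹ q =
      Polynomial.eval₂ (RingHom.id ℂ) r q.reverse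
    rw [← h1, mul_comm, mul_assoc, ← mul_pow, inv_mul_cancel₀ hr0, one_pow, mul_one]
  rw [hGq, ← Polynomial.coeff_zero_eq_eval_zero, Polynomial.coeff_zero_reverse] at hG0
  have h1 : q = 0 := Polynomial.leadingCoeff_eq_zero.1 hG0
  rw [h1, Polynomial.natDegree_zero] at hq
  exact hd hq.symm

/-- The dynamical Mordell-Lang property at all points. -/
theorem plane_all {d : ℕ} (hd : 2 ≤ d) {b a : Polynomial ℂ} (hb : b.natDegree ≤ d)
    (ha : a.natDegree ≤ d) (hcop : IsCoprime a b) (hlead : a.coeff d ≠ 0 ∨ b.coeff d ≠ 0)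
    (hba : ∀ k, IsAlgebraic ℚ (b.coeff k)) (haa : ∀ k, IsAlgebraic ℚ (a.coeff k))
    (hb0 : b.coeff 0 = 0) (ha0 : a.coeff 0 = 1) (hb1 : b.coeff 1 ≠ 0)
    (T : MvPolynomial (Fin 3) ℂ) (hT : T.IsHomogeneous d)
    (hq : (aeval ![0, 1, Polynomial.X] T : Polynomial ℂ).natDegree = d)
    (hpc : StrictlyPreperiodic (aeval ![0, 1, Polynomial.X] T : Polynomial ℂ))
    (S : Set (MvPolynomial (Fin 3) ℂ)) (hS : ∀ g ∈ S, ∃ e, g.IsHomogeneous e)
    (α : Fin 3 → ℂ) (hα : α ≠ 0) :
    IsFU {n | ∀ g ∈ S, eval ((pt (psys d b a fun _ : Fin 1 => T))^[n] α) g = 0} := by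
  classical
  have hT' : ∀ j : Fin 1, ((fun _ : Fin 1 => T) j).IsHomogeneous d := fun _ => hT
  have hF := psys_homogeneous (N := 1) b a (fun _ : Fin 1 => T) hT'
  set F := psys d b a (fun _ : Fin 1 => T) with hFdef
  have hendo : ∀ x : Fin 3 → ℂ, x ≠ 0 → pt F x ≠ 0 := by
    intro x hx h
    apply hx
    refine psys_endo hb ha hcop hlead (fun _ : Fin 1 => T) ?_ x fun i => congrFun h i
    intro y hy
    have h1 : (Fin.cons 0 (Fin.cons 0 y) : Fin 3 → ℂ) = ![0, 0, y 0] := by
      funext i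
      fin_cases i <;> rfl
    have h2 := hy 0
    rw [h1] at h2
    funext i
    rw [Fin.eq_zero i]
    exact eval_axis T hT hq (by omega) _ h2
  by_cases hα' : α 0 ≠ 0 ∨ α 1 ≠ 0
  swap
  · -- the point `(0, 0, z)`
    push Not at hα'
    obtain ⟨h0, h1⟩ := hα'
    have h2 : α 2 ≠ 0 := by
      intro h2
      apply hα
      funext i
      fin_cases i
      · exact h0
      · exact h1
      · exact h2
    have h3 := pt_pbase d b a (fun _ : Fin 1 => T) α 1
    have h4 : ((bs d b a)^[1] (α 0, α 1)) = (0, 0) := by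
      rw [h0, h1]
      refine Prod.ext ?_ ?_
      · change hv d b 0 0 = 0
        rw [hv_zero_left, zero_pow (by omega), mul_zero]
      · change hv d a 0 0 = 0
        rw [hv_zero_left, zero_pow (by omega), mul_zero]
    rw [h4] at h3
    have h5 : (pt F)^[1] α 0 = 0 := congrArg Prod.fst h3
    have h6 : (pt F)^[1] α 1 = 0 := congrArg Prod.snd h3
    have h7 : (pt F)^[1] α 2 ≠ 0 := by
      intro h7
      apply hendo α hα
      funext i
      fin_cases i
      · exact h5
      · exact h6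
      · exact h7
    refine isFU_of_prop F hF α 0 1 one_pos ⟨(pt F)^[1] α 2 / α 2, div_ne_zero h7 h2, ?_⟩ S hS
    funext i
    fin_cases i
    · change (pt F)^[1] α 0 = (pt F)^[1] α 2 / α 2 * α 0
      rw [h5, h0, mul_zero]
    · change (pt F)^[1] α 1 = (pt F)^[1] α 2 / α 2 * α 1
      rw [h6, h1, mul_zero]
    · change (pt F)^[1] α 2 = (pt F)^[1] α 2 / α 2 * α 2
      rw [div_mul_cancel₀ _ h2]
  -- wandering base points
  by_cases hw : ∀ m n, m < n → (pt F)^[m] α 0 * (pt F)^[n] α 1 ≠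
      (pt F)^[n] α 0 * (pt F)^[m] α 1
  · obtain ⟨h1, h2⟩ := split_data (N := 1) hd (fun _ : Fin 1 => T)
      (fun _ => aeval ![0, 1, Polynomial.X] T) (fun _ => hq)
      (fun j => by
        rw [Fin.eq_zero j]
        exact fch_one T) (fun _ => hpc)
    have h3 := proj_all (N := 1) hd hb ha hcop hlead hb0 ha0 hb1 (fun _ : Fin 1 => T) hT' _ h1 _
      (det_split (fun _ : Fin 1 => T) (fun _ => aeval ![0, 1, Polynomial.X] T) (fun j => by
        rw [Fin.eq_zero j]
        exact fch_one T)) h2 α hα'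
      (reach_of hd hb ha hcop hlead hb0 hb1 (fun _ : Fin 1 => T) α hα' (Or.inr (Or.inl
        ⟨hba, haa, hw⟩)))
    exact h3.2 S
  push Not at hw
  obtain ⟨m, n, hmn, hcross⟩ := hw
  obtain ⟨k, rfl⟩ : ∃ k, n = m + k := ⟨n - m, by omega⟩
  have hk : 0 < k := by omega
  by_cases hprop : ∃ i j, i < j ∧ ∃ c : ℂ, c ≠ 0 ∧ (pt F)^[j] α = c • (pt F)^[i] α
  · obtain ⟨i, j, hij, hc⟩ := hprop
    obtain ⟨l, rfl⟩ : ∃ l, j = i + l := ⟨j - i, by omega⟩
    exact isFU_of_prop F hF α i l (by omega) hc S hS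
  have hdist : ∀ i j, i ≠ j → ∀ c : ℂ, c ≠ 0 → (pt F)^[i] α ≠ c • (pt F)^[j] α := by
    intro i j hij c hc h
    apply hprop
    rcases lt_or_gt_of_ne hij with h1 | h1
    · refine ⟨i, j, h1, c⁻¹, inv_ne_zero hc, ?_⟩
      rw [h, smul_smul, inv_mul_cancel₀ hc, one_smul]
    · exact ⟨j, i, h1, c, hc, h⟩
  -- the base orbit
  have hu : ∀ n, ((pt F)^[n] α 0, (pt F)^[n] α 1) = (bs d b a)^[n] (α 0, α 1) := fun n =>
    pt_pbase d b a (fun _ : Fin 1 => T) α n
  have hune : ∀ n, (bs d b a)^[n] (α 0, α 1) ≠ 0 := by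
    intro n
    induction n with
    | zero =>
      intro h
      rcases hα' with h1 | h1
      · exact h1 (congrArg Prod.fst h)
      · exact h1 (congrArg Prod.snd h)
    | succ n ih =>
      rw [Function.iterate_succ_apply']
      exact bs_ne_zero hb ha hcop hlead ih
  have hpar : ∃ c : ℂ, c ≠ 0 ∧ (bs d b a)^[m + k] (α 0, α 1) = c • (bs d b a)^[m] (α 0, α 1) := by
    have e1 := hu m
    have e2 := hu (m + k)
    have n1 := hune m
    have n2 := hune (m + k)
    rw [← e1] at n1 ⊢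
    rw [← e2] at n2 ⊢
    generalize (pt F)^[m] α 0 = x at *
    generalize (pt F)^[m] α 1 = y at *
    generalize (pt F)^[m + k] α 0 = z at *
    generalize (pt F)^[m + k] α 1 = w at *
    by_cases hx : x = 0
    · have hy : y ≠ 0 := fun hy => n1 (Prod.ext hx hy)
      have hz : z = 0 := by
        rw [hx, zero_mul] at hcross
        exact (mul_eq_zero.1 hcross.symm).resolve_right hy
      have hw : w ≠ 0 := fun hw => n2 (Prod.ext hz hw)
      refine ⟨w / y, div_ne_zero hw hy, Prod.ext ?_ ?_⟩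
      · change z = w / y * x
        rw [hx, hz, mul_zero]
      · change w = w / y * y
        rw [div_mul_cancel₀ _ hy]
    · have hz : z ≠ 0 := by
        intro hz
        rw [hz, zero_mul] at hcross
        exact n2 (Prod.ext hz ((mul_eq_zero.1 hcross).resolve_left hx))
      refine ⟨z / x, div_ne_zero hz hx, Prod.ext ?_ ?_⟩
      · change z = z / x * x
        rw [div_mul_cancel₀ _ hx]
      · change w = z / x * y
        rw [div_mul_eq_mul_div, eq_div_iff hx, ← hcross]
        ring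
  have hstep : ∀ n, m ≤ n → ∃ c : ℂ, c ≠ 0 ∧
      (bs d b a)^[n + k] (α 0, α 1) = c • (bs d b a)^[n] (α 0, α 1) := by
    intro n hn
    obtain ⟨c, hc, h⟩ := hpar
    obtain ⟨l, rfl⟩ : ∃ l, n = m + l := ⟨n - m, by omega⟩
    obtain ⟨c', hc', h'⟩ := iter_smul (d := d) (b := b) (a := a) c hc
      ((bs d b a)^[m] (α 0, α 1)) l
    refine ⟨c', hc', ?_⟩
    have e1 : m + l + k = l + (m + k) := by omega
    have e2 : m + l = l + m := by omega
    rw [e1, Function.iterate_add_apply, h, h', e2, Function.iterate_add_apply]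
  have hall : ∀ n, m ≤ n → ∀ j, ∃ c : ℂ, c ≠ 0 ∧
      (bs d b a)^[n + k * j] (α 0, α 1) = c • (bs d b a)^[n] (α 0, α 1) := by
    intro n hn j
    induction j with
    | zero => exact ⟨1, one_ne_zero, by rw [one_smul, Nat.mul_zero, Nat.add_zero]⟩
    | succ j ih =>
      obtain ⟨c, hc, h⟩ := ih
      obtain ⟨c', hc', h'⟩ := hstep (n + k * j) (by omega)
      refine ⟨c' * c, mul_ne_zero hc' hc, ?_⟩
      have e1 : n + k * (j + 1) = n + k * j + k := by ring
      rw [e1, h', h, smul_smul]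
  refine isFU_of_classes (m := m) hk fun n hn => ?_
  by_cases hfin : {j | n + k * j ∈ {n | ∀ g ∈ S, eval ((pt F)^[n] α) g = 0}}.Finite
  · exact Or.inr hfin
  refine Or.inl fun j g hg => ?_
  obtain ⟨e, he⟩ := hS g hg
  have hcoord : ∀ j, ∃ s : ℂ, s ≠ 0 ∧ (pt F)^[n + k * j] α 0 = s * ((bs d b a)^[n] (α 0, α 1)).1 ∧
      (pt F)^[n + k * j] α 1 = s * ((bs d b a)^[n] (α 0, α 1)).2 := by
    intro j
    obtain ⟨c, hc, h⟩ := hall n hn j
    have h1 := hu (n + k * j)
    rw [h] at h1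
    exact ⟨c, hc, congrArg Prod.fst h1, congrArg Prod.snd h1⟩
  refine line_zeros he ((bs d b a)^[n] (α 0, α 1)) _ hfin (fun j => (pt F)^[n + k * j] α)
    hcoord (fun i j hij c hc => ?_) (fun j hj => hj g hg) _ (hcoord j)
  refine hdist _ _ ?_ c hc
  intro h
  apply hij
  exact Nat.eq_of_mul_eq_mul_left hk (by omega)

end Pool.Agent.Q118.SK
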