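import Pool.Agent.Q118.SK.AffAll

/-!
Systems of forms which are skew over a rational function of the projective line, and their fibre
over zero (helper file).
-/

set_option autoImplicit false

namespace Pool.Agent.Q118.SK

open MvPolynomial Pool.Agent.H936R2 Pool.Agent.Y199.DM

theorem hom_eval {σ : Type} {q : MvPolynomial σ ℂ} {e : ℕ} (hq : q.IsHomogeneous e) (c : ℂ)
    (x : σ → ℂ) : eval (fun i => c * x i) q = c ^ e * eval x q := by
  rw [eval_eq, eval_eq, Finset.mul_sum]
  refine Finset.sum_congr rfl fun m hm => ?_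
  have h : ∑ i ∈ m.support, m i = e := by
    have h1 := hq (mem_support_iff.1 hm)
    rw [← h1, Finsupp.weight_apply, Finsupp.sum]
    simp
  simp only [mul_pow]
  rw [Finset.prod_mul_distrib, Finset.prod_pow_eq_pow_sum, h]
  ring

variable {N : ℕ}

/-- The system `X_1 ^ d b(X_0 / X_1)`, `X_1 ^ d a(X_0 / X_1)`, `T_1, …, T_N`. -/
noncomputable def psys (d : ℕ) (b a : Polynomial ℂ) (T : Fin N → MvPolynomial (Fin (N + 2)) ℂ) :
    Fin (N + 2) → MvPolynomial (Fin (N + 2)) ℂ :=
  Fin.cons (hp d b 0 1) (Fin.cons (hp d a 0 1) T)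

/-- The restriction of a form to the chart `X_1 = 1` of the fibre `X_0 = 0`. -/
noncomputable def fch (q : MvPolynomial (Fin (N + 2)) ℂ) : MvPolynomial (Fin N) ℂ :=
  bind₁ (Fin.cons 0 (Fin.cons 1 X)) q

/-- The point of the fibre `X_0 = 0` with the coordinates `z` in the chart `X_1 = 1`. -/
def cp (z : Fin N → ℂ) : Fin (N + 2) → ℂ := Fin.cons 0 (Fin.cons 1 z)

theorem eval_fch (q : MvPolynomial (Fin (N + 2)) ℂ) (z : Fin N → ℂ) :
    eval z (fch q) = eval (cp z) q := by
  have h := eval₂Hom_bind₁ (RingHom.id ℂ) z (Fin.cons 0 (Fin.cons 1 X)) q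
  have h2 : (fun i => eval z ((Fin.cons 0 (Fin.cons 1 X) :
      Fin (N + 2) → MvPolynomial (Fin N) ℂ) i)) = cp z := by
    funext i
    refine Fin.cases ?_ (fun i => ?_) i
    · simp [cp]
    · refine Fin.cases ?_ (fun i => ?_) i
      · simp [cp]
      · simp [cp]
  have h3 : eval z (fch q) = eval (fun i =>
      eval z ((Fin.cons 0 (Fin.cons 1 X) : Fin (N + 2) → MvPolynomial (Fin N) ℂ) i)) q := h
  rw [h3, h2]

theorem pderiv_fch (j : Fin N) (q : MvPolynomial (Fin (N + 2)) ℂ) :
    pderiv j (fch q) = fch (pderiv j.succ.succ q) := by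
  induction q using MvPolynomial.induction_on with
  | C a => simp [fch]
  | add p q hp hq =>
    have h1 : fch (p + q) = fch p + fch q := map_add _ _ _
    have h2 : fch (pderiv j.succ.succ p + pderiv j.succ.succ q) =
      fch (pderiv j.succ.succ p) + fch (pderiv j.succ.succ q) := map_add _ _ _
    rw [h1, map_add, map_add, hp, hq, h2]
  | mul_X p i hp =>
    have h1 : fch (p * X i) = fch p *
        (Fin.cons 0 (Fin.cons 1 X) : Fin (N + 2) → MvPolynomial (Fin N) ℂ) i := by
      simp only [fch, map_mul, bind₁_X_right]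
    have h2 : ∀ u v w : MvPolynomial (Fin (N + 2)) ℂ, fch (u * v + w) = fch u * fch v + fch w := by
      intro u v w
      simp only [fch, map_mul, map_add]
    rw [h1, pderiv_mul, pderiv_mul, h2, hp]
    have h3 : fch (p * pderiv j.succ.succ (X i)) = fch p * fch (pderiv j.succ.succ (X i)) :=
      map_mul _ _ _
    rw [h3]
    congr 1
    · congr 1
      simp only [fch, bind₁_X_right]
    · congr 1
      refine Fin.cases ?_ (fun i => ?_) i
      · rw [pderiv_X_of_ne (Fin.succ_ne_zero _).symm]
        simp [fch]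
      · refine Fin.cases ?_ (fun i => ?_) i
        · rw [pderiv_X_of_ne (fun h => (Fin.succ_ne_zero j).symm (Fin.succ_injective _ h))]
          simp [fch]
        · rw [Fin.cons_succ, Fin.cons_succ]
          by_cases hij : i = j
          · subst hij
            rw [pderiv_X_self, pderiv_X_self]
            simp [fch]
          · rw [pderiv_X_of_ne hij, pderiv_X_of_ne
              (fun h => hij (Fin.succ_injective _ (Fin.succ_injective _ h)))]
            simp [fch]

/-- Points of the fibre `X_0 = 0` and their coordinates. -/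
theorem point_eq (x : Fin (N + 2) → ℂ) (h0 : x 0 = 0) (h1 : x 1 ≠ 0) :
    x = fun i => x 1 * cp (fun j : Fin N => x j.succ.succ / x 1) i := by
  funext i
  refine Fin.cases ?_ (fun i => ?_) i
  · simp [cp, h0]
  · refine Fin.cases ?_ (fun i => ?_) i
    · change x 1 = x 1 * 1
      rw [mul_one]
    · change x i.succ.succ = x 1 * (x i.succ.succ / x 1)
      rw [mul_div_cancel₀ _ h1]

theorem eval_fibre {q : MvPolynomial (Fin (N + 2)) ℂ} {e : ℕ} (hq : q.IsHomogeneous e)
    (x : Fin (N + 2) → ℂ) (h0 : x 0 = 0) (h1 : x 1 ≠ 0) :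
    eval x q = x 1 ^ e * eval (fun j : Fin N => x j.succ.succ / x 1) (fch q) := by
  rw [eval_fch, ← hom_eval hq, ← point_eq x h0 h1]

/-- The first two coordinates of the iterates. -/
theorem pt_pbase (d : ℕ) (b a : Polynomial ℂ) (T : Fin N → MvPolynomial (Fin (N + 2)) ℂ)
    (x : Fin (N + 2) → ℂ) (n : ℕ) :
    ((pt (psys d b a T))^[n] x 0, (pt (psys d b a T))^[n] x 1) = (bs d b a)^[n] (x 0, x 1) := by
  induction n with
  | zero => rfl
  | succ n ih =>
    rw [Function.iterate_succ_apply', Function.iterate_succ_apply', ← ih]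
    refine Prod.ext ?_ ?_
    · change eval _ (hp d b 0 1) = _
      rw [eval_hp]
      rfl
    · change eval _ (hp d a 0 1) = _
      rw [eval_hp]
      rfl

theorem psys_homogeneous {d : ℕ} (b a : Polynomial ℂ) (T : Fin N → MvPolynomial (Fin (N + 2)) ℂ)
    (hT : ∀ j, (T j).IsHomogeneous d) : ∀ i, (psys d b a T i).IsHomogeneous d := by
  intro i
  refine Fin.cases (hp_homogeneous d b 0 1) (fun i => ?_) i
  exact Fin.cases (hp_homogeneous d a 0 1) (fun j => hT j) i

/-- The matrix of partial derivatives of the map of the chart of the fibre. -/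
noncomputable def fchJac (T : Fin N → MvPolynomial (Fin (N + 2)) ℂ) :
    Matrix (Fin N) (Fin N) (MvPolynomial (Fin N) ℂ) :=
  Matrix.of fun i j => pderiv j (fch (T i))

/-- The determinant of the matrix of partial derivatives on the fibre over zero. -/
theorem det_pfibre (e : ℕ) (b a : Polynomial ℂ) (hb0 : b.coeff 0 = 0) (ha0 : a.coeff 0 = 1)
    (T : Fin N → MvPolynomial (Fin (N + 2)) ℂ) (hT : ∀ j, (T j).IsHomogeneous (e + 1))
    (x : Fin (N + 2) → ℂ) (hx : x 0 = 0) (hx1 : x 1 ≠ 0) :
    (jac (psys (e + 1) b a T) x).det = (b.coeff 1 * x 1 ^ e) * ((((e : ℂ) + 1) * x 1 ^ e) *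
      ((x 1 ^ e) ^ N * eval (fun j : Fin N => x j.succ.succ / x 1) (fchJac T).det)) := by
  have h01 : (0 : Fin (N + 2)) ≠ 1 := by simp
  rw [Matrix.det_succ_row_zero, Finset.sum_eq_single 0]
  · have h1 : jac (psys (e + 1) b a T) x 0 0 = b.coeff 1 * x 1 ^ e := by
      change eval x (pderiv 0 (hp (e + 1) b 0 1)) = _
      rw [eval_pderiv_hp_left e b 0 1 h01.symm x, hx, hv_zero_left, Polynomial.coeff_derivative]
      simp
    rw [h1]
    simp only [Fin.val_zero, pow_zero, one_mul]
    congr 1
    rw [Matrix.det_succ_row_zero, Finset.sum_eq_single 0]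
    · have h2 : ((jac (psys (e + 1) b a T) x).submatrix Fin.succ ((0 : Fin (N + 2)).succAbove))
          0 0 = ((e : ℂ) + 1) * x 1 ^ e := by
        change eval x (pderiv ((0 : Fin (N + 2)).succAbove 0) (hp (e + 1) a 0 1)) = _
        rw [Fin.zero_succAbove]
        change eval x (pderiv 1 (hp (e + 1) a 0 1)) = _
        rw [eval_pderiv_hp_right e a 0 1 h01 x hx, ha0]
        ring
      rw [h2]
      simp only [Fin.val_zero, pow_zero, one_mul]
      congr 1
      have h3 : (((jac (psys (e + 1) b a T) x).submatrix Fin.succ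
          ((0 : Fin (N + 2)).succAbove)).submatrix Fin.succ ((0 : Fin (N + 1)).succAbove)) =
          (x 1 ^ e) • ((fchJac T).map (eval (fun j : Fin N => x j.succ.succ / x 1))) := by
        ext i j
        change eval x (pderiv ((0 : Fin (N + 2)).succAbove ((0 : Fin (N + 1)).succAbove j))
          (T i)) = x 1 ^ e * eval (fun j : Fin N => x j.succ.succ / x 1) (pderiv j (fch (T i)))
        rw [pderiv_fch, Fin.zero_succAbove, Fin.zero_succAbove,
          eval_fibre ((hT i).pderiv (i := j.succ.succ)) x hx hx1, Nat.add_sub_cancel]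
      rw [h3, Matrix.det_smul, Fintype.card_fin, RingHom.map_det]
      rfl
    · intro j _ hj
      have h2 : ((jac (psys (e + 1) b a T) x).submatrix Fin.succ ((0 : Fin (N + 2)).succAbove))
          0 j = 0 := by
        change eval x (pderiv ((0 : Fin (N + 2)).succAbove j) (hp (e + 1) a 0 1)) = 0
        rw [Fin.zero_succAbove, pderiv_hp_ne, map_zero]
        · exact (Fin.succ_ne_zero _).symm
        · intro h
          exact hj (Fin.succ_injective _ (show (0 : Fin (N + 1)).succ = j.succ from h)).symm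
      rw [h2, mul_zero, zero_mul]
    · intro h
      exact absurd (Finset.mem_univ _) h
  · intro j _ hj
    have h1 : jac (psys (e + 1) b a T) x 0 j = 0 := by
      change eval x (pderiv j (hp (e + 1) b 0 1)) = 0
      by_cases hj1 : j = 1
      · subst hj1
        rw [eval_pderiv_hp_right e b 0 1 h01 x hx, hb0]
        ring
      · rw [pderiv_hp_ne _ _ _ _ _ (fun h => hj h.symm) (fun h => hj1 h.symm), map_zero]
    rw [h1, mul_zero, zero_mul]
  · intro h
    exact absurd (Finset.mem_univ _) h

end Pool.Agent.Q118.SK
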