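import Pool.Agent.Q118.SK.Proj

/-!
Orbits of skew systems of forms whose reduction reaches the fibre over zero (helper file).
-/

set_option autoImplicit false

namespace Pool.Agent.Q118.SK

open MvPolynomial Pool.Agent.H936R2 Pool.Agent.Y199.DM

variable {N : ℕ}

theorem base_data {d : ℕ} {b a : Polynomial ℂ} (hb : b.natDegree ≤ d) (ha : a.natDegree ≤ d)
    (hcop : IsCoprime a b) (hlead : a.coeff d ≠ 0 ∨ b.coeff d ≠ 0) (v : ℂ × ℂ) (hv0 : v ≠ 0) :
    ∃ s : Finset ℂ, ∀ (p : ℕ) [Fact p.Prime] (τ : ℂ →+* PadicAlgCl p), (∀ y ∈ s, ‖τ y‖ ≤ 1) →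
      ∀ n, ‖τ ((bs d b a)^[n] v).1‖ ≤ 1 ∧ ‖τ ((bs d b a)^[n] v).2‖ ≤ 1 ∧
        (‖τ ((bs d b a)^[n] v).1‖ = 1 ∨ ‖τ ((bs d b a)^[n] v).2‖ = 1) := by
  classical
  obtain ⟨r, t, hrt⟩ := hcop
  obtain ⟨s0, hs0⟩ := coefs_poly {b, a, r, t}
  refine ⟨s0 ∪ {v.1, v.2, v.1⁻¹, v.2⁻¹, (a.coeff d)⁻¹, (b.coeff d)⁻¹}, fun p _ τ hτ => ?_⟩
  have h0 := hs0 p τ fun y hy => hτ y (Finset.mem_union_left _ hy)
  have h1 : ∀ y ∈ ({v.1, v.2, v.1⁻¹, v.2⁻¹, (a.coeff d)⁻¹, (b.coeff d)⁻¹} : Finset ℂ), ‖τ y‖ ≤ 1 :=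
    fun y hy => hτ y (Finset.mem_union_right _ hy)
  have hB := h0 b (by simp)
  have hA := h0 a (by simp)
  have hlead' : ‖τ (a.coeff d)‖ = 1 ∨ ‖τ (b.coeff d)‖ = 1 := by
    rcases hlead with h | h
    · exact Or.inl (norm_one τ h (hA _) (h1 _ (by simp)))
    · exact Or.inr (norm_one τ h (hB _) (h1 _ (by simp)))
  have hv' : ‖τ v.1‖ = 1 ∨ ‖τ v.2‖ = 1 := by
    by_cases h : v.1 = 0
    · have h2 : v.2 ≠ 0 := fun h2 => hv0 (Prod.ext h h2)
      exact Or.inr (norm_one τ h2 (h1 _ (by simp)) (h1 _ (by simp)))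
    · exact Or.inl (norm_one τ h (h1 _ (by simp)) (h1 _ (by simp)))
  exact (base_orbit τ hb ha hB hA r t hrt (h0 r (by simp)) (h0 t (by simp)) hlead' v
    (h1 _ (by simp)) (h1 _ (by simp)) hv').1

/-- The orbit of a point whose reduction meets the fibre `X_0 = 0`. -/
theorem proj_orbit {d : ℕ} {b a : Polynomial ℂ} (hb : b.natDegree ≤ d)
    (ha : a.natDegree ≤ d) (hcop : IsCoprime a b)
    (hlead : a.coeff d ≠ 0 ∨ b.coeff d ≠ 0)
    (hb0 : b.coeff 0 = 0) (ha0 : a.coeff 0 = 1)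
    (T : Fin N → MvPolynomial (Fin (N + 2)) ℂ) (hT : ∀ j, (T j).IsHomogeneous d)
    (m : Multiset (MvPolynomial (Fin N) ℂ))
    (hm : ∀ J ∈ m, Escaping (fun i => fch (T i)) J) (x : Fin (N + 2) → ℂ)
    (hx : x 0 ≠ 0 ∨ x 1 ≠ 0) :
    ∃ s : Finset ℂ, ∀ (p : ℕ) [Fact p.Prime] (τ : ℂ →+* PadicAlgCl p), (∀ y ∈ s, ‖τ y‖ ≤ 1) →
      (∀ i κ, ‖τ ((psys d b a T i).coeff κ)‖ ≤ 1) ∧
      ∀ n, ‖τ ((bs d b a)^[n] (x 0, x 1)).1‖ < 1 →
        ∃ (P : Fin (N + 2) → ℂ) (K : ℕ),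
          (∀ k i, ‖τ ((pt (psys d b a T))^[k] ((pt (psys d b a T))^[n] x) i)‖ ≤ 1) ∧
          (∀ k i, ‖τ ((pt (psys d b a T))^[k] P i)‖ ≤ 1) ∧
          (∀ i, ‖τ ((pt (psys d b a T))^[n] x i) - τ (P i)‖ < 1) ∧
          (∀ k, (pt (psys d b a T))^[k] P 0 = 0 ∧
            ‖τ ((pt (psys d b a T))^[k] P 1)‖ = 1) ∧
          ∀ k, K ≤ k → ∀ J ∈ m, ‖τ (eval (fun j : Fin N =>
            (pt (psys d b a T))^[k] P j.succ.succ / (pt (psys d b a T))^[k] P 1) J)‖ = 1 := by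
  classical
  choose! sJ hsJ using fun J (hJm : J ∈ m) => (hm J hJm).exists_data
  obtain ⟨sF, hsF⟩ := coefs_finite (Set.range (psys d b a T)) (Set.finite_range _)
  obtain ⟨sB, hsB⟩ := base_data hb ha hcop hlead (x 0, x 1) (fun h => by
    rcases hx with h1 | h1
    · exact h1 (congrArg Prod.fst h)
    · exact h1 (congrArg Prod.snd h))
  refine ⟨sF ∪ sB ∪ m.toFinset.biUnion sJ ∪ Finset.univ.image x, fun p _ τ hτ => ?_⟩
  have m3 : ∀ J ∈ m, ∀ y ∈ sJ J, ‖τ y‖ ≤ 1 := fun J hJm y hy =>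
    hτ y (Finset.mem_union_left _ (Finset.mem_union_right _
      (Finset.mem_biUnion.2 ⟨J, Multiset.mem_toFinset.2 hJm, hy⟩)))
  have m4 : ∀ i, ‖τ (x i)‖ ≤ 1 := fun i =>
    hτ _ (Finset.mem_union_right _ (Finset.mem_image_of_mem x (Finset.mem_univ i)))
  have m5 := hsB p τ fun y hy => hτ y (Finset.mem_union_left _ (Finset.mem_union_left _
    (Finset.mem_union_right _ hy)))
  have hF : ∀ i κ, ‖τ ((psys d b a T i).coeff κ)‖ ≤ 1 := fun i κ =>
    hsF p τ (fun y hy => hτ y (Finset.mem_union_left _ (Finset.mem_union_left _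
      (Finset.mem_union_left _ hy)))) _ ⟨i, rfl⟩ κ
  refine ⟨hF, fun n hn => ?_⟩
  have hpt : ∀ n, (pt (psys d b a T))^[n] x 0 = ((bs d b a)^[n] (x 0, x 1)).1 ∧
      (pt (psys d b a T))^[n] x 1 = ((bs d b a)^[n] (x 0, x 1)).2 := by
    intro n
    have := pt_pbase d b a T x n
    exact ⟨congrArg Prod.fst this, congrArg Prod.snd this⟩
  have hint : ∀ n i, ‖τ ((pt (psys d b a T))^[n] x i)‖ ≤ 1 := by
    intro n
    induction n with
    | zero => exact m4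
    | succ n ih =>
      intro i
      rw [Function.iterate_succ_apply']
      exact eval_mem_subring (Oi τ) _ ih _ (hF i)
  set u : Fin (N + 2) → ℂ := (pt (psys d b a T))^[n] x with hu
  have hu0 : ‖τ (u 0)‖ < 1 := by
    rw [hu, (hpt n).1]
    exact hn
  have hu1 : ‖τ (u 1)‖ = 1 := by
    rw [hu, (hpt n).2]
    exact (m5 n).2.2.resolve_left (ne_of_lt hn)
  let P : Fin (N + 2) → ℂ := Function.update u 0 0
  have h10 : (1 : Fin (N + 2)) ≠ 0 := by simp
  have hP0 : P 0 = 0 := Function.update_self _ _ _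
  have hPi : ∀ i, i ≠ 0 → P i = u i := fun i hi => Function.update_of_ne hi _ _
  have hPint : ∀ i, ‖τ (P i)‖ ≤ 1 := by
    intro i
    by_cases hi : i = 0
    · rw [hi, hP0, map_zero, norm_zero]
      exact zero_le_one
    · rw [hPi i hi]
      exact hint n i
  have hz0 : ∀ k, (pt (psys d b a T))^[k] P 0 = 0 := by
    intro k
    have h := congrArg Prod.fst (pt_pbase d b a T P k)
    simp only at h
    rw [h, hP0]
    clear h
    have : ∀ (w : ℂ) (k : ℕ), ((bs d b a)^[k] (0, w)).1 = 0 := by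
      intro w k
      induction k generalizing w with
      | zero => rfl
      | succ k ih =>
        rw [Function.iterate_succ_apply]
        have h2 : bs d b a (0, w) = (0, hv d a 0 w) := by
          refine Prod.ext ?_ rfl
          change hv d b 0 w = 0
          rw [hv_zero_left, hb0, zero_mul]
        rw [h2]
        exact ih _
    exact this _ k
  have hz1s : ∀ k, (pt (psys d b a T))^[k + 1] P 1 = ((pt (psys d b a T))^[k] P 1) ^ d := by
    intro k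
    rw [Function.iterate_succ_apply']
    change eval _ (hp d a 0 1) = _
    rw [eval_hp, hz0 k, hv_zero_left, ha0, one_mul]
  have hz1 : ∀ k, ‖τ ((pt (psys d b a T))^[k] P 1)‖ = 1 := by
    intro k
    induction k with
    | zero =>
      change ‖τ (P 1)‖ = 1
      rw [hPi 1 h10]
      exact hu1
    | succ k ih => rw [hz1s, map_pow, norm_pow, ih, one_pow]
  have hz1ne : ∀ k, (pt (psys d b a T))^[k] P 1 ≠ 0 := by
    intro k h
    have := hz1 k
    rw [h, map_zero, norm_zero] at this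
    exact zero_ne_one this
  have hPit : ∀ k i, ‖τ ((pt (psys d b a T))^[k] P i)‖ ≤ 1 := by
    intro k
    induction k with
    | zero => exact hPint
    | succ k ih =>
      intro i
      rw [Function.iterate_succ_apply']
      exact eval_mem_subring (Oi τ) _ ih _ (hF i)
  -- the orbit in the chart
  let y : ℕ → Fin N → ℂ := fun k j =>
    (pt (psys d b a T))^[k] P j.succ.succ / (pt (psys d b a T))^[k] P 1
  have hystep : ∀ k, y (k + 1) = pt (fun i => fch (T i)) (y k) := by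
    intro k
    funext j
    change (pt (psys d b a T))^[k + 1] P j.succ.succ / (pt (psys d b a T))^[k + 1] P 1 =
      eval (y k) (fch (T j))
    rw [hz1s k, div_eq_iff (pow_ne_zero _ (hz1ne k)), Function.iterate_succ_apply']
    change eval _ (T j) = _
    rw [eval_fibre (hT j) _ (hz0 k) (hz1ne k)]
    ring
  have hyint : ∀ k i, ‖τ (y k i)‖ ≤ 1 := by
    intro k i
    change ‖τ (_ / _)‖ ≤ 1
    rw [map_div₀, norm_div, hz1 k, div_one]
    exact hPit k _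
  have hfin : (⋃ J ∈ m.toFinset, {k : ℕ | ‖τ (eval (y k) J)‖ ≠ 1}).Finite := by
    refine Set.Finite.biUnion (Finset.finite_toSet _) fun J hJm => ?_
    have hJm' := Multiset.mem_toFinset.1 hJm
    exact hsJ J hJm' p τ (m3 J hJm') y hystep hyint
  obtain ⟨K, hK⟩ := hfin.bddAbove
  refine ⟨P, K + 1, fun k i => ?_, hPit, fun i => ?_, fun k => ⟨hz0 k, hz1 k⟩,
    fun k hk J hJ => ?_⟩
  · rw [hu, ← Function.iterate_add_apply]
    exact hint _ i
  · by_cases hi : i = 0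
    · rw [hi, hP0, map_zero, sub_zero]
      exact hu0
    · rw [hPi i hi, sub_self, norm_zero]
      exact one_pos
  · by_contra hcon
    have h1 : k ∈ ⋃ J ∈ m.toFinset, {k : ℕ | ‖τ (eval (y k) J)‖ ≠ 1} := by
      rw [Set.mem_iUnion₂]
      exact ⟨J, Multiset.mem_toFinset.2 hJ, hcon⟩
    have := hK h1
    omega

theorem psys_ne_zero {d : ℕ} {b a : Polynomial ℂ} (hb : b.natDegree ≤ d) (ha : a.natDegree ≤ d)
    (hcop : IsCoprime a b) (hlead : a.coeff d ≠ 0 ∨ b.coeff d ≠ 0)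
    (T : Fin N → MvPolynomial (Fin (N + 2)) ℂ) (x : Fin (N + 2) → ℂ)
    (hx : x 0 ≠ 0 ∨ x 1 ≠ 0) (n : ℕ) : (pt (psys d b a T))^[n] x ≠ 0 := by
  have h1 : ∀ n, (bs d b a)^[n] (x 0, x 1) ≠ 0 := by
    intro n
    induction n with
    | zero =>
      intro h
      rcases hx with h1 | h1
      · exact h1 (congrArg Prod.fst h)
      · exact h1 (congrArg Prod.snd h)
    | succ n ih =>
      rw [Function.iterate_succ_apply']
      exact bs_ne_zero hb ha hcop hlead ih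
  intro h
  apply h1 n
  rw [← pt_pbase d b a T x n, h]
  rfl

/-- The dynamical Mordell-Lang property. -/
theorem proj_all {d : ℕ} (hd : 2 ≤ d) {b a : Polynomial ℂ} (hb : b.natDegree ≤ d)
    (ha : a.natDegree ≤ d) (hcop : IsCoprime a b) (hlead : a.coeff d ≠ 0 ∨ b.coeff d ≠ 0)
    (hb0 : b.coeff 0 = 0) (ha0 : a.coeff 0 = 1) (hb1 : b.coeff 1 ≠ 0)
    (T : Fin N → MvPolynomial (Fin (N + 2)) ℂ) (hT : ∀ j, (T j).IsHomogeneous d)
    (c : ℂ) (hc : c ≠ 0) (m : Multiset (MvPolynomial (Fin N) ℂ))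
    (hJ : (fchJac T).det = C c * m.prod) (hm : ∀ J ∈ m, Escaping (fun i => fch (T i)) J)
    (x : Fin (N + 2) → ℂ) (hx : x 0 ≠ 0 ∨ x 1 ≠ 0) (hreach : Reach d b a (x 0, x 1)) :
    DMLAt (psys d b a T) x := by
  classical
  obtain ⟨e, rfl⟩ : ∃ e, d = e + 1 := ⟨d - 1, by omega⟩
  obtain ⟨s, hs⟩ := proj_orbit hb ha hcop hlead hb0 ha0 T hT m hm x hx
  obtain ⟨p, hp, τ, hτ, n, hn⟩ :=
    hreach (s ∪ {b.coeff 1, (b.coeff 1)⁻¹, c, c⁻¹, ((e : ℂ) + 1)⁻¹})
  obtain ⟨hF, h1⟩ := hs p τ fun y hy => hτ y (Finset.mem_union_left _ hy)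
  have m6 : ∀ y ∈ ({b.coeff 1, (b.coeff 1)⁻¹, c, c⁻¹, ((e : ℂ) + 1)⁻¹} : Finset ℂ), ‖τ y‖ ≤ 1 :=
    fun y hy => hτ y (Finset.mem_union_right _ hy)
  have hen : ‖τ ((e : ℂ) + 1)‖ = 1 := by
    refine norm_one τ (by exact_mod_cast Nat.succ_ne_zero e) ?_ (m6 _ (by simp))
    exact (Oi τ).add_mem (natCast_mem (Oi τ) e) (Oi τ).one_mem
  obtain ⟨P, K, hu, hPit, hnear, hz, hK⟩ := h1 n hn
  refine dmlAt_of_iterate _ x n (psys_ne_zero hb ha hcop hlead T x hx) ?_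
  refine orbit_core τ (psys (e + 1) b a T) (psys (e + 1) b a T) _ P hF hF
    (fun i κ => by rw [sub_self, norm_zero]; exact one_pos) (hu 0) (hPit 0) hnear K
    (fun k hk => ?_) fun k => ⟨1, (hz k).2⟩
  have hne : (pt (psys (e + 1) b a T))^[k] P 1 ≠ 0 := by
    intro h
    have := (hz k).2
    rw [h, map_zero, norm_zero] at this
    exact zero_ne_one this
  rw [det_pfibre e b a hb0 ha0 T hT _ (hz k).1 hne, hJ]
  simp only [map_mul, map_pow, norm_mul, norm_pow, eval_C, (hz k).2, one_pow, mul_one, hen,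
    norm_one τ hb1 (m6 _ (by simp)) (m6 _ (by simp)),
    norm_one τ hc (m6 _ (by simp)) (m6 _ (by simp))]
  rw [norm_prod_one τ m _ (hK k hk)]
  norm_num

/-- Finite return sets. -/
theorem proj_fin {d : ℕ} {b a : Polynomial ℂ} (hb : b.natDegree ≤ d)
    (ha : a.natDegree ≤ d) (hcop : IsCoprime a b) (hlead : a.coeff d ≠ 0 ∨ b.coeff d ≠ 0)
    (hb0 : b.coeff 0 = 0) (ha0 : a.coeff 0 = 1)
    (T : Fin N → MvPolynomial (Fin (N + 2)) ℂ) (hT : ∀ j, (T j).IsHomogeneous d)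
    (g : MvPolynomial (Fin (N + 2)) ℂ) (e : ℕ) (hge : g.IsHomogeneous e)
    (c : ℂ) (hc : c ≠ 0) (m : Multiset (MvPolynomial (Fin N) ℂ))
    (hg : fch g = C c * m.prod) (hm : ∀ J ∈ m, Escaping (fun i => fch (T i)) J)
    (x : Fin (N + 2) → ℂ) (hx : x 0 ≠ 0 ∨ x 1 ≠ 0) (hreach : Reach d b a (x 0, x 1)) :
    {n : ℕ | eval ((pt (psys d b a T))^[n] x) g = 0}.Finite := by
  classical
  obtain ⟨s, hs⟩ := proj_orbit hb ha hcop hlead hb0 ha0 T hT m hm x hx
  obtain ⟨sg, hsg⟩ := coefs_finite {g} (Set.finite_singleton g)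
  obtain ⟨p, hp, τ, hτ, n, hn⟩ := hreach (s ∪ sg ∪ {c, c⁻¹})
  obtain ⟨hF, h1⟩ := hs p τ fun y hy =>
    hτ y (Finset.mem_union_left _ (Finset.mem_union_left _ hy))
  have hgi : ∀ κ, ‖τ (g.coeff κ)‖ ≤ 1 := hsg p τ (fun y hy =>
    hτ y (Finset.mem_union_left _ (Finset.mem_union_right _ hy))) g rfl
  have m6 : ∀ y ∈ ({c, c⁻¹} : Finset ℂ), ‖τ y‖ ≤ 1 :=
    fun y hy => hτ y (Finset.mem_union_right _ hy)
  obtain ⟨P, K, hu, hPit, hnear, hz, hK⟩ := h1 n hn
  -- the orbits stay near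
  have hall : ∀ k i, ‖τ ((pt (psys d b a T))^[k] ((pt (psys d b a T))^[n] x) i) -
      τ ((pt (psys d b a T))^[k] P i)‖ < 1 := by
    intro k
    induction k with
    | zero => exact hnear
    | succ k ih =>
      intro i
      rw [Function.iterate_succ_apply', Function.iterate_succ_apply']
      exact eval_near_mv τ (psys d b a T i) (hF i) _ _ (hu k) (hPit k) ih
  refine (Set.finite_Iio (K + n)).subset fun l hl => ?_
  rw [Set.mem_ofPred_eq] at hl
  by_contra hcon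
  rw [Set.mem_Iio, not_lt] at hcon
  obtain ⟨k, rfl⟩ : ∃ k, l = k + n := ⟨l - n, by omega⟩
  have hk : K ≤ k := by omega
  have hne : (pt (psys d b a T))^[k] P 1 ≠ 0 := by
    intro h
    have := (hz k).2
    rw [h, map_zero, norm_zero] at this
    exact zero_ne_one this
  have h2 := eval_near_mv τ g hgi _ _ (hu k) (hPit k) (hall k)
  rw [← Function.iterate_add_apply, hl, map_zero, zero_sub, norm_neg,
    eval_fibre hge _ (hz k).1 hne, hg, map_mul, map_mul, eval_C, map_mul, norm_mul, norm_mul,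
    map_pow, norm_pow, (hz k).2, one_pow, one_mul,
    norm_one τ hc (m6 _ (by simp)) (m6 _ (by simp)), one_mul,
    norm_prod_one τ m _ (hK k hk)] at h2
  exact lt_irrefl _ h2

end Pool.Agent.Q118.SK
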