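import Pool.Agent.Q118.SK.Loc
import Pool.Agent.Y199.DM.NfT

/-!
Transcendental numbers near to algebraic numbers at places at which given numbers are integral
(helper file).
-/

set_option autoImplicit false

namespace Pool.Agent.Q118.SK

open MvPolynomial Pool.Agent.H936R2 Pool.Agent.Y199.DM

/-- A shifted and scaled family of algebraically independent elements. -/
theorem indep_affine {K : Type} [Field K] {L : Type} [Field L] [Algebra K L] {B : Type} {v : B → L}
    (hv : AlgebraicIndependent K v) (κ l : B → K) (hl : ∀ b, l b ≠ 0) :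
    AlgebraicIndependent K (fun b => algebraMap K L (κ b) + algebraMap K L (l b) * v b) := by
  rw [algebraicIndependent_iff_injective_aeval] at hv ⊢
  let f : MvPolynomial B K →ₐ[K] MvPolynomial B K :=
    aeval fun b => C (κ b) + C (l b) * X b
  let g : MvPolynomial B K →ₐ[K] MvPolynomial B K :=
    aeval fun b => C (l b)⁻¹ * (X b - C (κ b))
  have hgf : g.comp f = AlgHom.id K _ := by
    apply MvPolynomial.algHom_ext
    intro b
    have h1 : g (f (X b)) = g (C (κ b) + C (l b) * X b) := by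
      rw [show f (X b) = C (κ b) + C (l b) * X b from aeval_X _ _]
    have h2 : g (C (κ b) + C (l b) * X b) = C (κ b) + C (l b) * (C (l b)⁻¹ * (X b - C (κ b))) := by
      rw [map_add, map_mul, show g (X b) = C (l b)⁻¹ * (X b - C (κ b)) from aeval_X _ _,
        show g (C (κ b)) = C (κ b) from g.commutes _, show g (C (l b)) = C (l b) from g.commutes _]
    rw [AlgHom.comp_apply, h1, h2, AlgHom.id_apply, ← mul_assoc, ← C_mul, mul_inv_cancel₀ (hl b),
      C_1, one_mul]
    ring
  have hf : Function.Injective f := by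
    intro a b h
    have h1 := congrArg g h
    have h2 : ∀ z, g (f z) = z := fun z => DFunLike.congr_fun hgf z
    rwa [h2, h2] at h1
  have hcomp : (aeval (fun b => algebraMap K L (κ b) + algebraMap K L (l b) * v b) :
      MvPolynomial B K →ₐ[K] L) = (aeval v : MvPolynomial B K →ₐ[K] L).comp f := by
    apply MvPolynomial.algHom_ext
    intro b
    rw [aeval_X, AlgHom.comp_apply, show f (X b) = MvPolynomial.C (κ b) + MvPolynomial.C (l b) * X b
      from aeval_X _ _, map_add, map_mul, aeval_X]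
    rw [show (aeval v : MvPolynomial B K →ₐ[K] L) (MvPolynomial.C (κ b)) = algebraMap K L (κ b) from
      AlgHom.commutes _ _, show (aeval v : MvPolynomial B K →ₐ[K] L) (MvPolynomial.C (l b)) =
      algebraMap K L (l b) from AlgHom.commutes _ _]
  rw [hcomp, AlgHom.coe_comp]
  exact hv.comp hf

/-- Endomorphisms of `ℂ` which move a transcendence basis. -/
theorem exists_endo (K : IntermediateField ℚ ℂ) {B : Set ℂ}
    (hB : IsTranscendenceBasis K ((↑) : B → ℂ)) (κ l : B → K) (hl : ∀ b, l b ≠ 0) :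
    ∃ σ : ℂ →+* ℂ, (∀ k : K, σ (k : ℂ) = k) ∧ ∀ b : B, σ (b : ℂ) = κ b + l b * b := by
  obtain ⟨σ, h1, h2⟩ := exists_extension' (Q := K) (E := K) (C := ℂ) (Ω := ℂ)
    inferInstance
    (Algebra.ofId K ℂ) hB (fun b => algebraMap K ℂ (κ b) + algebraMap K ℂ (l b) * (b : ℂ))
    (indep_affine hB.1 κ l hl)
  exact ⟨σ, h1, h2⟩

/-- The elements of a finite set of numbers are integral at places at which the elements of a
transcendence basis are integral and one polynomial expression is a unit. -/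
theorem exists_clear (K : IntermediateField ℚ ℂ) {B : Set ℂ}
    (hB : IsTranscendenceBasis K ((↑) : B → ℂ)) (x : ℂ) :
    ∃ f : Polynomial (MvPolynomial B K), f ≠ 0 ∧
      Polynomial.eval₂ (aeval ((↑) : B → ℂ) : MvPolynomial B K →ₐ[K] ℂ).toRingHom x f = 0 := by
  obtain ⟨q, hq0, hq⟩ := hB.isAlgebraic.1 x
  refine ⟨q.map hB.1.aevalEquiv.symm.toRingEquiv.toRingHom,
    (Polynomial.map_ne_zero_iff hB.1.aevalEquiv.symm.injective).2 hq0, ?_⟩
  rw [Polynomial.eval₂_map]
  rw [Polynomial.aeval_def] at hq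
  have h : (aeval ((↑) : B → ℂ) : MvPolynomial B K →ₐ[K] ℂ).toRingHom.comp
      hB.1.aevalEquiv.symm.toRingEquiv.toRingHom =
      algebraMap (Algebra.adjoin K (Set.range ((↑) : B → ℂ))) ℂ := by
    refine RingHom.ext fun z => ?_
    obtain ⟨w, rfl⟩ := hB.1.aevalEquiv.surjective z
    change (aeval ((↑) : B → ℂ) : MvPolynomial B K →ₐ[K] ℂ)
      (hB.1.aevalEquiv.symm (hB.1.aevalEquiv w))
      = ((hB.1.aevalEquiv w : Algebra.adjoin K (Set.range ((↑) : B → ℂ))) : ℂ)
    rw [AlgEquiv.symm_apply_apply]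
    simp
  rw [h]
  exact hq

/-- Numbers which are transcendental over `K` are near to elements of every infinite subset
of `K`. -/
theorem near_transc (K : IntermediateField ℚ ℂ) (t : ℂ) (ht : Transcendental K t) (s : Finset ℂ)
    (A : Set K) (hA : A.Infinite) :
    ∃ a ∈ A, ∃ (p : ℕ) (_ : Fact p.Prime) (τ : ℂ →+* PadicAlgCl p),
      (∀ x ∈ s, ‖τ x‖ ≤ 1) ∧ ‖τ (a : ℂ)‖ ≤ 1 ∧ ‖τ (t - a)‖ < 1 := by
  classical
  -- the transcendence basis
  have ht1 : AlgebraicIndepOn K id ({t} : Set ℂ) := by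
    have h : AlgebraicIndependent K (fun i : ({t} : Set ℂ) => id (i : ℂ)) := by
      rw [algebraicIndependent_unique_type_iff]
      exact ht
    exact h
  obtain ⟨B, hB0, hB⟩ := exists_isTranscendenceBasis_superset (R := K) ht1
  have htB : t ∈ B := hB0 rfl
  choose f hf0 hf using exists_clear K hB
  let D : MvPolynomial B K := ∏ x ∈ s, (f x).leadingCoeff
  have hD : D ≠ 0 := Finset.prod_ne_zero_iff.2 fun x _ => Polynomial.leadingCoeff_ne_zero.2 (hf0 x)
  -- the values
  let T : B → Set K := fun b => if (b : ℂ) = t then A else Set.range ((↑) : ℤ → K)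
  have hT : ∀ b, (T b).Infinite := by
    intro b
    simp only [T]
    split_ifs
    · exact hA
    · exact Set.infinite_range_of_injective Int.cast_injective
  obtain ⟨κ, hκT, hκD⟩ : ∃ κ : B → K, (∀ b, κ b ∈ T b) ∧ eval κ D ≠ 0 := by
    by_contra hcon
    push Not at hcon
    apply hD
    refine MvPolynomial.funext_set T hT fun κ hκ => ?_
    rw [hcon κ fun b => hκ b (Set.mem_univ b), map_zero]
  have hκt : κ ⟨t, htB⟩ ∈ A := by
    have h := hκT ⟨t, htB⟩
    simp only [T, if_true] at h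
    exact h
  have hκi : ∀ b : B, (b : ℂ) ≠ t → ∃ z : ℤ, (κ b : ℂ) = z := by
    intro b hb
    have h := hκT b
    simp only [T, if_neg hb] at h
    obtain ⟨z, hz⟩ := h
    exact ⟨z, by rw [← hz]; simp⟩
  -- the place
  let s0 : Finset ℂ := {((eval κ D : K) : ℂ)⁻¹, (κ ⟨t, htB⟩ : ℂ)} ∪
    s.biUnion fun x => (f x).support.biUnion fun i =>
      (((f x).coeff i).support.image fun m => ((((f x).coeff i).coeff m : K) : ℂ))
  obtain ⟨D', hD'⟩ := emb_zero s0
  obtain ⟨p, hpD, hp⟩ := Nat.exists_infinite_primes (D' + 1)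
  have : Fact p.Prime := ⟨hp⟩
  obtain ⟨τ0, hτ0, -⟩ := hD' p (by omega) 0 Polynomial.X Polynomial.irreducible_X (by simp) (by simp)
  have hp1 : ‖((p : ℕ) : PadicAlgCl p)‖ < 1 := norm_natCast_p_lt
  have hN : ∀ b : B, ∃ N : ℕ, ‖((p : ℕ) : PadicAlgCl p) ^ N * τ0 (b : ℂ)‖ < 1 := by
    intro b
    obtain ⟨N, hN⟩ := exists_pow_lt_of_lt_one
      (show (0 : ℝ) < 1 / (‖τ0 (b : ℂ)‖ + 1) by positivity) hp1
    refine ⟨N, ?_⟩
    rw [norm_mul, norm_pow]
    have h0 : 0 ≤ ‖τ0 (b : ℂ)‖ := norm_nonneg _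
    calc ‖((p : ℕ) : PadicAlgCl p)‖ ^ N * ‖τ0 (b : ℂ)‖ ≤ 1 / (‖τ0 (b : ℂ)‖ + 1) * ‖τ0 (b : ℂ)‖ :=
          mul_le_mul_of_nonneg_right hN.le h0
      _ < 1 := by
        rw [one_div_mul_eq_div, div_lt_one (by positivity)]
        linarith
  choose N hN using hN
  obtain ⟨σ, hσK, hσB⟩ := exists_endo K hB κ (fun b => ((p : ℕ) : K) ^ N b)
    (fun b => pow_ne_zero _ (by exact_mod_cast hp.ne_zero))
  -- integrality
  have hκint : ∀ b : B, ‖τ0 (κ b : ℂ)‖ ≤ 1 := by
    intro b
    by_cases hb : (b : ℂ) = t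
    · have h1 : b = ⟨t, htB⟩ := Subtype.ext hb
      rw [h1]
      exact hτ0 _ (Finset.mem_union_left _ (by simp))
    · obtain ⟨z, hz⟩ := hκi b hb
      rw [hz, map_intCast]
      exact (norm_int z).trans_le (Padic.norm_int_le_one z)
  have hdiff : ∀ b : B, ‖τ0 (σ (b : ℂ)) - τ0 (κ b : ℂ)‖ < 1 := by
    intro b
    have h1 : τ0 (σ (b : ℂ)) - τ0 (κ b : ℂ) = ((p : ℕ) : PadicAlgCl p) ^ N b * τ0 (b : ℂ) := by
      rw [hσB b]
      push_cast
      rw [map_add, map_mul, map_pow, map_natCast]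
      ring
    rw [h1]
    exact hN b
  have hint : ∀ b : B, ‖τ0 (σ (b : ℂ))‖ ≤ 1 := by
    intro b
    have h1 : τ0 (σ (b : ℂ)) = (τ0 (σ (b : ℂ)) - τ0 (κ b : ℂ)) + τ0 (κ b : ℂ) := by ring
    rw [h1]
    exact (IsUltrametricDist.norm_add_le_max _ _).trans (max_le (hdiff b).le (hκint b))
  set O := unitBall (PadicAlgCl p) with hO
  let u : B → O := fun b => ⟨τ0 (σ (b : ℂ)), hint b⟩
  let v : B → O := fun b => ⟨τ0 (κ b : ℂ), hκint b⟩
  have huv : (fun b => res (PadicAlgCl p) (u b)) = fun b => res (PadicAlgCl p) (v b) := by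
    funext b
    rw [← sub_eq_zero, ← map_sub, res_eq_zero_iff]
    exact hdiff b
  -- values of polynomials
  have hval : ∀ c : MvPolynomial B K, (∀ m, ‖τ0 ((c.coeff m : K) : ℂ)‖ ≤ 1) →
      ‖τ0 (σ ((aeval ((↑) : B → ℂ) : MvPolynomial B K →ₐ[K] ℂ) c))‖ ≤ 1 ∧
      ‖τ0 (σ ((aeval ((↑) : B → ℂ) : MvPolynomial B K →ₐ[K] ℂ) c)) -
        τ0 ((eval κ c : K) : ℂ)‖ < 1 := by
    intro c hc
    let c' : MvPolynomial B ℂ := map (algebraMap K ℂ) c
    have hc' : ∀ m, ‖τ0 (c'.coeff m)‖ ≤ 1 := fun m => by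
      rw [coeff_map]
      exact hc m
    obtain ⟨g, hg⟩ := exists_lift τ0 c' hc'
    have e1 : ((eval u g : O) : PadicAlgCl p) =
        τ0 (σ ((aeval ((↑) : B → ℂ) : MvPolynomial B K →ₐ[K] ℂ) c)) := by
      have h1 : ((eval u g : O) : PadicAlgCl p) = eval (fun b : B => τ0 (σ (b : ℂ))) (map O.subtype g) := by
        rw [eval_map]
        have h := eval₂_comp_left O.subtype (RingHom.id _) u g
        rw [RingHom.comp_id] at h
        exact h
      have h2 : τ0 (σ ((aeval ((↑) : B → ℂ) : MvPolynomial B K →ₐ[K] ℂ) c)) =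
          eval₂ ((τ0.comp σ).comp (algebraMap K ℂ)) (fun b : B => τ0 (σ (b : ℂ))) c := by
        rw [aeval_def]
        exact eval₂_comp_left (τ0.comp σ) (algebraMap K ℂ) _ c
      have h3 : (τ0.comp σ).comp (algebraMap K ℂ) = τ0.comp (algebraMap K ℂ) := by
        refine RingHom.ext fun k => ?_
        exact congrArg τ0 (hσK k)
      rw [h1, hg, h2, h3, eval_map, eval₂_map]
    have e2 : ((eval v g : O) : PadicAlgCl p) = τ0 ((eval κ c : K) : ℂ) := by
      have h1 : ((eval v g : O) : PadicAlgCl p) = eval (fun b : B => τ0 (κ b : ℂ)) (map O.subtype g) := by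
        rw [eval_map]
        have h := eval₂_comp_left O.subtype (RingHom.id _) v g
        rw [RingHom.comp_id] at h
        exact h
      have h2 : τ0 ((eval κ c : K) : ℂ) =
          eval₂ (τ0.comp (algebraMap K ℂ)) (fun b : B => τ0 (κ b : ℂ)) c := by
        have h := eval₂_comp_left (τ0.comp (algebraMap K ℂ)) (RingHom.id _) κ c
        rw [RingHom.comp_id] at h
        exact h
      rw [h1, hg, h2, eval_map, eval₂_map]
    refine ⟨?_, ?_⟩
    · rw [← e1]
      exact (eval u g).2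
    · rw [← e1, ← e2]
      have h1 : res (PadicAlgCl p) (eval u g) = res (PadicAlgCl p) (eval v g) := by
        have h2 : ∀ w : B → O, res (PadicAlgCl p) (eval w g) =
            eval₂ (res (PadicAlgCl p)) (fun b => res (PadicAlgCl p) (w b)) g := by
          intro w
          have h := eval₂_comp_left (res (PadicAlgCl p)) (RingHom.id _) w g
          rw [RingHom.comp_id] at h
          exact h
        rw [h2, h2, huv]
      rw [← sub_eq_zero, ← map_sub, res_eq_zero_iff] at h1
      exact h1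
  have hcf : ∀ x ∈ s, ∀ i m, ‖τ0 ((((f x).coeff i).coeff m : K) : ℂ)‖ ≤ 1 := by
    intro x hx i m
    by_cases hi : i ∈ (f x).support
    · by_cases hm : m ∈ ((f x).coeff i).support
      · exact hτ0 _ (Finset.mem_union_right _ (Finset.mem_biUnion.2 ⟨x, hx,
          Finset.mem_biUnion.2 ⟨i, hi, Finset.mem_image.2 ⟨m, hm, rfl⟩⟩⟩))
      · rw [notMem_support_iff.1 hm]
        simp
    · rw [Polynomial.notMem_support_iff.1 hi]
      simp
  refine ⟨κ ⟨t, htB⟩, hκt, p, this, τ0.comp σ, fun x hx => ?_, ?_, ?_⟩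
  · -- the leading coefficient is a unit
    have hlead : ‖τ0 (σ ((aeval ((↑) : B → ℂ) : MvPolynomial B K →ₐ[K] ℂ)
        (f x).leadingCoeff))‖ = 1 := by
      have h1 := hval (f x).leadingCoeff fun m => hcf x hx _ m
      refine le_antisymm h1.1 ?_
      -- the value of `D` at `κ`
      have h2 : ‖τ0 ((eval κ D : K) : ℂ)‖ ≥ 1 := by
        have h3 := hτ0 ((eval κ D : K) : ℂ)⁻¹ (Finset.mem_union_left _ (by simp))
        rw [map_inv₀, norm_inv] at h3
        have h4 : 0 < ‖τ0 ((eval κ D : K) : ℂ)‖ := by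
          rw [norm_pos_iff, Ne, map_eq_zero]
          exact_mod_cast hκD
        by_contra hlt
        push Not at hlt
        have := one_lt_inv_iff₀.2 ⟨h4, hlt⟩
        linarith
      have h5 : ‖τ0 ((eval κ D : K) : ℂ)‖ ≤ ‖τ0 ((eval κ (f x).leadingCoeff : K) : ℂ)‖ := by
        have h6 : ((eval κ D : K) : ℂ) = ((eval κ (f x).leadingCoeff : K) : ℂ) *
            ∏ y ∈ s.erase x, ((eval κ (f y).leadingCoeff : K) : ℂ) := by
          rw [Finset.mul_prod_erase s (fun y => ((eval κ (f y).leadingCoeff : K) : ℂ)) hx]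
          simp only [D, map_prod]
          push_cast
          rfl
        rw [h6, map_mul, norm_mul]
        have h7 : ‖τ0 (∏ y ∈ s.erase x, ((eval κ (f y).leadingCoeff : K) : ℂ))‖ ≤ 1 := by
          rw [map_prod, norm_prod]
          refine Finset.prod_le_one (fun _ _ => norm_nonneg _) fun y hy => ?_
          have h8 := hval (f y).leadingCoeff fun m => hcf y (Finset.mem_of_mem_erase hy) _ m
          have h9 : τ0 ((eval κ (f y).leadingCoeff : K) : ℂ) =
              τ0 (σ ((aeval ((↑) : B → ℂ) : MvPolynomial B K →ₐ[K] ℂ) (f y).leadingCoeff)) -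
              (τ0 (σ ((aeval ((↑) : B → ℂ) : MvPolynomial B K →ₐ[K] ℂ) (f y).leadingCoeff)) -
              τ0 ((eval κ (f y).leadingCoeff : K) : ℂ)) := by ring
          rw [h9]
          exact (norm_sub_le_max' _ _).trans (max_le h8.1 h8.2.le)
        calc _ ≤ ‖τ0 ((eval κ (f x).leadingCoeff : K) : ℂ)‖ * 1 :=
              mul_le_mul_of_nonneg_left h7 (norm_nonneg _)
          _ = _ := mul_one _
      by_contra hlt
      push Not at hlt
      have h9 : τ0 ((eval κ (f x).leadingCoeff : K) : ℂ) =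
          τ0 (σ ((aeval ((↑) : B → ℂ) : MvPolynomial B K →ₐ[K] ℂ) (f x).leadingCoeff)) -
          (τ0 (σ ((aeval ((↑) : B → ℂ) : MvPolynomial B K →ₐ[K] ℂ) (f x).leadingCoeff)) -
          τ0 ((eval κ (f x).leadingCoeff : K) : ℂ)) := by ring
      have h10 : ‖τ0 ((eval κ (f x).leadingCoeff : K) : ℂ)‖ < 1 := by
        rw [h9]
        exact lt_of_le_of_lt (norm_sub_le_max' _ _) (max_lt hlt h1.2)
      linarith
    -- the root
    by_contra hcon
    push Not at hcon
    have hroot := congrArg (fun z => τ0 (σ z)) (hf x)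
    simp only [map_zero] at hroot
    set g : MvPolynomial B K →+* PadicAlgCl p := (τ0.comp σ).comp
      (aeval ((↑) : B → ℂ) : MvPolynomial B K →ₐ[K] ℂ).toRingHom with hg
    have hroot2 : Polynomial.eval₂ g (τ0 (σ x)) (f x) = 0 := by
      rw [← hroot]
      exact (Polynomial.hom_eval₂ (f x) _ (τ0.comp σ) x).symm
    rw [Polynomial.eval₂_eq_sum_range, Finset.sum_range_succ] at hroot2
    have hn : ‖g ((f x).coeff (f x).natDegree) * τ0 (σ x) ^ (f x).natDegree‖ =
        ‖τ0 (σ x)‖ ^ (f x).natDegree := by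
      rw [norm_mul, norm_pow]
      have h1 : ‖g ((f x).coeff (f x).natDegree)‖ = 1 := hlead
      rw [h1, one_mul]
    have hcon' : 1 < ‖τ0 (σ x)‖ := hcon
    have hpos : 0 < ‖τ0 (σ x)‖ := by linarith
    have hsum : ‖∑ i ∈ Finset.range (f x).natDegree, g ((f x).coeff i) * τ0 (σ x) ^ i‖ <
        ‖τ0 (σ x)‖ ^ (f x).natDegree := by
      by_cases hdeg : (f x).natDegree = 0
      · rw [hdeg]
        simp
      · obtain ⟨i, hi, hle⟩ := IsUltrametricDist.exists_norm_finsetSum_le_of_nonempty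
          (t := Finset.range (f x).natDegree)
          (Finset.nonempty_range_iff.2 hdeg) (fun i => g ((f x).coeff i) * τ0 (σ x) ^ i)
        refine lt_of_le_of_lt hle ?_
        rw [norm_mul, norm_pow]
        have h1 : ‖g ((f x).coeff i)‖ ≤ 1 := (hval ((f x).coeff i) fun m => hcf x hx i m).1
        calc ‖g ((f x).coeff i)‖ * ‖τ0 (σ x)‖ ^ i ≤ 1 * ‖τ0 (σ x)‖ ^ i :=
              mul_le_mul_of_nonneg_right h1 (by positivity)
          _ = ‖τ0 (σ x)‖ ^ i := one_mul _
          _ < ‖τ0 (σ x)‖ ^ (f x).natDegree :=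
              pow_lt_pow_right₀ hcon' (Finset.mem_range.1 hi)
    have h2 : g ((f x).coeff (f x).natDegree) * τ0 (σ x) ^ (f x).natDegree =
        -(∑ i ∈ Finset.range (f x).natDegree, g ((f x).coeff i) * τ0 (σ x) ^ i) := by
      linear_combination hroot2
    rw [h2, norm_neg] at hn
    linarith
  · change ‖τ0 (σ (κ ⟨t, htB⟩ : ℂ))‖ ≤ 1
    rw [hσK]
    exact hκint _
  · change ‖τ0 (σ (t - (κ ⟨t, htB⟩ : ℂ)))‖ < 1
    rw [map_sub, hσK, map_sub]
    exact hdiff ⟨t, htB⟩

end Pool.Agent.Q118.SK
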